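import Pool.Agent.Lib.H50R.Defs

/-! # H50R: basic lemmas on averages and indicators -/

open MeasureTheory
open scoped ENNReal

namespace H50R

open Pool.Agent.RdvTour

lemma ind_nonneg (p : Prop) : 0 ≤ ind p := by unfold ind; split_ifs <;> norm_num
lemma ind_le_one (p : Prop) : ind p ≤ 1 := by unfold ind; split_ifs <;> norm_num
lemma ind_of_true {p : Prop} (h : p) : ind p = 1 := by unfold ind; rw [if_pos h]
lemma ind_of_false {p : Prop} (h : ¬ p) : ind p = 0 := by unfold ind; rw [if_neg h]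
lemma ind_congr {p p' : Prop} (h : p ↔ p') : ind p = ind p' := by
  rw [show p = p' from propext h]
lemma ind_mono {p p' : Prop} (h : p → p') : ind p ≤ ind p' := by
  by_cases hp : p
  · rw [ind_of_true hp, ind_of_true (h hp)]
  · rw [ind_of_false hp]; exact ind_nonneg _
lemma ind_and (p p' : Prop) : ind (p ∧ p') = ind p * ind p' := by
  by_cases hp : p <;> by_cases hp' : p' <;> simp [ind, hp, hp']

lemma nt_eq_ind {L : Type*} (t : ℕ) (u v : ℕ → L) : nt t u v = ind (∀ d < t, u d ≠ v d) := by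
  by_cases h : ∀ d < t, u d ≠ v d
  · rw [ind_of_true h]; unfold nt; rw [if_pos h]
  · rw [ind_of_false h]; unfold nt; rw [if_neg h]

section av

variable {α β : Type*} [Fintype α] [Fintype β]

lemma av_congr {f g : α → ℝ} (h : ∀ a, f a = g a) : av f = av g := by
  rw [show f = g from funext h]

lemma av_const [Nonempty α] (c : ℝ) : av (fun _ : α => c) = c := by
  unfold av
  rw [Finset.sum_const, Finset.card_univ, nsmul_eq_mul]
  field_simp

lemma av_add (f g : α → ℝ) : av (fun a => f a + g a) = av f + av g := by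
  unfold av; rw [Finset.sum_add_distrib, add_div]

lemma av_sub (f g : α → ℝ) : av (fun a => f a - g a) = av f - av g := by
  unfold av; rw [Finset.sum_sub_distrib, sub_div]

lemma av_mul_left (c : ℝ) (f : α → ℝ) : av (fun a => c * f a) = c * av f := by
  unfold av; rw [← Finset.mul_sum, mul_div_assoc]

lemma av_mul_right (c : ℝ) (f : α → ℝ) : av (fun a => f a * c) = av f * c := by
  unfold av; rw [← Finset.sum_mul]; ring

lemma av_sum {ι : Type*} (s : Finset ι) (f : ι → α → ℝ) :
    av (fun a => ∑ i ∈ s, f i a) = ∑ i ∈ s, av (f i) := by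
  unfold av; rw [Finset.sum_comm, Finset.sum_div]

lemma av_mono {f g : α → ℝ} (h : ∀ a, f a ≤ g a) : av f ≤ av g := by
  unfold av
  gcongr with a _
  exact h a

lemma av_nonneg {f : α → ℝ} (h : ∀ a, 0 ≤ f a) : 0 ≤ av f := by
  unfold av
  exact div_nonneg (Finset.sum_nonneg fun a _ => h a) (Nat.cast_nonneg _)

lemma av_le_const [Nonempty α] {f : α → ℝ} {c : ℝ} (h : ∀ a, f a ≤ c) : av f ≤ c :=
  (av_mono h).trans_eq (av_const c)

lemma av_equiv (e : α ≃ β) (f : β → ℝ) : av (fun a => f (e a)) = av f := by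
  unfold av
  rw [Equiv.sum_comp e f, Fintype.card_congr e]

lemma av_prod (f : α × β → ℝ) : av f = av (fun a => av (fun b => f (a, b))) := by
  unfold av
  rw [Fintype.sum_prod_type, Fintype.card_prod, Finset.sum_div, Finset.sum_div]
  refine Finset.sum_congr rfl fun a _ => ?_
  push_cast
  rw [div_div, mul_comm (Fintype.card β : ℝ)]

lemma av_comm (f : α → β → ℝ) : av (fun a => av (fun b => f a b)) = av (fun b => av (fun a => f a b)) := by
  rw [← av_prod (fun p : α × β => f p.1 p.2), ← av_prod (fun p : β × α => f p.2 p.1)]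
  exact (av_equiv (Equiv.prodComm α β) (fun p : β × α => f p.2 p.1)).symm ▸ rfl

lemma av_mul_prod (f : α → ℝ) (g : β → ℝ) : av (fun p : α × β => f p.1 * g p.2) = av f * av g := by
  rw [av_prod]
  simp only [av_mul_left]
  rw [av_mul_right]

lemma av_pi {ι : Type*} [Fintype ι] [DecidableEq ι] (f : ι → α → ℝ) :
    av (fun r : ι → α => ∏ i, f i (r i)) = ∏ i, av (f i) := by
  unfold av
  rw [Finset.prod_div_distrib, Fintype.card_pi, Finset.prod_univ_sum]
  push_cast
  simp only [Fintype.piFinset_univ]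

end av

lemma lintegral_uniform {α : Type*} [Fintype α] [MeasurableSpace α] [DiscreteMeasurableSpace α]
    (f : α → ℝ≥0∞) : ∫⁻ a, f a ∂(uniform α) = (Fintype.card α : ℝ≥0∞)⁻¹ * ∑ a, f a := by
  unfold uniform
  rw [lintegral_smul_measure, lintegral_count, tsum_fintype, smul_eq_mul]

lemma lintegral_uniform_ofReal {α : Type*} [Fintype α] [Nonempty α] [MeasurableSpace α]
    [DiscreteMeasurableSpace α] (f : α → ℝ) (hf : ∀ a, 0 ≤ f a) :
    ∫⁻ a, ENNReal.ofReal (f a) ∂(uniform α) = ENNReal.ofReal (av f) := by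
  rw [lintegral_uniform]
  unfold av
  rw [div_eq_inv_mul, ENNReal.ofReal_mul (by positivity), ENNReal.ofReal_sum_of_nonneg (fun a _ => hf a),
    ENNReal.ofReal_inv_of_pos (by exact_mod_cast Fintype.card_pos), ENNReal.ofReal_natCast]

lemma q_nonneg (h M s : ℕ) : 0 ≤ q h M s := av_nonneg fun _ => ind_nonneg _
lemma q_le_one (h M s : ℕ) : q h M s ≤ 1 := av_le_const fun _ => ind_le_one _
lemma q_zero (h M : ℕ) : q h M 0 = 1 := by
  unfold q
  rw [av_congr (g := fun _ => 1), av_const]
  intro p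
  exact ind_of_true (fun j hj => absurd hj (Nat.not_lt_zero _))

lemma Q_nonneg (m : ℕ) (ρ : Equiv.Perm (Fin (m + 2))) (o o' : Option (Fin 2)) (j : ℕ) :
    0 ≤ Q m ρ o o' j := av_nonneg fun _ => ind_nonneg _
lemma Q_le_one (m : ℕ) (ρ : Equiv.Perm (Fin (m + 2))) (o o' : Option (Fin 2)) (j : ℕ) :
    Q m ρ o o' j ≤ 1 := av_le_const fun _ => ind_le_one _

lemma hh_pos (m : ℕ) : 0 < hh m := by unfold hh; omega
lemma two_hh_le (m : ℕ) : 2 * hh m ≤ m + 2 := by unfold hh; omega
lemma le_two_hh (m : ℕ) : m + 1 ≤ 2 * hh m := by unfold hh; omega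

end H50R
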