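import Pool.Agent.Lib.RdvTour.Finite

/-!
# H50R: AW(n) is not asymptotically optimal (MP_5ce2f9_pr). Definitions.

See PROOF.md. The definitions of the game (expTime, survival, value, tourLaw) are those of
Pool.Agent.Lib.RdvTour.
-/

open MeasureTheory
open scoped ENNReal

namespace H50R

open Pool.Agent.RdvTour

/-- Average of a real function over a finite type. -/
noncomputable def av {α : Type*} [Fintype α] (f : α → ℝ) : ℝ := (∑ a, f a) / (Fintype.card α : ℝ)

/-- Indicator of a proposition. -/
noncomputable def ind (p : Prop) : ℝ := open Classical in if p then 1 else 0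

/-- Probability that two independent uniform permutations of Fin h do not take the same value, this
value being less than M, at one of the first s places. -/
noncomputable def q (h M s : ℕ) : ℝ :=
  av (fun p : Equiv.Perm (Fin h) × Equiv.Perm (Fin h) =>
    ind (∀ j : Fin h, (j : ℕ) < s → ¬ (p.1 j = p.2 j ∧ (p.1 j : ℕ) < M)))

/-! ## Lower bound part: random tour strategies -/

/-- Probability of no meeting on the first s days of a block, both players being at different
places before the block, with decisions b and b' (true: tour). -/
noncomputable def ss (m : ℕ) (b b' : Bool) (s : ℕ) : ℝ :=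
  if b = true then (if b' = true then q (m + 1) m s else 1 - (s : ℝ) / (m + 1))
  else (if b' = true then 1 - (s : ℝ) / (m + 1) else 1)

/-- Probability of no meeting in a block. -/
noncomputable def cc (m : ℕ) (b b' : Bool) : ℝ := ss m b b' (m + 1)

/-- Expected number of days of a block before which no meeting has occurred. -/
noncomputable def gg (m : ℕ) (b b' : Bool) : ℝ := ∑ s ∈ Finset.range (m + 1), ss m b b' s

/-- Probability of the same first K decisions without meeting. -/
noncomputable def aK (m : ℕ) (D : Measure (ℕ → Bool)) (K : ℕ) : ℝ :=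
  ∫ z, ∏ j ∈ Finset.range K, cc m (z.1 j) (z.2 j) ∂(D.prod D)

/-- Contribution of block K to the expected meeting time. -/
noncomputable def sK (m : ℕ) (D : Measure (ℕ → Bool)) (K : ℕ) : ℝ :=
  ∫ z, (∏ j ∈ Finset.range K, cc m (z.1 j) (z.2 j)) * gg m (z.1 K) (z.2 K) ∂(D.prod D)

/-! ## Upper bound part: strategies with a finite seed -/

/-- Survival probability for a strategy with uniform seed in a finite type. -/
noncomputable def psurv {Ω : Type*} [Fintype Ω] (n : ℕ) (path : Ω → ℕ → Fin n) (t : ℕ) : ℝ :=
  av (fun σ : Equiv.Perm (Fin n) × Equiv.Perm (Fin n) =>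
    av (fun w : Ω × Ω => nt t (fun d => σ.1 (path w.1 d)) (fun d => σ.2 (path w.2 d))))

/-- Length of a half block (n = m + 2, so 2 * hh m is m + 1 or m + 2). -/
def hh (m : ℕ) : ℕ := (m + 2) / 2

/-- The label in slot i: labels 1, ..., m + 1 in order, then 0 (home). -/
def slot (m i : ℕ) : Fin (m + 2) := if h : i < m + 1 then ⟨i + 1, by omega⟩ else 0

/-- The part of a label different from 0: part 0 is 1, ..., hh m; part 1 is the rest. -/
def part (m : ℕ) (a : Fin (m + 2)) : Fin 2 := if (a : ℕ) ≤ hh m then 0 else 1

/-- Plans of the deviating strategy: home (none) or tour of part c (some c), for the six half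
blocks. -/
def planDev : Fin 6 → Option (Fin 2) := ![some 0, none, none, some 1, none, some 0]

/-- Plans of the basic strategy with decisions d (a block is a tour if d b is not 0); the parts are
visited in the order 0, 1, except in block 2 if block 0 was not a tour and block 1 was. -/
def planBase (d : Fin 3 → Fin 4) : Fin 6 → Option (Fin 2) :=
  ![if d 0 = 0 then none else some 0,
    if d 0 = 0 then none else some 1,
    if d 1 = 0 then none else some 0,
    if d 1 = 0 then none else some 1,
    if d 2 = 0 then none else (if d 0 = 0 ∧ d 1 ≠ 0 then some 1 else some 0),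
    if d 2 = 0 then none else (if d 0 = 0 ∧ d 1 ≠ 0 then some 0 else some 1)]

/-- Seeds of the plans. -/
abbrev PS : Type := Fin 100 × (Fin 3 → Fin 4)

/-- The plan with seed x: the deviating one with probability 1/100. -/
def plan (x : PS) : Fin 6 → Option (Fin 2) := if x.1 = 0 then planDev else planBase x.2

/-- Seeds of the whole strategy. -/
abbrev Om (m : ℕ) : Type := PS × (Fin 6 → Equiv.Perm (Fin (hh m)))

/-- Label used on day s of a half block with plan o and permutation π. -/
def dl (m : ℕ) (o : Option (Fin 2)) (π : Equiv.Perm (Fin (hh m))) (s : Fin (hh m)) : Fin (m + 2) :=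
  match o with
  | none => 0
  | some c => slot m ((c : ℕ) * hh m + (π s : ℕ))

/-- The path: day 0 at home, then six half blocks. -/
def path (m : ℕ) (ω : Om m) (t : ℕ) : Fin (m + 2) :=
  if h : 0 < t ∧ (t - 1) / hh m < 6 ∧ 0 < hh m then
    dl m (plan ω.1 ⟨(t - 1) / hh m, h.2.1⟩) (ω.2 ⟨(t - 1) / hh m, h.2.1⟩)
      ⟨(t - 1) % hh m, Nat.mod_lt _ h.2.2⟩
  else 0

/-- Probability of no meeting on the first j days of a half block with plans o, o', when the
relative labelling is ρ. -/
noncomputable def Q (m : ℕ) (ρ : Equiv.Perm (Fin (m + 2))) (o o' : Option (Fin 2)) (j : ℕ) : ℝ :=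
  av (fun p : Equiv.Perm (Fin (hh m)) × Equiv.Perm (Fin (hh m)) =>
    ind (∀ s : Fin (hh m), (s : ℕ) < j → ρ (dl m o p.1 s) ≠ dl m o' p.2 s))

/-- Number of labels in part c which ρ maps to part c'. -/
def cnt (m : ℕ) (ρ : Equiv.Perm (Fin (m + 2))) (c c' : Fin 2) : ℕ :=
  (Finset.univ.filter (fun a : Fin (m + 2) =>
    (a ≠ 0 ∧ part m a = c) ∧ (ρ a ≠ 0 ∧ part m (ρ a) = c'))).card

/-- Limit of the probability of no meeting in a half block; A (B) is the part containing the home of
the second (first) player in the labelling of the first (second) player. -/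
noncomputable def cE (z : ℝ) (A B : Fin 2) : Option (Fin 2) → Option (Fin 2) → ℝ
  | none, none => 1
  | some _, some _ => z
  | some c, none => if c = A then 0 else 1
  | none, some c => if c = B then 0 else 1

/-- Limit of the normalised expected number of days of a half block. -/
noncomputable def gE (z : ℝ) (A B : Fin 2) : Option (Fin 2) → Option (Fin 2) → ℝ
  | none, none => 1
  | some _, some _ => 2 * (1 - z)
  | some c, none => if c = A then 1 / 2 else 1
  | none, some c => if c = B then 1 / 2 else 1

/-- Normalised expected number of days for two plans. -/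
noncomputable def gsum (z : ℝ) (A B : Fin 2) (o o' : Fin 6 → Option (Fin 2)) : ℝ :=
  ∑ i : Fin 6, (∏ i' ∈ Finset.univ.filter (fun i' : Fin 6 => i' < i), cE z A B (o i') (o' i')) *
    gE z A B (o i) (o' i)

/-- Probability of no meeting in the six half blocks for two plans. -/
noncomputable def dprod (z : ℝ) (A B : Fin 2) (o o' : Fin 6 → Option (Fin 2)) : ℝ :=
  ∏ i : Fin 6, cE z A B (o i) (o' i)

/-- Normalised expected number of days. -/
noncomputable def GG (z : ℝ) : ℝ :=
  av (fun p : PS × PS => (1 / 4) * ∑ A : Fin 2, ∑ B : Fin 2, gsum z A B (plan p.1) (plan p.2))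

/-- Probability of no meeting. -/
noncomputable def DD (z : ℝ) : ℝ :=
  av (fun p : PS × PS => (1 / 4) * ∑ A : Fin 2, ∑ B : Fin 2, dprod z A B (plan p.1) (plan p.2))

end H50R
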