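import Pool.Agent.Lib.H50R.Basic

/-!
# H50R, chunk Q5 (S/M): one random permutation

Proof. The indicator is 1 - sum_(j < s) ind (π j = a) and av (ind (π j = a)) = 1/h.
-/

namespace H50R

open Finset

lemma Q5_one {h : ℕ} (a : Fin h) (j : Fin h) :
    av (fun π : Equiv.Perm (Fin h) => ind (π j = a)) = 1 / (h : ℝ) := by
  have hpos : 0 < h := Fin.pos a
  have h1 : ∀ j' : Fin h, av (fun π : Equiv.Perm (Fin h) => ind (π j' = a)) =
      av (fun π : Equiv.Perm (Fin h) => ind (π j = a)) := by
    intro j'
    rw [← av_equiv (Equiv.mulRight (Equiv.swap j j'))]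
    refine av_congr fun π => ?_
    simp
  have h2 : ∑ j' : Fin h, av (fun π : Equiv.Perm (Fin h) => ind (π j' = a)) = 1 := by
    rw [← av_sum]
    rw [av_congr (g := fun _ => 1), av_const]
    intro π
    rw [Finset.sum_eq_single (π.symm a)]
    · exact ind_of_true (by simp)
    · intro b _ hb
      refine ind_of_false fun h => hb ?_
      rw [← h]; simp
    · intro h; exact absurd (Finset.mem_univ _) h
  rw [Finset.sum_congr rfl (fun j' _ => h1 j'), Finset.sum_const, Finset.card_univ, Fintype.card_fin,
    nsmul_eq_mul] at h2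
  have : (h : ℝ) ≠ 0 := by positivity
  field_simp
  linarith

theorem perm_miss {h : ℕ} (a : Fin h) (s : ℕ) (hs : s ≤ h) :
    av (fun π : Equiv.Perm (Fin h) => ind (∀ j : Fin h, (j : ℕ) < s → π j ≠ a)) =
      1 - (s : ℝ) / (h : ℝ) := by
  have h1 : ∀ π : Equiv.Perm (Fin h), ind (∀ j : Fin h, (j : ℕ) < s → π j ≠ a) =
      1 - ∑ j ∈ univ.filter (fun j : Fin h => (j : ℕ) < s), ind (π j = a) := by
    intro π
    by_cases hπ : ∀ j : Fin h, (j : ℕ) < s → π j ≠ a
    · rw [ind_of_true hπ, Finset.sum_eq_zero, sub_zero]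
      intro j hj
      exact ind_of_false (hπ j (Finset.mem_filter.1 hj).2)
    · rw [ind_of_false hπ]
      push Not at hπ
      obtain ⟨j, hj, hja⟩ := hπ
      rw [Finset.sum_eq_single j]
      · rw [ind_of_true hja]; ring
      · intro b _ hb
        refine ind_of_false fun h => hb ?_
        exact π.injective (h.trans hja.symm)
      · intro hn
        exact (hn (by simp [hj])).elim
  rw [av_congr h1, av_sub, av_const, av_sum, Finset.sum_congr rfl (fun j _ => Q5_one a j), Finset.sum_const,
    nsmul_eq_mul]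
  have h2 : (univ.filter (fun j : Fin h => (j : ℕ) < s)).card = s := by
    rw [Fin.card_filter_val_lt, min_eq_right hs]
  rw [h2]
  ring

end H50R
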