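import Pool.Agent.Lib.H50R.Q3
import Pool.Agent.Lib.H50R.Q5

/-!
# H50R, chunk L1 (M): one block of a random tour strategy

Both players are at different places: σ₁ c₁ ≠ σ₂ c₂. (n = m + 2, N = m + 1 other labels.)
Proof of tour_tour: put f i = σ₁ (c₁.succAbove i), f' i = σ₂ (c₂.succAbove i): injective maps
Fin (m+1) → Fin (m+2) with ranges the complements of {σ₁ c₁}, {σ₂ c₂}. Let S = {i : f i ≠ σ₂ c₂}: exactly
one i has f i = σ₂ c₂ (it is in the range of f as σ₂ c₂ ≠ σ₁ c₁), so S.card = m. For i in S there is a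
unique i' with f' i' = f i; this defines an injective map S → Fin (m+1), which extends to a permutation Φ
(Equiv.Perm: Function.Injective on a finset, e.g. Equiv.extendSubtype, or define
Φ i = the i' with f' i' = f i if i in S and for the one i0 not in S the i0' with f' i0' = σ₁ c₁). For all
i, i': f i = f' i' iff i ∈ S and Φ i = i'. Now q_general.
Proof of tour_stay: σ₁ (c₁.succAbove (r j)) ≠ σ₂ c₂ iff r j ≠ a with a the unique index with f a = σ₂ c₂;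
perm_miss.
stay_tour is the same with the roles exchanged.
-/

namespace H50R

open Finset

lemma L1_idx (m : ℕ) (σ₁ σ₂ : Equiv.Perm (Fin (m + 2))) (c₁ c₂ : Fin (m + 2))
    (hc : σ₁ c₁ ≠ σ₂ c₂) : ∃ i₀ : Fin (m + 1), ∀ i, σ₁ (c₁.succAbove i) = σ₂ c₂ ↔ i = i₀ := by
  have h1 : σ₁.symm (σ₂ c₂) ≠ c₁ := by
    intro h
    apply hc
    rw [← h, Equiv.apply_symm_apply]
  obtain ⟨i₀, hi₀⟩ := Fin.exists_succAbove_eq h1
  refine ⟨i₀, fun i => ?_⟩
  rw [← Equiv.eq_symm_apply, ← hi₀]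
  exact (Fin.succAbove_right_injective (p := c₁)).eq_iff

lemma L1_phi (m : ℕ) (σ₁ σ₂ : Equiv.Perm (Fin (m + 2))) (c₁ c₂ : Fin (m + 2)) :
    ∃ Φ : Equiv.Perm (Fin (m + 1)), ∀ i, σ₂ (c₂.succAbove (Φ i)) =
      Equiv.swap (σ₁ c₁) (σ₂ c₂) (σ₁ (c₁.succAbove i)) := by
  have h1 : ∀ i : Fin (m + 1), ∃ i' : Fin (m + 1), c₂.succAbove i' =
      σ₂.symm (Equiv.swap (σ₁ c₁) (σ₂ c₂) (σ₁ (c₁.succAbove i))) := by
    intro i
    refine Fin.exists_succAbove_eq ?_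
    intro h
    have h2 : Equiv.swap (σ₁ c₁) (σ₂ c₂) (σ₁ (c₁.succAbove i)) = σ₂ c₂ :=
      (Equiv.symm_apply_eq σ₂).1 h
    have h3 : σ₁ (c₁.succAbove i) = σ₁ c₁ :=
      (Equiv.swap (σ₁ c₁) (σ₂ c₂)).injective (h2.trans (Equiv.swap_apply_left _ _).symm)
    exact Fin.succAbove_ne c₁ i (σ₁.injective h3)
  choose g hg using h1
  have hinj : Function.Injective g := by
    intro i j hij
    have h2 : c₂.succAbove (g i) = c₂.succAbove (g j) := by rw [hij]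
    rw [hg, hg] at h2
    exact (Fin.succAbove_right_injective (p := c₁))
      (σ₁.injective ((Equiv.swap (σ₁ c₁) (σ₂ c₂)).injective (σ₂.symm.injective h2)))
  refine ⟨Equiv.ofBijective g (Finite.injective_iff_bijective.1 hinj), fun i => ?_⟩
  rw [Equiv.ofBijective_apply, hg, Equiv.apply_symm_apply]

theorem tour_tour (m : ℕ) (σ₁ σ₂ : Equiv.Perm (Fin (m + 2))) (c₁ c₂ : Fin (m + 2))
    (hc : σ₁ c₁ ≠ σ₂ c₂) (s : ℕ) :
    av (fun p : Equiv.Perm (Fin (m + 1)) × Equiv.Perm (Fin (m + 1)) =>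
      ind (∀ j : Fin (m + 1), (j : ℕ) < s →
        σ₁ (c₁.succAbove (p.1 j)) ≠ σ₂ (c₂.succAbove (p.2 j)))) = q (m + 1) m s := by
  obtain ⟨i₀, hi₀⟩ := L1_idx m σ₁ σ₂ c₁ c₂ hc
  obtain ⟨Φ, hΦ⟩ := L1_phi m σ₁ σ₂ c₁ c₂
  have hcard : (univ.erase i₀ : Finset (Fin (m + 1))).card = m := by
    rw [Finset.card_erase_of_mem (Finset.mem_univ _), Finset.card_univ, Fintype.card_fin]
    rfl
  have hq := q_general (univ.erase i₀) Φ s
  rw [hcard] at hq
  rw [← hq]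
  refine av_congr fun p => ind_congr ?_
  refine forall_congr' fun j => forall_congr' fun _ => not_congr ?_
  have hne1 : σ₁ (c₁.succAbove (p.1 j)) ≠ σ₁ c₁ := fun h =>
    Fin.succAbove_ne c₁ _ (σ₁.injective h)
  have hmem : p.1 j ∈ univ.erase i₀ ↔ σ₁ (c₁.succAbove (p.1 j)) ≠ σ₂ c₂ := by
    rw [Finset.mem_erase, ne_eq, ne_eq, hi₀]
    simp
  rw [hmem]
  constructor
  · intro h
    have hne2 : σ₁ (c₁.succAbove (p.1 j)) ≠ σ₂ c₂ := by
      rw [h]
      exact fun h => Fin.succAbove_ne c₂ _ (σ₂.injective h)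
    refine ⟨hne2, ?_⟩
    have h2 := hΦ (p.1 j)
    rw [Equiv.swap_apply_of_ne_of_ne hne1 hne2, h] at h2
    exact (Fin.succAbove_right_injective (p := c₂)) (σ₂.injective h2)
  · rintro ⟨hne2, h⟩
    have h2 := hΦ (p.1 j)
    rw [Equiv.swap_apply_of_ne_of_ne hne1 hne2, h] at h2
    exact h2.symm

theorem tour_stay (m : ℕ) (σ₁ σ₂ : Equiv.Perm (Fin (m + 2))) (c₁ c₂ : Fin (m + 2))
    (hc : σ₁ c₁ ≠ σ₂ c₂) (s : ℕ) (hs : s ≤ m + 1) :
    av (fun r : Equiv.Perm (Fin (m + 1)) =>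
      ind (∀ j : Fin (m + 1), (j : ℕ) < s → σ₁ (c₁.succAbove (r j)) ≠ σ₂ c₂)) =
      1 - (s : ℝ) / (m + 1) := by
  obtain ⟨i₀, hi₀⟩ := L1_idx m σ₁ σ₂ c₁ c₂ hc
  have h := perm_miss i₀ s hs
  push_cast at h
  rw [← h]
  refine av_congr fun p => ind_congr ?_
  refine forall_congr' fun j => forall_congr' fun _ => not_congr (hi₀ _)

theorem stay_tour (m : ℕ) (σ₁ σ₂ : Equiv.Perm (Fin (m + 2))) (c₁ c₂ : Fin (m + 2))
    (hc : σ₁ c₁ ≠ σ₂ c₂) (s : ℕ) (hs : s ≤ m + 1) :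
    av (fun r : Equiv.Perm (Fin (m + 1)) =>
      ind (∀ j : Fin (m + 1), (j : ℕ) < s → σ₁ c₁ ≠ σ₂ (c₂.succAbove (r j)))) =
      1 - (s : ℝ) / (m + 1) := by
  rw [← tour_stay m σ₂ σ₁ c₂ c₁ hc.symm s hs]
  refine av_congr fun p => ind_congr ?_
  exact forall_congr' fun j => forall_congr' fun _ => ne_comm

/-- Day j of a block started at label c with decision b and order r. -/
def fday {m : ℕ} (b : Bool) (c : Fin (m + 2)) (r : Equiv.Perm (Fin (m + 1))) (j : Fin (m + 1)) :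
    Fin (m + 2) := if b = true then c.succAbove (r j) else c

/-- All four cases together. -/
theorem block_av (m : ℕ) (σ₁ σ₂ : Equiv.Perm (Fin (m + 2))) (c₁ c₂ : Fin (m + 2))
    (hc : σ₁ c₁ ≠ σ₂ c₂) (b b' : Bool) (s : ℕ) (hs : s ≤ m + 1) :
    av (fun p : Equiv.Perm (Fin (m + 1)) × Equiv.Perm (Fin (m + 1)) =>
      ind (∀ j : Fin (m + 1), (j : ℕ) < s → σ₁ (fday b c₁ p.1 j) ≠ σ₂ (fday b' c₂ p.2 j))) =
      ss m b b' s := by
  unfold ss fday
  cases b <;> cases b'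
  · simp only [Bool.false_eq_true, if_false]
    rw [av_congr (g := fun _ => 1), av_const]
    intro p
    exact ind_of_true fun j _ => hc
  · simp only [Bool.false_eq_true, if_false, if_true]
    rw [av_prod]
    simp only
    rw [av_congr (fun _ => stay_tour m σ₁ σ₂ c₁ c₂ hc s hs), av_const]
  · simp only [Bool.false_eq_true, if_false, if_true]
    rw [av_prod]
    simp only [av_const]
    exact tour_stay m σ₁ σ₂ c₁ c₂ hc s hs
  · simp only [if_true]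
    exact tour_tour m σ₁ σ₂ c₁ c₂ hc s

end H50R
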