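import Pool.Agent.Lib.H50R.Basic

/-!
# H50R, chunk L3 (S/M): resampling one coordinate of an infinite product

Proof. The map u : (r, x) -> Function.update r k x is measurable (measurable_update' or
measurable_pi_iff) and sends P.prod μ to P, P = Measure.infinitePi (fun _ => μ): by
Measure.eq_infinitePi it suffices to compute the measure of boxes Set.pi s t (s a finite set of
coordinates, t i measurable): the preimage of the box is (box of s.erase k) ×ˢ (t k) if k ∈ s, and the
box times univ if k is not in s; use Measure.infinitePi_pi, Measure.prod_prod and
Finset.mul_prod_erase. Then lintegral_map and lintegral_prod.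
-/

open MeasureTheory
open scoped ENNReal

namespace H50R

theorem lintegral_update {α : Type*} [MeasurableSpace α] (μ : Measure α) [IsProbabilityMeasure μ]
    (k : ℕ) (f : (ℕ → α) → ℝ≥0∞) (hf : Measurable f) :
    ∫⁻ r, f r ∂(Measure.infinitePi fun _ : ℕ => μ) =
      ∫⁻ r, ∫⁻ x, f (Function.update r k x) ∂μ ∂(Measure.infinitePi fun _ : ℕ => μ) := by
  classical
  have hu : Measurable (fun p : (ℕ → α) × α => Function.update p.1 k p.2) := measurable_update'
  have hmap : ((Measure.infinitePi fun _ : ℕ => μ).prod μ).map
      (fun p : (ℕ → α) × α => Function.update p.1 k p.2) = Measure.infinitePi fun _ : ℕ => μ := by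
    refine Measure.eq_infinitePi _ ?_
    intro s t ht
    rw [Measure.map_apply hu (MeasurableSet.pi s.countable_toSet fun i _ => ht i)]
    by_cases hk : k ∈ s
    · have hset : (fun p : (ℕ → α) × α => Function.update p.1 k p.2) ⁻¹' Set.pi (s : Set ℕ) t =
          (Set.pi ((s.erase k : Finset ℕ) : Set ℕ) t) ×ˢ (t k) := by
        ext p
        simp only [Set.mem_preimage, Set.mem_pi, Set.mem_prod, Finset.mem_coe, Finset.mem_erase]
        constructor
        · intro h
          refine ⟨fun i hi => ?_, ?_⟩
          · have := h i hi.2
            rwa [Function.update_of_ne hi.1] at this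
          · have := h k hk
            rwa [Function.update_self] at this
        · rintro ⟨h1, h2⟩ i hi
          by_cases hik : i = k
          · subst hik
            rwa [Function.update_self]
          · rw [Function.update_of_ne hik]
            exact h1 i ⟨hik, hi⟩
      rw [hset, Measure.prod_prod, Measure.infinitePi_pi _ (fun i _ => ht i), mul_comm,
        Finset.mul_prod_erase s (fun i => μ (t i)) hk]
    · have hset : (fun p : (ℕ → α) × α => Function.update p.1 k p.2) ⁻¹' Set.pi (s : Set ℕ) t =
          (Set.pi (s : Set ℕ) t) ×ˢ (Set.univ : Set α) := by
        ext p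
        simp only [Set.mem_preimage, Set.mem_pi, Set.mem_prod, Finset.mem_coe, Set.mem_univ, and_true]
        constructor
        · intro h i hi
          have := h i hi
          rwa [Function.update_of_ne (ne_of_mem_of_not_mem hi hk)] at this
        · intro h i hi
          rw [Function.update_of_ne (ne_of_mem_of_not_mem hi hk)]
          exact h i hi
      rw [hset, Measure.prod_prod, Measure.infinitePi_pi _ (fun i _ => ht i), measure_univ, mul_one]
  conv_lhs => rw [← hmap]
  rw [lintegral_map hf hu]
  exact lintegral_prod (fun p : (ℕ → α) × α => f (Function.update p.1 k p.2)) (hf.comp hu).aemeasurable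

end H50R
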