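import Pool.Agent.Lib.H50R.L1
import Pool.Agent.Lib.H50R.L3

/-!
# H50R, chunk L4 (M/L): one more block

Notation: word, start of Pool.Agent.Lib.RdvTour.TourDefs; P = infinite product of the uniform laws on
Perm (Fin (m+1)); T_k = 1 + k (m+1). Facts (prove them as lemmas, word_congr in RdvTour/Finite.lean and
start_stay in Base.lean may help):
(a) start c b r k depends only on r i for i < k; word c b r d for d < T_k depends only on r i, i < k.
(b) word c b r (T_k + j) = fday (b k) (start c b r k) (r k) j for j < m + 1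
    ((k(m+1)+j)/(m+1) = k, remainder j).
(c) start c b r k = word c b r (T_k - 1): for k = 0 both are c; for k + 1: T_(k+1) - 1 = T_k + m is the
    last day of block k.
Proof of block_step: resample coordinate k in both integrals (lintegral_update, measurability: nt is a
function of finitely many coordinates in finite discrete spaces; measurable_W / measurable_nt in
RdvTour/Base.lean, Expect.lean show how). By (a), (b)
 nt (T_k + s) (new words) = nt T_k (σ₁ word, σ₂ word') * ind (for all j < s: σ₁ (fday ..) ≠ σ₂ (fday ..)).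
Integrate over the two new orders (lintegral_uniform_ofReal twice, av_prod): if nt T_k = 0 both sides are
0; if nt T_k = 1 then by (c) σ₁ (start k) ≠ σ₂ (start' k), so block_av gives ss m (b k) (b' k) s.
Order of integration: write the left side as the integral over r, x, r', x' and exchange the integrals of
x and r' (lintegral_lintegral_swap; everything is measurable), or work with r' inside: for fixed r, x.
-/

open MeasureTheory
open scoped ENNReal

namespace H50R

open Pool.Agent.RdvTour

variable {m : ℕ}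

/-- The law of the orders. -/
noncomputable abbrev PP (m : ℕ) : Measure (ℕ → Equiv.Perm (Fin (m + 1))) :=
  Measure.infinitePi fun _ : ℕ => uniform (Equiv.Perm (Fin (m + 1)))

lemma L4_start_congr (c : Fin (m + 2)) (b : ℕ → Bool) {r r' : ℕ → Equiv.Perm (Fin (m + 1))} (k : ℕ)
    (h : ∀ i < k, r i = r' i) : start c b r k = start c b r' k := by
  induction k with
  | zero => rfl
  | succ k ih =>
    unfold start
    rw [ih (fun i hi => h i (by omega)), h k (by omega)]

lemma L4_word_congr (c : Fin (m + 2)) (b : ℕ → Bool) {r r' : ℕ → Equiv.Perm (Fin (m + 1))} (k : ℕ)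
    (h : ∀ i < k, r i = r' i) (d : ℕ) (hd : d < 1 + k * (m + 1)) :
    word c b r d = word c b r' d := by
  rcases d with _ | t
  · rfl
  · have h1 : t / (m + 1) < k := by
      rw [Nat.div_lt_iff_lt_mul (Nat.succ_pos m)]
      have h2 : m.succ = m + 1 := rfl
      rw [h2]
      omega
    simp only [word]
    rw [L4_start_congr c b (t / (m + 1)) (fun i hi => h i (by omega)), h _ h1]

lemma L4_word_day (c : Fin (m + 2)) (b : ℕ → Bool) (r : ℕ → Equiv.Perm (Fin (m + 1))) (k : ℕ)
    (j : Fin (m + 1)) : word c b r (1 + k * (m + 1) + j) = fday (b k) (start c b r k) (r k) j := by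
  rw [show 1 + k * (m + 1) + (j : ℕ) = k * (m + 1) + j + 1 by ring, word_day _ _ _ _ _ j.isLt]
  rfl

lemma L4_start_eq (c : Fin (m + 2)) (b : ℕ → Bool) (r : ℕ → Equiv.Perm (Fin (m + 1))) (k : ℕ) :
    start c b r k = word c b r (k * (m + 1)) := by
  rcases k with _ | k
  · rw [Nat.zero_mul]; rfl
  · rw [show (k + 1) * (m + 1) = k * (m + 1) + m + 1 by ring, word_day _ _ _ _ _ (Nat.lt_succ_self m)]
    rfl

lemma L4_meas_word (c : Fin (m + 2)) (b : ℕ → Bool) :
    Measurable (fun r : ℕ → Equiv.Perm (Fin (m + 1)) => word c b r) :=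
  measurable_W.comp (measurable_const.prodMk (measurable_const.prodMk measurable_id))

lemma L4_meas (σ₁ σ₂ : Equiv.Perm (Fin (m + 2))) (c c' : Fin (m + 2)) (b b' : ℕ → Bool) (t : ℕ) :
    Measurable (fun p : (ℕ → Equiv.Perm (Fin (m + 1))) × (ℕ → Equiv.Perm (Fin (m + 1))) =>
      ENNReal.ofReal (nt t (fun d => σ₁ (word c b p.1 d)) (fun d => σ₂ (word c' b' p.2 d)))) :=
  (measurable_ofReal_nt (m + 2) t σ₁ σ₂).comp
    (((L4_meas_word c b).comp measurable_fst).prodMk ((L4_meas_word c' b').comp measurable_snd))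

lemma L4_split (σ₁ σ₂ : Equiv.Perm (Fin (m + 2))) (c c' : Fin (m + 2)) (b b' : ℕ → Bool) (k s : ℕ)
    (hs : s ≤ m + 1) (r r' : ℕ → Equiv.Perm (Fin (m + 1))) (x x' : Equiv.Perm (Fin (m + 1))) :
    nt (1 + k * (m + 1) + s) (fun d => σ₁ (word c b (Function.update r k x) d))
        (fun d => σ₂ (word c' b' (Function.update r' k x') d)) =
      nt (1 + k * (m + 1)) (fun d => σ₁ (word c b r d)) (fun d => σ₂ (word c' b' r' d)) *
      ind (∀ j : Fin (m + 1), (j : ℕ) < s → σ₁ (fday (b k) (start c b r k) x j) ≠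
        σ₂ (fday (b' k) (start c' b' r' k) x' j)) := by
  rw [nt_eq_ind, nt_eq_ind, ← ind_and]
  have e1 : ∀ d, d < 1 + k * (m + 1) → word c b (Function.update r k x) d = word c b r d := by
    intro d hd
    exact L4_word_congr c b k (fun i hi => Function.update_of_ne (Nat.ne_of_lt hi) _ _) d hd
  have e2 : ∀ d, d < 1 + k * (m + 1) → word c' b' (Function.update r' k x') d = word c' b' r' d := by
    intro d hd
    exact L4_word_congr c' b' k (fun i hi => Function.update_of_ne (Nat.ne_of_lt hi) _ _) d hd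
  have f1 : ∀ j : Fin (m + 1), word c b (Function.update r k x) (1 + k * (m + 1) + j) =
      fday (b k) (start c b r k) x j := by
    intro j
    rw [L4_word_day, Function.update_self,
      L4_start_congr c b k (fun i hi => Function.update_of_ne (Nat.ne_of_lt hi) _ _)]
  have f2 : ∀ j : Fin (m + 1), word c' b' (Function.update r' k x') (1 + k * (m + 1) + j) =
      fday (b' k) (start c' b' r' k) x' j := by
    intro j
    rw [L4_word_day, Function.update_self,
      L4_start_congr c' b' k (fun i hi => Function.update_of_ne (Nat.ne_of_lt hi) _ _)]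
  refine ind_congr ?_
  constructor
  · intro h
    refine ⟨fun d hd => ?_, fun j hj => ?_⟩
    · have := h d (by omega)
      rwa [e1 d hd, e2 d hd] at this
    · have := h (1 + k * (m + 1) + j) (by omega)
      rwa [f1, f2] at this
  · rintro ⟨h1, h2⟩ d hd
    rcases Nat.lt_or_ge d (1 + k * (m + 1)) with hd' | hd'
    · rw [e1 d hd', e2 d hd']
      exact h1 d hd'
    · have h3 : d - (1 + k * (m + 1)) < m + 1 := by omega
      have h4 := h2 ⟨d - (1 + k * (m + 1)), h3⟩ (by simp only; omega)
      have h5 : 1 + k * (m + 1) + (((⟨d - (1 + k * (m + 1)), h3⟩ : Fin (m + 1)) : ℕ)) = d := by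
        simp only; omega
      rw [← f1, ← f2, h5] at h4
      exact h4

lemma L4_inner (σ₁ σ₂ : Equiv.Perm (Fin (m + 2))) (c c' : Fin (m + 2)) (b b' : ℕ → Bool) (k s : ℕ)
    (hs : s ≤ m + 1) (r r' : ℕ → Equiv.Perm (Fin (m + 1))) :
    ∫⁻ x, ∫⁻ x', ENNReal.ofReal
        (nt (1 + k * (m + 1) + s) (fun d => σ₁ (word c b (Function.update r k x) d))
          (fun d => σ₂ (word c' b' (Function.update r' k x') d)))
        ∂(uniform (Equiv.Perm (Fin (m + 1)))) ∂(uniform (Equiv.Perm (Fin (m + 1)))) =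
      ENNReal.ofReal (ss m (b k) (b' k) s) * ENNReal.ofReal
        (nt (1 + k * (m + 1)) (fun d => σ₁ (word c b r d)) (fun d => σ₂ (word c' b' r' d))) := by
  simp only [L4_split σ₁ σ₂ c c' b b' k s hs r r']
  have h1 : ∀ x : Equiv.Perm (Fin (m + 1)), ∫⁻ x', ENNReal.ofReal
      (nt (1 + k * (m + 1)) (fun d => σ₁ (word c b r d)) (fun d => σ₂ (word c' b' r' d)) *
      ind (∀ j : Fin (m + 1), (j : ℕ) < s → σ₁ (fday (b k) (start c b r k) x j) ≠
        σ₂ (fday (b' k) (start c' b' r' k) x' j))) ∂(uniform (Equiv.Perm (Fin (m + 1)))) =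
      ENNReal.ofReal (av (fun x' : Equiv.Perm (Fin (m + 1)) =>
      nt (1 + k * (m + 1)) (fun d => σ₁ (word c b r d)) (fun d => σ₂ (word c' b' r' d)) *
      ind (∀ j : Fin (m + 1), (j : ℕ) < s → σ₁ (fday (b k) (start c b r k) x j) ≠
        σ₂ (fday (b' k) (start c' b' r' k) x' j)))) := fun x =>
    lintegral_uniform_ofReal _ fun x' => mul_nonneg (nt_nonneg _ _ _) (ind_nonneg _)
  rw [lintegral_congr h1, lintegral_uniform_ofReal _ fun x =>
    av_nonneg fun x' => mul_nonneg (nt_nonneg _ _ _) (ind_nonneg _)]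
  simp only [av_mul_left]
  by_cases hG : ∀ d < 1 + k * (m + 1), σ₁ (word c b r d) ≠ σ₂ (word c' b' r' d)
  · rw [nt_eq_ind, ind_of_true hG, one_mul, ENNReal.ofReal_one, mul_one]
    have hst : σ₁ (start c b r k) ≠ σ₂ (start c' b' r' k) := by
      rw [L4_start_eq, L4_start_eq]
      exact hG (k * (m + 1)) (by omega)
    rw [← block_av m σ₁ σ₂ _ _ hst (b k) (b' k) s hs, av_prod]
  · rw [nt_eq_ind, ind_of_false hG, zero_mul, ENNReal.ofReal_zero, mul_zero]

lemma L4_gen {α : Type*} [MeasurableSpace α] (μ : Measure α) [IsProbabilityMeasure μ] (k : ℕ)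
    (F : (ℕ → α) → (ℕ → α) → ℝ≥0∞) (hF : Measurable (fun p : (ℕ → α) × (ℕ → α) => F p.1 p.2)) :
    ∫⁻ r, ∫⁻ r', F r r' ∂(Measure.infinitePi fun _ : ℕ => μ) ∂(Measure.infinitePi fun _ : ℕ => μ) =
      ∫⁻ r, ∫⁻ r', ∫⁻ x, ∫⁻ x', F (Function.update r k x) (Function.update r' k x') ∂μ ∂μ
        ∂(Measure.infinitePi fun _ : ℕ => μ) ∂(Measure.infinitePi fun _ : ℕ => μ) := by
  have h0 : Measurable (fun r => ∫⁻ r', F r r' ∂(Measure.infinitePi fun _ : ℕ => μ)) :=
    Measurable.lintegral_prod_right' hF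
  rw [lintegral_update μ k _ h0]
  refine lintegral_congr fun r => ?_
  have h1 : ∀ x : α, ∫⁻ r', F (Function.update r k x) r' ∂(Measure.infinitePi fun _ : ℕ => μ) =
      ∫⁻ r', ∫⁻ x', F (Function.update r k x) (Function.update r' k x') ∂μ
        ∂(Measure.infinitePi fun _ : ℕ => μ) := fun x =>
    lintegral_update μ k _ (hF.comp measurable_prodMk_left)
  rw [lintegral_congr h1, lintegral_lintegral_swap]
  have hm1 : Measurable (fun y : (α × (ℕ → α)) × α =>
      (Function.update r k y.1.1, Function.update y.1.2 k y.2)) := by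
    refine Measurable.prodMk ?_ ?_
    · exact (measurable_update r).comp (measurable_fst.comp measurable_fst)
    · exact measurable_update'.comp ((measurable_snd.comp measurable_fst).prodMk measurable_snd)
  exact (Measurable.lintegral_prod_right' (hF.comp hm1)).aemeasurable

theorem block_step (m : ℕ) (σ₁ σ₂ : Equiv.Perm (Fin (m + 2))) (c c' : Fin (m + 2)) (b b' : ℕ → Bool)
    (k s : ℕ) (hs : s ≤ m + 1) :
    ∫⁻ r, ∫⁻ r', ENNReal.ofReal (nt (1 + k * (m + 1) + s) (fun d => σ₁ (word c b r d))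
        (fun d => σ₂ (word c' b' r' d)))
      ∂(Measure.infinitePi fun _ : ℕ => uniform (Equiv.Perm (Fin (m + 1))))
      ∂(Measure.infinitePi fun _ : ℕ => uniform (Equiv.Perm (Fin (m + 1)))) =
    ENNReal.ofReal (ss m (b k) (b' k) s) *
    ∫⁻ r, ∫⁻ r', ENNReal.ofReal (nt (1 + k * (m + 1)) (fun d => σ₁ (word c b r d))
        (fun d => σ₂ (word c' b' r' d)))
      ∂(Measure.infinitePi fun _ : ℕ => uniform (Equiv.Perm (Fin (m + 1))))
      ∂(Measure.infinitePi fun _ : ℕ => uniform (Equiv.Perm (Fin (m + 1)))) := by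
  have hF := L4_meas σ₁ σ₂ c c' b b' (1 + k * (m + 1) + s)
  refine (L4_gen (uniform (Equiv.Perm (Fin (m + 1)))) k (fun r r' =>
    ENNReal.ofReal (nt (1 + k * (m + 1) + s) (fun d => σ₁ (word c b r d))
        (fun d => σ₂ (word c' b' r' d)))) hF).trans ?_
  rw [← lintegral_const_mul' _ _ ENNReal.ofReal_ne_top]
  refine lintegral_congr fun r => ?_
  rw [← lintegral_const_mul' _ _ ENNReal.ofReal_ne_top]
  refine lintegral_congr fun r' => ?_
  exact L4_inner σ₁ σ₂ c c' b b' k s hs r r'

end H50R
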