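import Pool.Agent.Lib.H50R.L4

/-!
# H50R, chunk L5 (S): product formula

Proof. Induction on k with block_step: for s = m + 1, 1 + k (m+1) + (m+1) = 1 + (k+1)(m+1) and
ss m b b' (m+1) = cc m b b'. The base case k = 0: nt 1 is the constant ind (σ₁ c ≠ σ₂ c') (word at time 0
is c), integrals of constants over probability measures. Finally one more block_step with s.
Nonnegativity of ss and cc: q_nonneg and s ≤ m + 1.
-/

open MeasureTheory
open scoped ENNReal

namespace H50R

open Pool.Agent.RdvTour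

lemma ss_nonneg (m : ℕ) (b b' : Bool) (s : ℕ) (hs : s ≤ m + 1) : 0 ≤ ss m b b' s := by
  have h1 : (0 : ℝ) ≤ 1 - (s : ℝ) / (m + 1) := by
    have h2 : (s : ℝ) ≤ (m : ℝ) + 1 := by exact_mod_cast hs
    have h3 : (0 : ℝ) < (m : ℝ) + 1 := by positivity
    rw [sub_nonneg, div_le_one h3]
    exact h2
  unfold ss
  cases b <;> cases b' <;> simp only [Bool.false_eq_true, if_false, if_true]
  · norm_num
  · exact h1
  · exact h1
  · exact q_nonneg _ _ _

lemma ss_le_one (m : ℕ) (b b' : Bool) (s : ℕ) : ss m b b' s ≤ 1 := by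
  have h1 : 1 - (s : ℝ) / (m + 1) ≤ 1 := by
    have : 0 ≤ (s : ℝ) / (m + 1) := by positivity
    linarith
  unfold ss
  cases b <;> cases b' <;> simp only [Bool.false_eq_true, if_false, if_true]
  · exact le_refl _
  · exact h1
  · exact h1
  · exact q_le_one _ _ _

lemma cc_nonneg (m : ℕ) (b b' : Bool) : 0 ≤ cc m b b' := ss_nonneg m b b' (m + 1) le_rfl

lemma cc_le_one (m : ℕ) (b b' : Bool) : cc m b b' ≤ 1 := ss_le_one m b b' (m + 1)

theorem product_formula (m : ℕ) (σ₁ σ₂ : Equiv.Perm (Fin (m + 2))) (c c' : Fin (m + 2))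
    (b b' : ℕ → Bool) (k s : ℕ) (hs : s ≤ m + 1) :
    ∫⁻ r, ∫⁻ r', ENNReal.ofReal (nt (1 + k * (m + 1) + s) (fun d => σ₁ (word c b r d))
        (fun d => σ₂ (word c' b' r' d)))
      ∂(Measure.infinitePi fun _ : ℕ => uniform (Equiv.Perm (Fin (m + 1))))
      ∂(Measure.infinitePi fun _ : ℕ => uniform (Equiv.Perm (Fin (m + 1)))) =
    ENNReal.ofReal (ind (σ₁ c ≠ σ₂ c') * (∏ j ∈ Finset.range k, cc m (b j) (b' j)) *
      ss m (b k) (b' k) s) := by
  have key : ∀ k : ℕ, ∫⁻ r, ∫⁻ r', ENNReal.ofReal (nt (1 + k * (m + 1)) (fun d => σ₁ (word c b r d))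
        (fun d => σ₂ (word c' b' r' d)))
      ∂(Measure.infinitePi fun _ : ℕ => uniform (Equiv.Perm (Fin (m + 1))))
      ∂(Measure.infinitePi fun _ : ℕ => uniform (Equiv.Perm (Fin (m + 1)))) =
    ENNReal.ofReal (ind (σ₁ c ≠ σ₂ c') * (∏ j ∈ Finset.range k, cc m (b j) (b' j))) := by
    intro k
    induction k with
    | zero =>
      have h1 : ∀ r r' : ℕ → Equiv.Perm (Fin (m + 1)),
          nt (1 + 0 * (m + 1)) (fun d => σ₁ (word c b r d)) (fun d => σ₂ (word c' b' r' d)) =
          ind (σ₁ c ≠ σ₂ c') := by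
        intro r r'
        rw [nt_eq_ind]
        refine ind_congr ?_
        constructor
        · intro h
          exact h 0 (by omega)
        · intro h d hd
          have : d = 0 := by omega
          subst this
          exact h
      simp only [h1, Finset.range_zero, Finset.prod_empty, mul_one, lintegral_const, measure_univ]
    | succ k ih =>
      have h1 := block_step m σ₁ σ₂ c c' b b' k (m + 1) le_rfl
      rw [show 1 + k * (m + 1) + (m + 1) = 1 + (k + 1) * (m + 1) by ring, ih] at h1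
      rw [h1, ← ENNReal.ofReal_mul (ss_nonneg m _ _ _ le_rfl), Finset.prod_range_succ]
      congr 1
      unfold cc
      ring
  rw [block_step m σ₁ σ₂ c c' b b' k s hs, key k, ← ENNReal.ofReal_mul (ss_nonneg m _ _ _ hs)]
  congr 1
  ring

end H50R
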