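import Pool.Agent.Lib.H50R.L5

/-!
# H50R, chunk L6 (M/L): lower bound for the expected meeting time of a random tour strategy

Proof. expTime_eq_tsum (RdvTour/Expect.lean) writes expTime as a sum over σ₁, σ₂ of (1/n!)^2 times
sum_t of the double integral of ofReal (nt t ..) with respect to tourLaw m D, n = m + 2. Keep only the
times t = 1 + k (m+1) + s with k < K, s < m + 1 (distinct; ENNReal.sum_le_tsum over the image finset, or
the injection (k, s) -> t). tourLaw m D is the image of uniform × (D × P) under (c, b, r) -> word c b r: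
lintegral_map (measurability: measurable_W in RdvTour/Base.lean, measurable_nt in Expect.lean) and
lintegral_prod (Tonelli) turn the double integral into
  (average over c, c') ∫ b ∫ b' ∫ r ∫ r' ofReal (nt ..)
(reorder the integrals with lintegral_lintegral_swap), and product_formula gives
ofReal (ind (σ₁ c ≠ σ₂ c')) * ofReal (prod cc * ss). Sum over s < m + 1: ss becomes gg. Average of
ind (σ₁ c ≠ σ₂ c') over c, c', σ₁, σ₂ is (m+1)/(m+2): for fixed σ₁, σ₂, c exactly one c' of m + 2 has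
σ₂ c' = σ₁ c. The remaining double integral of a bounded nonnegative function of (b, b') is
ofReal (sK m D k) (ofReal_integral_eq_lintegral_ofReal, lintegral_prod).
-/

open MeasureTheory
open scoped ENNReal

namespace H50R

open Pool.Agent.RdvTour

lemma L6_fubini {A B C : Type*} [MeasurableSpace A] [MeasurableSpace B] [MeasurableSpace C]
    (μ₁ : Measure A) (μ₂ : Measure B) (μ₃ : Measure C) [SFinite μ₁] [SFinite μ₂] [SFinite μ₃]
    (F : A × B × C → A × B × C → ℝ≥0∞)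
    (hF : Measurable (fun p : (A × B × C) × (A × B × C) => F p.1 p.2)) :
    ∫⁻ z, ∫⁻ z', F z z' ∂(μ₁.prod (μ₂.prod μ₃)) ∂(μ₁.prod (μ₂.prod μ₃)) =
      ∫⁻ a, ∫⁻ a', ∫⁻ b, ∫⁻ b', ∫⁻ c, ∫⁻ c', F (a, b, c) (a', b', c') ∂μ₃ ∂μ₃ ∂μ₂ ∂μ₂ ∂μ₁ ∂μ₁ := by
  have e1 : ∀ G : A × B × C → ℝ≥0∞, Measurable G →
      ∫⁻ z, G z ∂(μ₁.prod (μ₂.prod μ₃)) = ∫⁻ a, ∫⁻ b, ∫⁻ c, G (a, b, c) ∂μ₃ ∂μ₂ ∂μ₁ := by
    intro G hG
    rw [lintegral_prod _ hG.aemeasurable]
    refine lintegral_congr fun a => ?_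
    exact lintegral_prod (fun y => G (a, y)) (hG.comp measurable_prodMk_left).aemeasurable
  rw [e1 _ (Measurable.lintegral_prod_right' hF)]
  have e2 : ∀ (a : A) (b : B) (c : C), ∫⁻ z', F (a, b, c) z' ∂(μ₁.prod (μ₂.prod μ₃)) =
      ∫⁻ a', ∫⁻ b', ∫⁻ c', F (a, b, c) (a', b', c') ∂μ₃ ∂μ₂ ∂μ₁ := fun a b c =>
    e1 _ (hF.comp measurable_prodMk_left)
  simp only [e2]
  refine lintegral_congr fun a => ?_
  have e3 : ∀ b : B, ∫⁻ c, ∫⁻ a', ∫⁻ b', ∫⁻ c', F (a, b, c) (a', b', c') ∂μ₃ ∂μ₂ ∂μ₁ ∂μ₃ =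
      ∫⁻ a', ∫⁻ c, ∫⁻ b', ∫⁻ c', F (a, b, c) (a', b', c') ∂μ₃ ∂μ₂ ∂μ₃ ∂μ₁ := by
    intro b
    refine lintegral_lintegral_swap ?_
    have s1 : Measurable (fun y : ((C × A) × B) × C => F (a, b, y.1.1.1) (y.1.1.2, y.1.2, y.2)) :=
      hF.comp (f := fun y : ((C × A) × B) × C => ((a, b, y.1.1.1), (y.1.1.2, y.1.2, y.2)))
        (by fun_prop)
    have s2 := Measurable.lintegral_prod_right' (ν := μ₃) s1
    have s3 := Measurable.lintegral_prod_right' (ν := μ₂) s2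
    exact s3.aemeasurable
  simp only [e3]
  have s4 : Measurable (fun y : (((B × A) × C) × B) × C =>
      F (a, y.1.1.1.1, y.1.1.2) (y.1.1.1.2, y.1.2, y.2)) :=
    hF.comp (f := fun y : (((B × A) × C) × B) × C =>
      ((a, y.1.1.1.1, y.1.1.2), (y.1.1.1.2, y.1.2, y.2))) (by fun_prop)
  have s5 := Measurable.lintegral_prod_right' (ν := μ₂) (Measurable.lintegral_prod_right' (ν := μ₃) s4)
  rw [lintegral_lintegral_swap (Measurable.lintegral_prod_right' (ν := μ₃) s5).aemeasurable]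
  refine lintegral_congr fun a' => ?_
  refine lintegral_congr fun b => ?_
  refine lintegral_lintegral_swap ?_
  have s6 : Measurable (fun y : (C × B) × C => F (a, b, y.1.1) (a', y.1.2, y.2)) :=
    hF.comp (f := fun y : (C × B) × C => ((a, b, y.1.1), (a', y.1.2, y.2))) (by fun_prop)
  exact (Measurable.lintegral_prod_right' (ν := μ₃) s6).aemeasurable

lemma L6_ind {n : ℕ} (hn : 0 < n) (a : Fin n) : av (fun c : Fin n => ind (a ≠ c)) = 1 - 1 / (n : ℝ) := by
  have : Nonempty (Fin n) := ⟨⟨0, hn⟩⟩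
  have h1 : ∀ c : Fin n, ind (a ≠ c) = 1 - (if a = c then 1 else 0) := by
    intro c
    by_cases h : a = c
    · rw [ind_of_false (not_not.2 h), if_pos h]; ring
    · rw [ind_of_true h, if_neg h]; ring
  rw [av_congr h1, av_sub, av_const]
  unfold av
  rw [Finset.sum_ite_eq]
  simp

lemma L6_meas_nt {m : ℕ} (σ₁ σ₂ : Equiv.Perm (Fin (m + 2))) (t : ℕ) :
    Measurable (fun p : Seed m × Seed m =>
      ENNReal.ofReal (nt t (fun d => σ₁ (W p.1 d)) (fun d => σ₂ (W p.2 d)))) :=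
  (measurable_ofReal_nt (m + 2) t σ₁ σ₂).comp
    ((measurable_W.comp measurable_fst).prodMk (measurable_W.comp measurable_snd))

lemma L6_map {m : ℕ} (D : Measure (ℕ → Bool)) [IsProbabilityMeasure D]
    (σ₁ σ₂ : Equiv.Perm (Fin (m + 2))) (t : ℕ) :
    ∫⁻ w₁, ∫⁻ w₂, ENNReal.ofReal (nt t (fun d => σ₁ (w₁ d)) (fun d => σ₂ (w₂ d)))
      ∂(tourLaw m D) ∂(tourLaw m D) =
    ∫⁻ z, ∫⁻ z', ENNReal.ofReal (nt t (fun d => σ₁ (W z d)) (fun d => σ₂ (W z' d)))
      ∂(seedLaw m D) ∂(seedLaw m D) := by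
  have hmeas := measurable_ofReal_nt (m + 2) t σ₁ σ₂
  rw [tourLaw_eq]
  have : IsProbabilityMeasure ((seedLaw m D).map W) :=
    Measure.isProbabilityMeasure_map measurable_W.aemeasurable
  rw [lintegral_map (Measurable.lintegral_prod_right' hmeas) measurable_W]
  refine lintegral_congr fun z => ?_
  exact lintegral_map (hmeas.comp measurable_prodMk_left) measurable_W

/-- The contribution of day s of block k. -/
noncomputable def sKs (m : ℕ) (D : Measure (ℕ → Bool)) (K s : ℕ) : ℝ :=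
  ∫ z, (∏ j ∈ Finset.range K, cc m (z.1 j) (z.2 j)) * ss m (z.1 K) (z.2 K) s ∂(D.prod D)

lemma L6_meas_term (m K s : ℕ) : Measurable (fun z : (ℕ → Bool) × (ℕ → Bool) =>
    (∏ j ∈ Finset.range K, cc m (z.1 j) (z.2 j)) * ss m (z.1 K) (z.2 K) s) := by
  have h1 : ∀ (g : Bool → Bool → ℝ) (j : ℕ), Measurable (fun z : (ℕ → Bool) × (ℕ → Bool) =>
      g (z.1 j) (z.2 j)) := by
    intro g j
    have h2 : Measurable (fun y : Bool × Bool => g y.1 y.2) := Measurable.of_discrete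
    have h3 : Measurable (fun z : (ℕ → Bool) × (ℕ → Bool) => (z.1 j, z.2 j)) :=
      ((measurable_pi_apply j).comp measurable_fst).prodMk ((measurable_pi_apply j).comp measurable_snd)
    exact h2.comp h3
  refine Measurable.mul ?_ (h1 (fun x y => ss m x y s) K)
  exact Finset.measurable_fun_prod _ fun j _ => h1 (fun x y => cc m x y) j

lemma L6_term_nonneg (m K s : ℕ) (hs : s ≤ m + 1) (b b' : ℕ → Bool) :
    0 ≤ (∏ j ∈ Finset.range K, cc m (b j) (b' j)) * ss m (b K) (b' K) s :=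
  mul_nonneg (Finset.prod_nonneg fun _ _ => cc_nonneg _ _ _) (ss_nonneg m _ _ _ hs)

lemma L6_term_le_one (m K s : ℕ) (hs : s ≤ m + 1) (b b' : ℕ → Bool) :
    (∏ j ∈ Finset.range K, cc m (b j) (b' j)) * ss m (b K) (b' K) s ≤ 1 := by
  refine mul_le_one₀ ?_ (ss_nonneg m _ _ _ hs) (ss_le_one m _ _ _)
  exact Finset.prod_le_one (fun _ _ => cc_nonneg _ _ _) (fun _ _ => cc_le_one _ _ _)

lemma L6_integrable (m : ℕ) (D : Measure (ℕ → Bool)) [IsProbabilityMeasure D] (K s : ℕ)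
    (hs : s ≤ m + 1) : Integrable (fun z : (ℕ → Bool) × (ℕ → Bool) =>
    (∏ j ∈ Finset.range K, cc m (z.1 j) (z.2 j)) * ss m (z.1 K) (z.2 K) s) (D.prod D) := by
  refine Integrable.of_bound (L6_meas_term m K s).aestronglyMeasurable 1
    (Filter.Eventually.of_forall fun z => ?_)
  rw [Real.norm_eq_abs, abs_of_nonneg (L6_term_nonneg m K s hs z.1 z.2)]
  exact L6_term_le_one m K s hs z.1 z.2

lemma L6_bb (m : ℕ) (D : Measure (ℕ → Bool)) [IsProbabilityMeasure D] (K s : ℕ) (hs : s ≤ m + 1) :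
    ∫⁻ b, ∫⁻ b', ENNReal.ofReal
      ((∏ j ∈ Finset.range K, cc m (b j) (b' j)) * ss m (b K) (b' K) s) ∂D ∂D =
    ENNReal.ofReal (sKs m D K s) := by
  unfold sKs
  rw [ofReal_integral_eq_lintegral_ofReal (L6_integrable m D K s hs)
    (Filter.Eventually.of_forall fun z => L6_term_nonneg m K s hs z.1 z.2),
    lintegral_prod _ (L6_meas_term m K s).ennreal_ofReal.aemeasurable]

lemma L6_term (m : ℕ) (D : Measure (ℕ → Bool)) [IsProbabilityMeasure D]
    (σ₁ σ₂ : Equiv.Perm (Fin (m + 2))) (K s : ℕ) (hs : s ≤ m + 1) :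
    ∫⁻ w₁, ∫⁻ w₂, ENNReal.ofReal (nt (1 + K * (m + 1) + s) (fun d => σ₁ (w₁ d)) (fun d => σ₂ (w₂ d)))
      ∂(tourLaw m D) ∂(tourLaw m D) =
    ENNReal.ofReal (((m : ℝ) + 1) / (m + 2)) * ENNReal.ofReal (sKs m D K s) := by
  rw [L6_map, seedLaw]
  have hm := L6_meas_nt σ₁ σ₂ (1 + K * (m + 1) + s)
  rw [L6_fubini (uniform (Fin (m + 2))) D
    (Measure.infinitePi fun _ : ℕ => uniform (Equiv.Perm (Fin (m + 1)))) (fun z z' =>
    ENNReal.ofReal (nt (1 + K * (m + 1) + s) (fun d => σ₁ (W z d)) (fun d => σ₂ (W z' d)))) hm]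
  have e1 : ∀ (c c' : Fin (m + 2)) (b b' : ℕ → Bool),
      ∫⁻ r, ∫⁻ r', ENNReal.ofReal (nt (1 + K * (m + 1) + s) (fun d => σ₁ (W (c, b, r) d))
        (fun d => σ₂ (W (c', b', r') d)))
      ∂(Measure.infinitePi fun _ : ℕ => uniform (Equiv.Perm (Fin (m + 1))))
      ∂(Measure.infinitePi fun _ : ℕ => uniform (Equiv.Perm (Fin (m + 1)))) =
      ENNReal.ofReal (ind (σ₁ c ≠ σ₂ c')) * ENNReal.ofReal
        ((∏ j ∈ Finset.range K, cc m (b j) (b' j)) * ss m (b K) (b' K) s) := by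
    intro c c' b b'
    rw [← ENNReal.ofReal_mul (ind_nonneg _), ← mul_assoc]
    exact product_formula m σ₁ σ₂ c c' b b' K s hs
  simp only [e1]
  have e2 : ∀ (c c' : Fin (m + 2)), ∫⁻ b, ∫⁻ b', ENNReal.ofReal (ind (σ₁ c ≠ σ₂ c')) * ENNReal.ofReal
        ((∏ j ∈ Finset.range K, cc m (b j) (b' j)) * ss m (b K) (b' K) s) ∂D ∂D =
      ENNReal.ofReal (ind (σ₁ c ≠ σ₂ c')) * ENNReal.ofReal (sKs m D K s) := by
    intro c c'
    rw [← L6_bb m D K s hs, ← lintegral_const_mul' _ _ ENNReal.ofReal_ne_top]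
    refine lintegral_congr fun b => ?_
    rw [← lintegral_const_mul' _ _ ENNReal.ofReal_ne_top]
  simp only [e2]
  have e3 : ∀ c : Fin (m + 2), ∫⁻ c', ENNReal.ofReal (ind (σ₁ c ≠ σ₂ c')) * ENNReal.ofReal (sKs m D K s)
      ∂(uniform (Fin (m + 2))) =
      ENNReal.ofReal (((m : ℝ) + 1) / (m + 2)) * ENNReal.ofReal (sKs m D K s) := by
    intro c
    rw [lintegral_mul_const' _ _ ENNReal.ofReal_ne_top,
      lintegral_uniform_ofReal _ fun _ => ind_nonneg _]
    congr 2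
    have h1 := av_equiv σ₂ (fun c' => ind (σ₁ c ≠ c'))
    rw [h1, L6_ind (by omega)]
    push_cast
    field_simp
    ring
  simp only [e3, lintegral_const, measure_univ, mul_one]

lemma L6_sum (f : ℕ → ℝ≥0∞) (N K : ℕ) :
    ∑ k ∈ Finset.range K, ∑ s ∈ Finset.range N, f (1 + k * N + s) ≤ ∑' t, f t := by
  have h1 : ∑ k ∈ Finset.range K, ∑ s ∈ Finset.range N, f (1 + k * N + s) =
      ∑ t ∈ Finset.range (K * N), f (1 + t) := by
    induction K with
    | zero => simp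
    | succ K ih =>
      rw [Finset.sum_range_succ, ih, Nat.succ_mul, Finset.sum_range_add]
      congr 1
      refine Finset.sum_congr rfl fun s _ => ?_
      rw [Nat.add_assoc]
  rw [h1]
  calc ∑ t ∈ Finset.range (K * N), f (1 + t) ≤ ∑ t ∈ Finset.range (K * N + 1), f t := by
        rw [Finset.sum_range_succ']
        refine le_trans (le_of_eq ?_) le_self_add
        exact Finset.sum_congr rfl fun t _ => by rw [Nat.add_comm]
    _ ≤ ∑' t, f t := ENNReal.sum_le_tsum _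

lemma L6_sumK (m : ℕ) (D : Measure (ℕ → Bool)) [IsProbabilityMeasure D] (K : ℕ) :
    ∑ s ∈ Finset.range (m + 1), ENNReal.ofReal (sKs m D K s) = ENNReal.ofReal (sK m D K) := by
  rw [← ENNReal.ofReal_sum_of_nonneg]
  · congr 1
    unfold sKs sK
    rw [← integral_finsetSum]
    · refine integral_congr_ae (Filter.Eventually.of_forall fun z => ?_)
      simp only
      unfold gg
      rw [Finset.mul_sum]
    · intro s hs
      exact L6_integrable m D K s (by have := Finset.mem_range.1 hs; omega)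
  · intro s hs
    exact integral_nonneg fun z => L6_term_nonneg m K s (by have := Finset.mem_range.1 hs; omega) z.1 z.2

theorem expTime_ge (m : ℕ) (D : Measure (ℕ → Bool)) [IsProbabilityMeasure D] (K : ℕ) :
    ENNReal.ofReal (((m : ℝ) + 1) / (m + 2)) *
      ∑ k ∈ Finset.range K, ENNReal.ofReal (sK m D k) ≤ expTime (m + 2) (tourLaw m D) := by
  have hP : IsProbabilityMeasure (tourLaw m D) := by
    rw [tourLaw_eq]
    exact Measure.isProbabilityMeasure_map measurable_W.aemeasurable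
  rw [expTime_eq_tsum]
  set X : ℝ≥0∞ := ENNReal.ofReal (((m : ℝ) + 1) / (m + 2)) *
      ∑ k ∈ Finset.range K, ENNReal.ofReal (sK m D k) with hX
  have h1 : ∀ σ₁ σ₂ : Equiv.Perm (Fin (m + 2)), X ≤ ∑' t : ℕ, ∫⁻ w₁, ∫⁻ w₂, ENNReal.ofReal
        (nt t (fun d => σ₁ (w₁ d)) (fun d => σ₂ (w₂ d))) ∂(tourLaw m D) ∂(tourLaw m D) := by
    intro σ₁ σ₂
    refine le_trans (le_of_eq ?_) (L6_sum _ (m + 1) K)
    rw [hX, Finset.mul_sum]
    refine Finset.sum_congr rfl fun k _ => ?_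
    rw [← L6_sumK, Finset.mul_sum]
    refine Finset.sum_congr rfl fun s hs => ?_
    exact (L6_term m D σ₁ σ₂ k s (by have := Finset.mem_range.1 hs; omega)).symm
  have h2 : X = ∑ _σ₁ : Equiv.Perm (Fin (m + 2)), ∑ _σ₂ : Equiv.Perm (Fin (m + 2)),
      (((m + 2).factorial : ℝ≥0∞)⁻¹ * ((m + 2).factorial : ℝ≥0∞)⁻¹) * X := by
    rw [Finset.sum_const, Finset.sum_const, Finset.card_univ, Fintype.card_perm, Fintype.card_fin,
      nsmul_eq_mul, nsmul_eq_mul]
    have hf0 : ((m + 2).factorial : ℝ≥0∞) ≠ 0 := by exact_mod_cast (m + 2).factorial_ne_zero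
    have hft : ((m + 2).factorial : ℝ≥0∞) ≠ ⊤ := ENNReal.natCast_ne_top _
    have e : ((m + 2).factorial : ℝ≥0∞) * (((m + 2).factorial : ℝ≥0∞) *
        ((((m + 2).factorial : ℝ≥0∞)⁻¹ * ((m + 2).factorial : ℝ≥0∞)⁻¹) * X)) =
        (((m + 2).factorial : ℝ≥0∞) * ((m + 2).factorial : ℝ≥0∞)⁻¹) *
        ((((m + 2).factorial : ℝ≥0∞) * ((m + 2).factorial : ℝ≥0∞)⁻¹) * X) := by ring
    rw [e, ENNReal.mul_inv_cancel hf0 hft, one_mul, one_mul]
  rw [h2]
  refine Finset.sum_le_sum fun σ₁ _ => Finset.sum_le_sum fun σ₂ _ => ?_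
  exact mul_le_mul_right (h1 σ₁ σ₂) _

end H50R
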