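import Pool.Agent.Lib.H50R.L5

/-!
# H50R, chunk L7 (M): the dynamic programming inequality

Proof. cc m b b' = 0 if b ≠ b' (1 - (m+1)/(m+1) = 0), cc m false false = 1. For a word u : Fin K → Bool
(or a list) let C_u = {z : ℕ → Bool | z j = u j for j < K} and D(u) = D.real C_u. Since the product of
the cc vanishes unless the first K decisions agree,
  prod_(j<K) cc (z.1 j) (z.2 j) = sum_u (prod_j cc (u j) (u j)) * 1[z.1 ∈ C_u] * 1[z.2 ∈ C_u],
so aK K = sum_u w(u) D(u)^2 with w(u) = prod cc (u j) (u j) ≥ 0 (independence of z.1, z.2: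
measureReal_prod_prod / integral_prod_mul). In the same way
  sK K = sum_u w(u) sum_(b, b') D(u b) D(u b') gg m b b',
  aK (K+1) = sum_u w(u) (D(u false)^2 cc m false false + D(u true)^2 cc m true true),
where D(u b) is the measure of the words starting with u, b; D(u) = D(u false) + D(u true). With
x = D(u false), y = D(u true) the hypothesis hw gives the inequality for each u; sum over u.
A way to organise this: induction-free, all functions depend on the first K + 1 coordinates only; write
the integrals as finite sums over (Fin (K+1) → Bool) by integrating indicator functions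
(integral_finset_sum, integral_mul_const, integral_prod_mul).
gg m true false = gg m false true by definition.
-/

open MeasureTheory
open scoped ENNReal

namespace H50R

open Pool.Agent.RdvTour

/-- Kronecker delta. -/
noncomputable def dlt (x y : Bool) : ℝ := if x = y then 1 else 0

lemma dlt_nonneg (x y : Bool) : 0 ≤ dlt x y := by unfold dlt; split_ifs <;> norm_num
lemma dlt_le_one (x y : Bool) : dlt x y ≤ 1 := by unfold dlt; split_ifs <;> norm_num

lemma cc_ff (m : ℕ) : cc m false false = 1 := by
  unfold cc ss; simp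

lemma cc_tf (m : ℕ) : cc m true false = 0 := by
  unfold cc ss
  simp only [Bool.false_eq_true, if_false, if_true]
  push_cast
  rw [div_self (by positivity)]
  ring

lemma cc_ft (m : ℕ) : cc m false true = 0 := by
  unfold cc ss
  simp only [Bool.false_eq_true, if_false, if_true]
  push_cast
  rw [div_self (by positivity)]
  ring

lemma gg_ft (m : ℕ) : gg m false true = gg m true false := by
  unfold gg ss; simp

/-- Indicator of the words with prefix u. -/
noncomputable def XX {K : ℕ} (u : Fin K → Bool) (b : ℕ → Bool) : ℝ := ∏ j : Fin K, dlt (b j) (u j)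

lemma XX_nonneg {K : ℕ} (u : Fin K → Bool) (b : ℕ → Bool) : 0 ≤ XX u b :=
  Finset.prod_nonneg fun _ _ => dlt_nonneg _ _

lemma XX_le_one {K : ℕ} (u : Fin K → Bool) (b : ℕ → Bool) : XX u b ≤ 1 :=
  Finset.prod_le_one (fun _ _ => dlt_nonneg _ _) (fun _ _ => dlt_le_one _ _)

lemma meas_dlt (j : ℕ) (y : Bool) : Measurable (fun b : ℕ → Bool => dlt (b j) y) := by
  have h2 : Measurable (fun x : Bool => dlt x y) := Measurable.of_discrete
  exact h2.comp (measurable_pi_apply j)

lemma meas_XX {K : ℕ} (u : Fin K → Bool) : Measurable (XX u) :=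
  Finset.measurable_fun_prod _ fun j _ => meas_dlt j (u j)

/-- Weight of a word. -/
noncomputable def wt (m : ℕ) {K : ℕ} (u : Fin K → Bool) : ℝ := ∏ j : Fin K, cc m (u j) (u j)

/-- Probability of the word u followed by β. -/
noncomputable def dd (D : Measure (ℕ → Bool)) {K : ℕ} (u : Fin K → Bool) (β : Bool) : ℝ :=
  ∫ b, XX u b * dlt (b K) β ∂D

lemma wt_nonneg (m : ℕ) {K : ℕ} (u : Fin K → Bool) : 0 ≤ wt m u :=
  Finset.prod_nonneg fun _ _ => cc_nonneg _ _ _

lemma dd_nonneg (D : Measure (ℕ → Bool)) {K : ℕ} (u : Fin K → Bool) (β : Bool) : 0 ≤ dd D u β :=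
  integral_nonneg fun b => mul_nonneg (XX_nonneg u b) (dlt_nonneg _ _)

lemma L7_point (m K : ℕ) (g : Bool → Bool → ℝ) (b b' : ℕ → Bool) :
    (∏ j ∈ Finset.range K, cc m (b j) (b' j)) * g (b K) (b' K) =
    ∑ u : Fin K → Bool, ∑ β : Bool, ∑ β' : Bool,
      (wt m u * g β β') * ((XX u b * dlt (b K) β) * (XX u b' * dlt (b' K) β')) := by
  have h1 : (∏ j ∈ Finset.range K, cc m (b j) (b' j)) =
      ∑ u : Fin K → Bool, wt m u * (XX u b * XX u b') := by
    rw [Finset.prod_range]
    have h2 : ∀ j : Fin K, cc m (b j) (b' j) =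
        ∑ β : Bool, cc m β β * (dlt (b j) β * dlt (b' j) β) := by
      intro j
      rw [Fintype.sum_bool]
      unfold dlt
      cases b j <;> cases b' j <;> simp [cc_tf, cc_ft]
    rw [Finset.prod_congr rfl (fun j _ => h2 j), Finset.prod_univ_sum, Fintype.piFinset_univ]
    refine Finset.sum_congr rfl fun u _ => ?_
    rw [Finset.prod_mul_distrib, Finset.prod_mul_distrib]
    rfl
  have h3 : g (b K) (b' K) = ∑ β : Bool, ∑ β' : Bool, g β β' * (dlt (b K) β * dlt (b' K) β') := by
    rw [Fintype.sum_bool, Fintype.sum_bool, Fintype.sum_bool]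
    unfold dlt
    cases b K <;> cases b' K <;> simp
  rw [h1, h3, Finset.sum_mul]
  refine Finset.sum_congr rfl fun u _ => ?_
  rw [Finset.mul_sum]
  refine Finset.sum_congr rfl fun β _ => ?_
  rw [Finset.mul_sum]
  refine Finset.sum_congr rfl fun β' _ => ?_
  ring

lemma L7_int (D : Measure (ℕ → Bool)) [IsProbabilityMeasure D] {K : ℕ} (u : Fin K → Bool)
    (β : Bool) : Integrable (fun b => XX u b * dlt (b K) β) D := by
  refine Integrable.of_bound ((meas_XX u).mul (meas_dlt K β)).aestronglyMeasurable 1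
    (Filter.Eventually.of_forall fun b => ?_)
  rw [Real.norm_eq_abs, abs_of_nonneg (mul_nonneg (XX_nonneg u b) (dlt_nonneg _ _))]
  exact mul_le_one₀ (XX_le_one u b) (dlt_nonneg _ _) (dlt_le_one _ _)

lemma L7_expand (m : ℕ) (D : Measure (ℕ → Bool)) [IsProbabilityMeasure D] (K : ℕ)
    (g : Bool → Bool → ℝ) :
    ∫ z, (∏ j ∈ Finset.range K, cc m (z.1 j) (z.2 j)) * g (z.1 K) (z.2 K) ∂(D.prod D) =
    ∑ u : Fin K → Bool, ∑ β : Bool, ∑ β' : Bool, (wt m u * g β β') * (dd D u β * dd D u β') := by
  have hi : ∀ (u : Fin K → Bool) (β β' : Bool), Integrable (fun z : (ℕ → Bool) × (ℕ → Bool) =>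
      (wt m u * g β β') * ((XX u z.1 * dlt (z.1 K) β) * (XX u z.2 * dlt (z.2 K) β')))
      (D.prod D) := fun u β β' => ((L7_int D u β).mul_prod (L7_int D u β')).const_mul _
  simp only [L7_point m K g]
  rw [integral_finsetSum _ fun u _ => integrable_finsetSum _ fun β _ =>
    integrable_finsetSum _ fun β' _ => hi u β β']
  refine Finset.sum_congr rfl fun u _ => ?_
  rw [integral_finsetSum _ fun β _ => integrable_finsetSum _ fun β' _ => hi u β β']
  refine Finset.sum_congr rfl fun β _ => ?_
  rw [integral_finsetSum _ fun β' _ => hi u β β']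
  refine Finset.sum_congr rfl fun β' _ => ?_
  rw [integral_const_mul]
  congr 1
  exact integral_prod_mul (fun b => XX u b * dlt (b K) β) (fun b => XX u b * dlt (b K) β')

theorem dp_step (m : ℕ) (D : Measure (ℕ → Bool)) [IsProbabilityMeasure D] (K : ℕ) (w : ℝ)
    (hw : ∀ x y : ℝ, 0 ≤ x → 0 ≤ y → w * (x + y) ^ 2 ≤
      x ^ 2 * (gg m false false + w) + 2 * x * y * gg m true false +
        y ^ 2 * (gg m true true + w * cc m true true)) :
    w * aK m D K ≤ sK m D K + w * aK m D (K + 1) := by
  have h1 : aK m D K = ∑ u : Fin K → Bool, ∑ β : Bool, ∑ β' : Bool,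
      (wt m u * 1) * (dd D u β * dd D u β') := by
    rw [← L7_expand m D K (fun _ _ => 1)]
    unfold aK
    simp only [mul_one]
  have h2 : aK m D (K + 1) = ∑ u : Fin K → Bool, ∑ β : Bool, ∑ β' : Bool,
      (wt m u * cc m β β') * (dd D u β * dd D u β') := by
    rw [← L7_expand m D K (fun x y => cc m x y)]
    unfold aK
    simp only [Finset.prod_range_succ]
  have h3 : sK m D K = ∑ u : Fin K → Bool, ∑ β : Bool, ∑ β' : Bool,
      (wt m u * gg m β β') * (dd D u β * dd D u β') := by
    rw [← L7_expand m D K (fun x y => gg m x y)]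
    rfl
  rw [h1, h2, h3, Finset.mul_sum, Finset.mul_sum, ← Finset.sum_add_distrib]
  refine Finset.sum_le_sum fun u _ => ?_
  simp only [Fintype.sum_bool, cc_ff, cc_tf, cc_ft, gg_ft]
  have h := hw (dd D u false) (dd D u true) (dd_nonneg D u false) (dd_nonneg D u true)
  have h4 := mul_le_mul_of_nonneg_left h (wt_nonneg m u)
  nlinarith [h4]

end H50R
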