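import Pool.Agent.Lib.H50R.L6
import Pool.Agent.Lib.H50R.L7

/-!
# H50R, chunk L8 (M): conclusion of the dynamic programming argument

Proof. aK 0 = 1 (empty product), so dp_step telescopes: w ≤ sum_(k<K) sK k + w aK K. All aK, sK are ≥ 0
(0 ≤ cc ≤ 1, ss ≥ 0 for s ≤ m + 1) and gg m b b' ≥ ss m b b' 0 = 1 (for s = 0: q_zero, 1 - 0 = 1), hence
sK k ≥ aK k and aK is antitone. Suppose the partial sums of sK are bounded by some S (else expTime = ⊤
by expTime_ge, and the claim is trivial). Then sum aK k ≤ S, so aK K → 0 (K aK K ≤ S), so for every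
ε > 0: w ≤ sum_(k<K) sK k + ε for large K. With expTime_ge:
ofReal ((m+1)/(m+2)) * ofReal (w - ε) ≤ expTime; let ε → 0 (ENNReal.ofReal is continuous; or argue by
contradiction with le_of_forall_pos_le_add style lemmas in ℝ using (expTime).toReal).
-/

open MeasureTheory
open scoped ENNReal

namespace H50R

open Pool.Agent.RdvTour

lemma ss_zero (m : ℕ) (b b' : Bool) : ss m b b' 0 = 1 := by
  unfold ss
  cases b <;> cases b' <;> simp [q_zero]

lemma aK_eq (m : ℕ) (D : Measure (ℕ → Bool)) (K : ℕ) : aK m D K = sKs m D K 0 := by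
  unfold aK sKs
  simp only [ss_zero, mul_one]

lemma aK_succ (m : ℕ) (D : Measure (ℕ → Bool)) (K : ℕ) : aK m D (K + 1) = sKs m D K (m + 1) := by
  unfold aK sKs
  simp only [Finset.prod_range_succ]
  rfl

lemma sKs_nonneg (m : ℕ) (D : Measure (ℕ → Bool)) (K s : ℕ) (hs : s ≤ m + 1) :
    0 ≤ sKs m D K s := integral_nonneg fun z => L6_term_nonneg m K s hs z.1 z.2

lemma aK_nonneg (m : ℕ) (D : Measure (ℕ → Bool)) (K : ℕ) : 0 ≤ aK m D K := by
  rw [aK_eq]; exact sKs_nonneg m D K 0 (Nat.zero_le _)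

lemma aK_anti (m : ℕ) (D : Measure (ℕ → Bool)) [IsProbabilityMeasure D] (K : ℕ) :
    aK m D (K + 1) ≤ aK m D K := by
  rw [aK_succ, aK_eq]
  unfold sKs
  refine integral_mono (L6_integrable m D K (m + 1) le_rfl) (L6_integrable m D K 0 (Nat.zero_le _)) ?_
  intro z
  simp only [ss_zero]
  exact mul_le_mul_of_nonneg_left (ss_le_one _ _ _ _)
    (Finset.prod_nonneg fun _ _ => cc_nonneg _ _ _)

lemma aK_zero (m : ℕ) (D : Measure (ℕ → Bool)) [IsProbabilityMeasure D] : aK m D 0 = 1 := by
  unfold aK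
  simp

lemma sK_eq_sum (m : ℕ) (D : Measure (ℕ → Bool)) [IsProbabilityMeasure D] (K : ℕ) :
    sK m D K = ∑ s ∈ Finset.range (m + 1), sKs m D K s := by
  unfold sKs sK
  rw [← integral_finsetSum]
  · refine integral_congr_ae (Filter.Eventually.of_forall fun z => ?_)
    simp only
    unfold gg
    rw [Finset.mul_sum]
  · intro s hs
    exact L6_integrable m D K s (by have := Finset.mem_range.1 hs; omega)

lemma aK_le_sK (m : ℕ) (D : Measure (ℕ → Bool)) [IsProbabilityMeasure D] (K : ℕ) :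
    aK m D K ≤ sK m D K := by
  rw [aK_eq, sK_eq_sum]
  exact Finset.single_le_sum (f := fun s => sKs m D K s)
    (fun s hs => sKs_nonneg m D K s (by have := Finset.mem_range.1 hs; omega))
    (Finset.mem_range.2 (Nat.succ_pos m))

lemma L8_tele (m : ℕ) (D : Measure (ℕ → Bool)) [IsProbabilityMeasure D] (w : ℝ)
    (hw : ∀ x y : ℝ, 0 ≤ x → 0 ≤ y → w * (x + y) ^ 2 ≤
      x ^ 2 * (gg m false false + w) + 2 * x * y * gg m true false +
        y ^ 2 * (gg m true true + w * cc m true true)) (K : ℕ) :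
    w ≤ ∑ k ∈ Finset.range K, sK m D k + w * aK m D K := by
  induction K with
  | zero => simp [aK_zero]
  | succ K ih =>
    have h := dp_step m D K w hw
    rw [Finset.sum_range_succ]
    linarith

lemma L8_Ka (m : ℕ) (D : Measure (ℕ → Bool)) [IsProbabilityMeasure D] (K : ℕ) :
    (K : ℝ) * aK m D K ≤ ∑ k ∈ Finset.range K, sK m D k := by
  have hanti : Antitone (aK m D) := antitone_nat_of_succ_le (aK_anti m D)
  calc (K : ℝ) * aK m D K = ∑ k ∈ Finset.range K, aK m D K := by
        rw [Finset.sum_const, Finset.card_range, nsmul_eq_mul]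
    _ ≤ ∑ k ∈ Finset.range K, sK m D k := by
        refine Finset.sum_le_sum fun k hk => ?_
        exact (hanti (Finset.mem_range.1 hk).le).trans (aK_le_sK m D k)

theorem dp_limit (m : ℕ) (D : Measure (ℕ → Bool)) [IsProbabilityMeasure D] (w : ℝ) (hw0 : 0 ≤ w)
    (hw : ∀ x y : ℝ, 0 ≤ x → 0 ≤ y → w * (x + y) ^ 2 ≤
      x ^ 2 * (gg m false false + w) + 2 * x * y * gg m true false +
        y ^ 2 * (gg m true true + w * cc m true true)) :
    ENNReal.ofReal (((m : ℝ) + 1) / (m + 2) * w) ≤ expTime (m + 2) (tourLaw m D) := by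
  by_cases htop : expTime (m + 2) (tourLaw m D) = ⊤
  · rw [htop]; exact le_top
  set e : ℝ := (expTime (m + 2) (tourLaw m D)).toReal with he
  set c : ℝ := ((m : ℝ) + 1) / (m + 2) with hc
  have hc0 : 0 < c := by rw [hc]; positivity
  have hS : ∀ K : ℕ, c * ∑ k ∈ Finset.range K, sK m D k ≤ e := by
    intro K
    have h1 := expTime_ge m D K
    have h2 : ENNReal.ofReal c * ∑ k ∈ Finset.range K, ENNReal.ofReal (sK m D k) =
        ENNReal.ofReal (c * ∑ k ∈ Finset.range K, sK m D k) := by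
      rw [ENNReal.ofReal_mul hc0.le, ENNReal.ofReal_sum_of_nonneg]
      intro k _
      exact (aK_nonneg m D k).trans (aK_le_sK m D k)
    rw [h2] at h1
    rw [he]
    exact (ENNReal.ofReal_le_iff_le_toReal htop).1 h1
  have he0 : 0 ≤ e := ENNReal.toReal_nonneg
  have key : c * w ≤ e := by
    refine le_of_forall_pos_le_add fun ε hε => ?_
    obtain ⟨K, hK⟩ := exists_nat_gt (w * e / ε)
    have hKpos : (0 : ℝ) < K := lt_of_le_of_lt (by positivity) hK
    have h1 := L8_tele m D w hw K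
    have h2 := L8_Ka m D K
    have h3 := hS K
    have h4 : c * ((K : ℝ) * aK m D K) ≤ e := (mul_le_mul_of_nonneg_left h2 hc0.le).trans h3
    have h5 : w * e ≤ ε * K := by
      rw [div_lt_iff₀ hε] at hK
      nlinarith
    have h6 : c * w * aK m D K ≤ ε := by
      have h7 : (K : ℝ) * (c * w * aK m D K) ≤ (K : ℝ) * ε := by
        have := mul_le_mul_of_nonneg_left h4 hw0
        nlinarith
      exact le_of_mul_le_mul_left h7 hKpos
    have h8 := mul_le_mul_of_nonneg_left h1 hc0.le
    nlinarith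
  rw [← ENNReal.ofReal_toReal htop]
  exact ENNReal.ofReal_le_ofReal key

end H50R
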