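import Pool.Agent.Lib.H50R.Q2

/-!
# H50R, chunk Q6 (M): asymptotic lower bounds for a pair of full tours

Proof. q_limit with h = N = m + 1, M = m, and a geometric sum.
-/

namespace H50R

open Finset

theorem tour_lower (η : ℝ) (hη : 0 < η) : ∃ m0 : ℕ, ∀ m : ℕ, m0 ≤ m →
    Real.exp (-1) - η ≤ q (m + 1) m (m + 1) ∧
    (1 - Real.exp (-1) - η) * ((m : ℝ) + 1) ≤ ∑ s ∈ range (m + 1), q (m + 1) m s := by
  obtain ⟨h0, hq⟩ := q_limit η hη
  refine ⟨h0, fun m hm => ?_⟩
  have hN : (0 : ℝ) < (m : ℝ) + 1 := by positivity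
  have key : ∀ s : ℕ, s ≤ m + 1 → Real.exp (-((s : ℝ) / (m + 1))) - η ≤ q (m + 1) m s := by
    intro s hs
    have h1 := hq (m + 1) (by omega) m (by omega) s hs
    have h2 : Real.exp (-((s : ℝ) / (m + 1))) ≤
        Real.exp (-((s : ℝ) * (m : ℝ) / ((m + 1 : ℕ) : ℝ) ^ 2)) := by
      apply Real.exp_le_exp.2
      apply neg_le_neg
      push_cast
      rw [div_le_div_iff₀ (by positivity) hN]
      have : (0 : ℝ) ≤ s := Nat.cast_nonneg _
      nlinarith [mul_nonneg this hN.le]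
    have h3 := (abs_le.1 h1).1
    linarith
  constructor
  · have h1 := key (m + 1) le_rfl
    have : (((m + 1 : ℕ) : ℝ) / (m + 1)) = 1 := by
      push_cast
      exact div_self hN.ne'
    rwa [this] at h1
  · have h1 : ∑ s ∈ range (m + 1), (Real.exp (-((s : ℝ) / (m + 1))) - η) ≤ ∑ s ∈ range (m + 1), q (m + 1) m s :=
      Finset.sum_le_sum fun s hs => key s (Finset.mem_range.1 hs).le
    refine le_trans ?_ h1
    rw [Finset.sum_sub_distrib, Finset.sum_const, Finset.card_range, nsmul_eq_mul]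
    set r : ℝ := Real.exp (-(1 / ((m : ℝ) + 1))) with hr
    have hterm : ∀ s ∈ range (m + 1), Real.exp (-((s : ℝ) / (m + 1))) = r ^ s := by
      intro s _
      rw [hr, ← Real.exp_nat_mul]
      congr 1
      ring
    rw [Finset.sum_congr rfl hterm]
    have hgeom : (∑ s ∈ range (m + 1), r ^ s) * (1 - r) = 1 - Real.exp (-1) := by
      rw [geom_sum_mul_neg]
      congr 1
      rw [hr, ← Real.exp_nat_mul]
      congr 1
      push_cast
      field_simp
    have hr2 : (1 - r) * ((m : ℝ) + 1) ≤ 1 := by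
      have := Real.add_one_le_exp (-(1 / ((m : ℝ) + 1)))
      have h4 : 1 - r ≤ 1 / ((m : ℝ) + 1) := by linarith
      calc (1 - r) * ((m : ℝ) + 1) ≤ (1 / ((m : ℝ) + 1)) * ((m : ℝ) + 1) := by gcongr
        _ = 1 := by field_simp
    have hS : 0 ≤ ∑ s ∈ range (m + 1), r ^ s := Finset.sum_nonneg fun s _ => by positivity
    have h5 : (1 - Real.exp (-1)) * ((m : ℝ) + 1) ≤ ∑ s ∈ range (m + 1), r ^ s := by
      rw [← hgeom, mul_assoc]
      calc _ ≤ (∑ s ∈ range (m + 1), r ^ s) * 1 := by gcongr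
        _ = _ := mul_one _
    push_cast
    linarith

end H50R
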