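import Pool.Agent.Lib.H50R.L8
import Pool.Agent.Lib.H50R.Q6

/-!
# H50R, chunk L9 (M): numerical lower bound 0.82888

Proof. N = m + 1, v = 0.828884, w = v N. gg m false false = N, gg m true false = sum_(s<N) (1 - s/N)
= (N+1)/2 ≥ N/2, cc m true true = q N m N ≥ e^{-1} - η and gg m true true ≥ (1 - e^{-1} - η) N for large
m (tour_lower with η = 10^{-7}). The hypothesis of dp_limit divided by N follows from
  v (x+y)^2 ≤ x^2 (1 + v) + x y + y^2 (1 - e^{-1} - η + v (e^{-1} - η)),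
that is 0 ≤ x^2 - (2v - 1) x y + y^2 (K - η (1 + v)) with K = (1 - e^{-1})(1 - v). The discriminant
(2v-1)^2 - 4 (K - η(1+v)) is negative: (2v-1)^2 = 0.4326587..., 4K = 0.4326637... (e^{-1} = 0.36787944...;
Real.exp_one_gt_d9, Real.exp_one_lt_d9, or Real.exp_neg_one_gt_d9 / lt_d9), so complete the square:
x^2 - a x y + b y^2 = (x - a y/2)^2 + (b - a^2/4) y^2.
Finally (m+1)/(m+2) * v (m+1) ≥ 0.82888 (m+2) for large m: (m+1)^2/(m+2)^2 ≥ 1 - 2/(m+2) and
0.82888/0.828884 = 1 - 4.8...*10^{-6}; e.g. m ≥ 10^6.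
-/

open MeasureTheory
open scoped ENNReal

namespace H50R

open Pool.Agent.RdvTour

lemma gg_ff (m : ℕ) : gg m false false = (m : ℝ) + 1 := by
  unfold gg ss
  simp

lemma gg_tf (m : ℕ) : gg m true false = ((m : ℝ) + 2) / 2 := by
  have h1 : ∀ n : ℕ, ∑ s ∈ Finset.range n, (s : ℝ) = (n : ℝ) * ((n : ℝ) - 1) / 2 := by
    intro n
    induction n with
    | zero => simp
    | succ n ih =>
      rw [Finset.sum_range_succ, ih]
      push_cast
      ring
  unfold gg ss
  simp only [Bool.false_eq_true, if_false, if_true]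
  rw [Finset.sum_sub_distrib, ← Finset.sum_div, h1]
  simp only [Finset.sum_const, Finset.card_range, nsmul_eq_mul, mul_one]
  push_cast
  field_simp
  ring

theorem lower_final : ∃ m0 : ℕ, ∀ m : ℕ, m0 ≤ m → ∀ (D : Measure (ℕ → Bool)) [IsProbabilityMeasure D],
    ENNReal.ofReal (0.82888 * ((m : ℝ) + 2)) ≤ expTime (m + 2) (tourLaw m D) := by
  obtain ⟨m1, hm1⟩ := tour_lower (1 / 10000000) (by norm_num)
  refine ⟨max m1 1000000, fun m hm D _ => ?_⟩
  obtain ⟨hC, hG⟩ := hm1 m (le_trans (le_max_left _ _) hm)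
  have hmm : (1000000 : ℝ) ≤ (m : ℝ) := by exact_mod_cast le_trans (le_max_right _ _) hm
  have hz1 := Real.exp_neg_one_gt_d9
  have hz2 := Real.exp_neg_one_lt_d9
  set z := Real.exp (-1) with hz
  have hN : (0 : ℝ) < (m : ℝ) + 1 := by positivity
  have hC' : z - 1 / 10000000 ≤ cc m true true := by
    unfold cc ss
    simpa using hC
  have hG' : (1 - z - 1 / 10000000) * ((m : ℝ) + 1) ≤ gg m true true := by
    unfold gg ss
    simpa using hG
  have hw : ∀ x y : ℝ, 0 ≤ x → 0 ≤ y → (0.828884 * ((m : ℝ) + 1)) * (x + y) ^ 2 ≤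
      x ^ 2 * (gg m false false + (0.828884 * ((m : ℝ) + 1))) + 2 * x * y * gg m true false +
        y ^ 2 * (gg m true true + (0.828884 * ((m : ℝ) + 1)) * cc m true true) := by
    intro x y hx hy
    rw [gg_ff, gg_tf]
    have h1 : y ^ 2 * (((m : ℝ) + 1) * 0.937049) ≤
        y ^ 2 * (gg m true true + (0.828884 * ((m : ℝ) + 1)) * cc m true true) := by
      refine mul_le_mul_of_nonneg_left ?_ (sq_nonneg y)
      have h2 : (0.828884 * ((m : ℝ) + 1)) * (z - 1 / 10000000) ≤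
          (0.828884 * ((m : ℝ) + 1)) * cc m true true :=
        mul_le_mul_of_nonneg_left hC' (by positivity)
      have h3 : ((m : ℝ) + 1) * 0.937049 ≤ ((m : ℝ) + 1) *
          ((1 - z - 1 / 10000000) + 0.828884 * (z - 1 / 10000000)) := by
        refine mul_le_mul_of_nonneg_left ?_ hN.le
        nlinarith
      nlinarith
    have h4 : 0 ≤ ((m : ℝ) + 1) * ((x - 0.328884 * y) ^ 2) := mul_nonneg hN.le (sq_nonneg _)
    have h5 : 0 ≤ x * y := mul_nonneg hx hy
    have h6 : 0 ≤ ((m : ℝ) + 1) * y ^ 2 := mul_nonneg hN.le (sq_nonneg _)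
    nlinarith
  have h := dp_limit m D (0.828884 * ((m : ℝ) + 1)) (by positivity) hw
  refine le_trans (ENNReal.ofReal_le_ofReal ?_) h
  rw [div_mul_eq_mul_div, le_div_iff₀ (by positivity)]
  nlinarith

end H50R
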