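import Pool.Agent.Lib.H50R.U3

/-!
# H50R, chunk U4 (M): statistics of the relative labelling

n = m + 2, P_c = {a ≠ 0 : part a = c}: P_0 has h = hh m elements (labels 1, ..., h), P_1 has m + 1 - h ≤ h.
part_av: for a, b ≠ 0 the number of ρ with ρ a = 0 and ρ 0 = b is (n-2)!, i.e. the average of
ind (ρ⁻¹ 0 = a ∧ ρ 0 = b) is 1/(n(n-1)) (all these averages for a, b ≠ 0 are equal: conjugate by
permutations fixing 0 on each side; their sum over a, b ≠ 0 is the average of ind (ρ 0 ≠ 0) = (n-1)/n,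
which is 1 - 1/n because ρ 0 is uniform). Sum over a ∈ P_A, b ∈ P_B: |P_A||P_B|/(n(n-1)) ≤
h^2/((m+2)(m+1)) ≤ (m+2)/(4(m+1)).
cnt_small: X = cnt m ρ c c' = sum over a ∈ P_c, b ∈ P_c' of ind (ρ a = b). With α = |P_c|, β = |P_c'|:
av X = αβ/n, av X^2 = av X + α(α-1)β(β-1)/(n(n-1)) (average of ind (ρ a = b ∧ ρ a' = b') is 1/(n(n-1))
for a ≠ a', b ≠ b' and 0 if exactly one equality holds), and α(α-1)β(β-1)/(n(n-1)) ≤ (αβ/n)^2 because
(α-1)/(n-1) ≤ α/n and β - 1 ≤ β. So the variance is ≤ αβ/n ≤ n. Since α, β ≥ h - 1 and n ≤ 2h + 1, the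
mean is ≥ (h-1)^2/(2h+1) ≥ (1/2 - δ/2) h for large m; Chebyshev: the average of
ind (X < (1/2 - δ) h) is ≤ n/(δ h/2)^2 → 0 (ind (X < ..) ≤ (X - av X)^2/(δ h/2)^2).
-/

namespace H50R

open Finset

lemma U4_two {n : ℕ} (a a' b b' : Fin n) (ha : a ≠ a') (hb : b ≠ b') :
    av (fun ρ : Equiv.Perm (Fin n) => ind (ρ a = b ∧ ρ a' = b')) = 1 / ((n : ℝ) * ((n : ℝ) - 1)) := by
  have h1 : ∀ b'' : Fin n, b'' ≠ b → av (fun ρ : Equiv.Perm (Fin n) => ind (ρ a = b ∧ ρ a' = b'')) =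
      av (fun ρ : Equiv.Perm (Fin n) => ind (ρ a = b ∧ ρ a' = b')) := by
    intro b'' hb''
    rw [← av_equiv (Equiv.mulLeft (Equiv.swap b' b''))]
    refine av_congr fun ρ => ind_congr ?_
    simp only [Equiv.coe_mulLeft, Equiv.Perm.mul_apply]
    have e1 : Equiv.swap b' b'' (ρ a) = b ↔ ρ a = b := by
      rw [Equiv.swap_apply_eq_iff, Equiv.swap_apply_of_ne_of_ne hb hb''.symm]
    have e2 : Equiv.swap b' b'' (ρ a') = b'' ↔ ρ a' = b' := by
      rw [Equiv.swap_apply_eq_iff, Equiv.swap_apply_right]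
    rw [e1, e2]
  have h2 : ∑ b'' ∈ univ.erase b, av (fun ρ : Equiv.Perm (Fin n) => ind (ρ a = b ∧ ρ a' = b'')) =
      1 / (n : ℝ) := by
    rw [← av_sum, ← Q5_one b a]
    refine av_congr fun ρ => ?_
    by_cases hρ : ρ a = b
    · rw [ind_of_true hρ, Finset.sum_eq_single (ρ a')]
      · exact ind_of_true ⟨hρ, rfl⟩
      · intro c _ hc
        exact ind_of_false fun h => hc h.2.symm
      · intro h
        exfalso
        apply h
        rw [Finset.mem_erase]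
        refine ⟨fun h' => ha (ρ.injective (hρ.trans h'.symm)), Finset.mem_univ _⟩
    · rw [ind_of_false hρ]
      exact Finset.sum_eq_zero fun c _ => ind_of_false fun h => hρ h.1
  rw [Finset.sum_congr rfl (fun b'' hb'' => h1 b'' (Finset.ne_of_mem_erase hb'')), Finset.sum_const,
    Finset.card_erase_of_mem (Finset.mem_univ _), Finset.card_univ, Fintype.card_fin, nsmul_eq_mul] at h2
  have hn : 2 ≤ n := by
    have h3 : (a : ℕ) ≠ (a' : ℕ) := fun h => ha (Fin.ext h)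
    have h4 := a.isLt
    have h5 := a'.isLt
    omega
  have hn' : (2 : ℝ) ≤ (n : ℝ) := by exact_mod_cast hn
  rw [Nat.cast_sub (by omega), Nat.cast_one] at h2
  have h6 : (n : ℝ) - 1 ≠ 0 := by linarith
  have h7 : (n : ℝ) ≠ 0 := by linarith
  field_simp at h2 ⊢
  linarith

lemma U4_le {n : ℕ} (hn : 2 ≤ n) (x y : Fin n × Fin n) :
    av (fun ρ : Equiv.Perm (Fin n) => ind (ρ x.1 = x.2 ∧ ρ y.1 = y.2)) ≤
      (if x = y then 1 / (n : ℝ) else 0) + 1 / ((n : ℝ) * ((n : ℝ) - 1)) := by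
  have hn' : (2 : ℝ) ≤ (n : ℝ) := by exact_mod_cast hn
  have hpos : 0 ≤ 1 / ((n : ℝ) * ((n : ℝ) - 1)) := by
    apply div_nonneg zero_le_one
    nlinarith
  have hne : Nonempty (Equiv.Perm (Fin n)) := ⟨1⟩
  by_cases hxy : x = y
  · subst hxy
    rw [if_pos rfl]
    simp only [and_self]
    rw [Q5_one]
    linarith
  · rw [if_neg hxy, zero_add]
    by_cases h1 : x.1 = y.1
    · have h2 : x.2 ≠ y.2 := fun h => hxy (Prod.ext h1 h)
      rw [av_congr (g := fun _ => 0), av_const]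
      · exact hpos
      · intro ρ
        exact ind_of_false fun h => h2 (by rw [← h.1, ← h.2, h1])
    · by_cases h2 : x.2 = y.2
      · rw [av_congr (g := fun _ => 0), av_const]
        · exact hpos
        · intro ρ
          exact ind_of_false fun h => h1 (ρ.injective (by rw [h.1, h.2, h2]))
      · rw [U4_two _ _ _ _ h1 h2]

/-- Labels of part c. -/
def PL (m : ℕ) (c : Fin 2) : Finset (Fin (m + 2)) := univ.filter (fun a => a ≠ 0 ∧ part m a = c)

lemma PL_card_le (m : ℕ) (c : Fin 2) : (PL m c).card ≤ hh m := by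
  have h1 : (PL m c) ⊆ (univ : Finset (Fin (hh m))).image
      (fun k : Fin (hh m) => slot m ((c : ℕ) * hh m + (k : ℕ))) := by
    intro a ha
    simp only [PL, Finset.mem_filter, Finset.mem_univ, true_and] at ha
    obtain ⟨k, hk⟩ := slot_part m a ha.1
    rw [ha.2] at hk
    exact Finset.mem_image.2 ⟨k, Finset.mem_univ _, hk⟩
  calc (PL m c).card ≤ _ := Finset.card_le_card h1
    _ ≤ (univ : Finset (Fin (hh m))).card := Finset.card_image_le
    _ = hh m := by rw [Finset.card_univ, Fintype.card_fin]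

lemma PL_card_ge (m : ℕ) (c : Fin 2) : hh m ≤ (PL m c).card + 1 := by
  have h1 : (univ.erase 0 : Finset (Fin (m + 2))) ⊆ PL m 0 ∪ PL m 1 := by
    intro a ha
    have ha0 : a ≠ 0 := Finset.ne_of_mem_erase ha
    rw [Finset.mem_union]
    simp only [PL, Finset.mem_filter, Finset.mem_univ, true_and]
    by_cases h : (a : ℕ) ≤ hh m
    · left; exact ⟨ha0, by unfold part; rw [if_pos h]⟩
    · right; exact ⟨ha0, by unfold part; rw [if_neg h]⟩
  have h2 := (Finset.card_le_card h1).trans (Finset.card_union_le _ _)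
  rw [Finset.card_erase_of_mem (Finset.mem_univ _), Finset.card_univ, Fintype.card_fin] at h2
  have h3 := PL_card_le m 0
  have h4 := PL_card_le m 1
  have h5 := two_hh_le m
  fin_cases c
  · show hh m ≤ (PL m 0).card + 1
    omega
  · show hh m ≤ (PL m 1).card + 1
    omega

theorem part_av (m : ℕ) (A B : Fin 2) :
    av (fun ρ : Equiv.Perm (Fin (m + 2)) =>
      ind (ρ 0 ≠ 0 ∧ part m (ρ⁻¹ 0) = A ∧ part m (ρ 0) = B)) ≤ ((m : ℝ) + 2) / (4 * ((m : ℝ) + 1)) := by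
  have h1 : av (fun ρ : Equiv.Perm (Fin (m + 2)) =>
      ind (ρ 0 ≠ 0 ∧ part m (ρ⁻¹ 0) = A ∧ part m (ρ 0) = B)) ≤
      av (fun ρ : Equiv.Perm (Fin (m + 2)) => ∑ a ∈ PL m A, ∑ b ∈ PL m B, ind (ρ a = 0 ∧ ρ 0 = b)) := by
    refine av_mono fun ρ => ?_
    by_cases h : ρ 0 ≠ 0 ∧ part m (ρ⁻¹ 0) = A ∧ part m (ρ 0) = B
    · rw [ind_of_true h]
      have ha : ρ⁻¹ 0 ∈ PL m A := by
        simp only [PL, Finset.mem_filter, Finset.mem_univ, true_and]
        refine ⟨fun h' => h.1 ?_, h.2.1⟩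
        rw [← Equiv.Perm.eq_inv_iff_eq, h']
      have hb : ρ 0 ∈ PL m B := by
        simp only [PL, Finset.mem_filter, Finset.mem_univ, true_and]
        exact ⟨h.1, h.2.2⟩
      calc (1 : ℝ) = ind (ρ (ρ⁻¹ 0) = 0 ∧ ρ 0 = ρ 0) := by
            rw [ind_of_true]; exact ⟨by simp, rfl⟩
        _ ≤ ∑ b ∈ PL m B, ind (ρ (ρ⁻¹ 0) = 0 ∧ ρ 0 = b) :=
            Finset.single_le_sum (f := fun b => ind (ρ (ρ⁻¹ 0) = 0 ∧ ρ 0 = b))
              (fun _ _ => ind_nonneg _) hb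
        _ ≤ ∑ a ∈ PL m A, ∑ b ∈ PL m B, ind (ρ a = 0 ∧ ρ 0 = b) :=
            Finset.single_le_sum (f := fun a => ∑ b ∈ PL m B, ind (ρ a = 0 ∧ ρ 0 = b))
              (fun _ _ => Finset.sum_nonneg fun _ _ => ind_nonneg _) ha
    · rw [ind_of_false h]
      exact Finset.sum_nonneg fun _ _ => Finset.sum_nonneg fun _ _ => ind_nonneg _
  refine h1.trans ?_
  have h2 : av (fun ρ : Equiv.Perm (Fin (m + 2)) => ∑ a ∈ PL m A, ∑ b ∈ PL m B,
      ind (ρ a = 0 ∧ ρ 0 = b)) = ∑ a ∈ PL m A, ∑ b ∈ PL m B,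
      1 / (((m + 2 : ℕ) : ℝ) * (((m + 2 : ℕ) : ℝ) - 1)) := by
    rw [av_sum]
    refine Finset.sum_congr rfl fun a ha => ?_
    rw [av_sum]
    refine Finset.sum_congr rfl fun b hb => ?_
    simp only [PL, Finset.mem_filter, Finset.mem_univ, true_and] at ha hb
    exact U4_two a 0 0 b ha.1 hb.1.symm
  rw [h2]
  simp only [Finset.sum_const, nsmul_eq_mul]
  have hA : ((PL m A).card : ℝ) ≤ ((m : ℝ) + 2) / 2 := by
    have h3 := PL_card_le m A
    have h4 := two_hh_le m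
    have h5 : 2 * (PL m A).card ≤ m + 2 := by omega
    have h6 : 2 * ((PL m A).card : ℝ) ≤ (m : ℝ) + 2 := by exact_mod_cast h5
    linarith
  have hB : ((PL m B).card : ℝ) ≤ ((m : ℝ) + 2) / 2 := by
    have h3 := PL_card_le m B
    have h4 := two_hh_le m
    have h5 : 2 * (PL m B).card ≤ m + 2 := by omega
    have h6 : 2 * ((PL m B).card : ℝ) ≤ (m : ℝ) + 2 := by exact_mod_cast h5
    linarith
  have hA0 : (0 : ℝ) ≤ ((PL m A).card : ℝ) := Nat.cast_nonneg _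
  have hB0 : (0 : ℝ) ≤ ((PL m B).card : ℝ) := Nat.cast_nonneg _
  push_cast
  have h7 : ((PL m A).card : ℝ) * ((PL m B).card : ℝ) ≤ ((m : ℝ) + 2) / 2 * (((m : ℝ) + 2) / 2) :=
    mul_le_mul hA hB hB0 (by positivity)
  have hm1 : (0 : ℝ) < (m : ℝ) + 1 := by positivity
  have hm2 : (0 : ℝ) < (m : ℝ) + 2 := by positivity
  rw [show (m : ℝ) + 2 - 1 = (m : ℝ) + 1 by ring, ← mul_assoc, mul_one_div,
    div_le_div_iff₀ (by positivity) (by positivity)]
  nlinarith [mul_le_mul_of_nonneg_right h7 hm1.le]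

/-- Pairs of labels counted by cnt. -/
def RL (m : ℕ) (c c' : Fin 2) : Finset (Fin (m + 2) × Fin (m + 2)) := PL m c ×ˢ PL m c'

lemma cnt_eq (m : ℕ) (ρ : Equiv.Perm (Fin (m + 2))) (c c' : Fin 2) :
    (cnt m ρ c c' : ℝ) = ∑ x ∈ RL m c c', ind (ρ x.1 = x.2) := by
  unfold cnt RL
  rw [Finset.sum_product, Finset.card_eq_sum_ones, Nat.cast_sum]
  rw [Finset.sum_filter, PL, Finset.sum_filter]
  refine Finset.sum_congr rfl fun a _ => ?_
  by_cases h1 : a ≠ 0 ∧ part m a = c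
  · rw [if_pos h1]
    by_cases h2 : ρ a ≠ 0 ∧ part m (ρ a) = c'
    · rw [if_pos ⟨h1, h2⟩, Finset.sum_eq_single (ρ a)]
      · rw [ind_of_true rfl]; norm_num
      · intro b _ hb
        exact ind_of_false fun h => hb h.symm
      · intro h
        exfalso
        apply h
        simp only [PL, Finset.mem_filter, Finset.mem_univ, true_and]
        exact h2
    · rw [if_neg (fun h => h2 h.2), Finset.sum_eq_zero]
      intro b hb
      refine ind_of_false fun h => h2 ?_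
      simp only [PL, Finset.mem_filter, Finset.mem_univ, true_and] at hb
      rw [h]
      exact hb
  · rw [if_neg h1, if_neg (fun h => h1 h.1)]

lemma av_cnt (m : ℕ) (c c' : Fin 2) :
    av (fun ρ : Equiv.Perm (Fin (m + 2)) => (cnt m ρ c c' : ℝ)) =
      ((RL m c c').card : ℝ) / ((m : ℝ) + 2) := by
  simp only [cnt_eq]
  rw [av_sum]
  have h1 : ∀ x ∈ RL m c c', av (fun ρ : Equiv.Perm (Fin (m + 2)) => ind (ρ x.1 = x.2)) =
      1 / (((m + 2 : ℕ) : ℝ)) := fun x _ => Q5_one x.2 x.1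
  rw [Finset.sum_congr rfl h1, Finset.sum_const, nsmul_eq_mul]
  push_cast
  ring

lemma av_cnt_sq (m : ℕ) (c c' : Fin 2) :
    av (fun ρ : Equiv.Perm (Fin (m + 2)) => (cnt m ρ c c' : ℝ) ^ 2) ≤
      ((RL m c c').card : ℝ) / ((m : ℝ) + 2) +
        ((RL m c c').card : ℝ) ^ 2 / (((m : ℝ) + 2) * ((m : ℝ) + 1)) := by
  have h1 : ∀ ρ : Equiv.Perm (Fin (m + 2)), (cnt m ρ c c' : ℝ) ^ 2 =
      ∑ x ∈ RL m c c', ∑ y ∈ RL m c c', ind (ρ x.1 = x.2 ∧ ρ y.1 = y.2) := by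
    intro ρ
    rw [cnt_eq, sq, Finset.sum_mul_sum]
    exact Finset.sum_congr rfl fun x _ => Finset.sum_congr rfl fun y _ => (ind_and _ _).symm
  rw [av_congr h1, av_sum]
  have h2 : ∀ x ∈ RL m c c', av (fun ρ : Equiv.Perm (Fin (m + 2)) =>
      ∑ y ∈ RL m c c', ind (ρ x.1 = x.2 ∧ ρ y.1 = y.2)) ≤
      1 / ((m : ℝ) + 2) + ((RL m c c').card : ℝ) * (1 / (((m : ℝ) + 2) * ((m : ℝ) + 1))) := by
    intro x hx
    rw [av_sum]
    have h3 : ∀ y ∈ RL m c c', av (fun ρ : Equiv.Perm (Fin (m + 2)) =>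
        ind (ρ x.1 = x.2 ∧ ρ y.1 = y.2)) ≤
        (if x = y then 1 / ((m : ℝ) + 2) else 0) + 1 / (((m : ℝ) + 2) * ((m : ℝ) + 1)) := by
      intro y _
      have h4 := U4_le (n := m + 2) (by omega) x y
      push_cast at h4
      rw [show (m : ℝ) + 2 - 1 = (m : ℝ) + 1 by ring] at h4
      exact h4
    refine (Finset.sum_le_sum h3).trans (le_of_eq ?_)
    rw [Finset.sum_add_distrib, Finset.sum_ite_eq, if_pos hx, Finset.sum_const, nsmul_eq_mul]
  refine (Finset.sum_le_sum h2).trans (le_of_eq ?_)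
  rw [Finset.sum_const, nsmul_eq_mul]
  ring

theorem cnt_small (δ η : ℝ) (hδ : 0 < δ) (hη : 0 < η) : ∃ m0 : ℕ, ∀ m : ℕ, m0 ≤ m → ∀ c c' : Fin 2,
    av (fun ρ : Equiv.Perm (Fin (m + 2)) =>
      ind ((cnt m ρ c c' : ℝ) < (1 / 2 - δ) * (hh m : ℝ))) ≤ η := by
  obtain ⟨N1, hN1⟩ := exists_nat_gt (5 / (2 * δ))
  obtain ⟨N2, hN2⟩ := exists_nat_gt (12 / (δ ^ 2 * η))
  refine ⟨2 * (N1 + N2 + 1), fun m hm c c' => ?_⟩
  have hh1 : N1 + N2 + 1 ≤ hh m := by unfold hh; omega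
  have hH : (N1 : ℝ) + N2 + 1 ≤ (hh m : ℝ) := by exact_mod_cast hh1
  have hn1 : m + 2 ≤ 2 * hh m + 1 := by unfold hh; omega
  have hn1' : (m : ℝ) + 2 ≤ 2 * (hh m : ℝ) + 1 := by exact_mod_cast hn1
  have hn2' : 2 * (hh m : ℝ) ≤ (m : ℝ) + 2 := by exact_mod_cast two_hh_le m
  set h : ℝ := (hh m : ℝ) with hh_def
  set n : ℝ := (m : ℝ) + 2 with hn_def
  have hN1p : (0 : ℝ) ≤ N1 := Nat.cast_nonneg _
  have hN2p : (0 : ℝ) ≤ N2 := Nat.cast_nonneg _
  have hh5 : 5 / 2 ≤ δ * h := by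
    rw [div_lt_iff₀ (by positivity)] at hN1
    nlinarith
  have hh12 : 12 ≤ δ ^ 2 * η * h := by
    rw [div_lt_iff₀ (by positivity)] at hN2
    nlinarith [mul_pos (pow_pos hδ 2) hη]
  have hhp : 1 ≤ h := by linarith
  have hnp : 0 < n := by linarith
  set R : ℝ := ((RL m c c').card : ℝ) with hR
  have hRcard : R = ((PL m c).card : ℝ) * ((PL m c').card : ℝ) := by
    rw [hR, RL, Finset.card_product]; push_cast; rfl
  have hp1 : ((PL m c).card : ℝ) ≤ h := Nat.cast_le.2 (PL_card_le m c)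
  have hp2 : ((PL m c').card : ℝ) ≤ h := Nat.cast_le.2 (PL_card_le m c')
  have hp3 : h - 1 ≤ ((PL m c).card : ℝ) := by
    have : (hh m : ℝ) ≤ ((PL m c).card : ℝ) + 1 := by exact_mod_cast PL_card_ge m c
    linarith
  have hp4 : h - 1 ≤ ((PL m c').card : ℝ) := by
    have : (hh m : ℝ) ≤ ((PL m c').card : ℝ) + 1 := by exact_mod_cast PL_card_ge m c'
    linarith
  have hR1 : R ≤ h ^ 2 := by
    rw [hRcard, sq]
    exact mul_le_mul hp1 hp2 (Nat.cast_nonneg _) (by linarith)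
  have hR2 : (h - 1) ^ 2 ≤ R := by
    rw [hRcard, sq]
    exact mul_le_mul hp3 hp4 (by linarith) (Nat.cast_nonneg _)
  have hR0 : 0 ≤ R := Nat.cast_nonneg _
  set μ : ℝ := R / n with hμ
  -- mean
  have hmean : h / 2 - 5 / 4 ≤ μ := by
    rw [hμ, le_div_iff₀ hnp]
    by_cases h0 : 0 ≤ h / 2 - 5 / 4
    · have : (h / 2 - 5 / 4) * n ≤ (h / 2 - 5 / 4) * (2 * h + 1) :=
        mul_le_mul_of_nonneg_left hn1' h0
      nlinarith
    · push Not at h0
      nlinarith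
  have ht : δ * h / 2 ≤ μ - (1 / 2 - δ) * h := by linarith
  -- variance
  have hvar : av (fun ρ : Equiv.Perm (Fin (m + 2)) => ((cnt m ρ c c' : ℝ) - μ) ^ 2) ≤ n := by
    have e1 : av (fun ρ : Equiv.Perm (Fin (m + 2)) => ((cnt m ρ c c' : ℝ) - μ) ^ 2) =
        av (fun ρ : Equiv.Perm (Fin (m + 2)) => (cnt m ρ c c' : ℝ) ^ 2) - μ ^ 2 := by
      have e2 : ∀ ρ : Equiv.Perm (Fin (m + 2)), ((cnt m ρ c c' : ℝ) - μ) ^ 2 =
          ((cnt m ρ c c' : ℝ) ^ 2 + μ ^ 2) - (2 * μ) * (cnt m ρ c c' : ℝ) := fun ρ => by ring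
      rw [av_congr e2, av_sub, av_add, av_const, av_mul_left, av_cnt]
      rw [show ((RL m c c').card : ℝ) / ((m : ℝ) + 2) = μ from rfl]
      ring
    rw [e1]
    have e3 := av_cnt_sq m c c'
    have e4 : ((RL m c c').card : ℝ) / ((m : ℝ) + 2) +
        ((RL m c c').card : ℝ) ^ 2 / (((m : ℝ) + 2) * ((m : ℝ) + 1)) =
        R / n + R ^ 2 / (n * (n - 1)) := by
      rw [show n - 1 = (m : ℝ) + 1 by rw [hn_def]; ring]
    rw [e4] at e3
    have hn2 : 2 ≤ n := by rw [hn_def]; have : (0 : ℝ) ≤ m := Nat.cast_nonneg _; linarith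
    have e5 : R ^ 2 / (n * (n - 1)) = μ ^ 2 + R ^ 2 / (n ^ 2 * (n - 1)) := by
      rw [hμ]
      have : n - 1 ≠ 0 := by linarith
      field_simp
      ring
    have hRn : R ≤ n ^ 2 / 4 := by nlinarith
    have e6 : R / n ≤ n / 4 := by
      rw [div_le_div_iff₀ hnp (by norm_num)]
      nlinarith
    have e7 : R ^ 2 / (n ^ 2 * (n - 1)) ≤ n / 4 := by
      have h8 : 0 < n ^ 2 * (n - 1) := by
        have : 0 < n - 1 := by linarith
        positivity
      rw [div_le_div_iff₀ h8 (by norm_num)]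
      have h9 : R ^ 2 ≤ (n ^ 2 / 4) ^ 2 := by
        exact pow_le_pow_left₀ hR0 hRn 2
      have h10 : (n ^ 2 / 4) ^ 2 * 4 = n ^ 3 * (n / 4) := by ring
      have h11 : n ^ 3 * (n / 4) ≤ n ^ 3 * (n - 1) := by
        refine mul_le_mul_of_nonneg_left ?_ (by positivity)
        linarith
      have h12 : n * (n ^ 2 * (n - 1)) = n ^ 3 * (n - 1) := by ring
      rw [h12]
      linarith
    rw [e5] at e3
    linarith
  -- Chebyshev
  have hcheb : (δ * h / 2) ^ 2 * av (fun ρ : Equiv.Perm (Fin (m + 2)) =>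
      ind ((cnt m ρ c c' : ℝ) < (1 / 2 - δ) * h)) ≤ n := by
    rw [← av_mul_left]
    refine le_trans (av_mono fun ρ => ?_) hvar
    by_cases hρ : (cnt m ρ c c' : ℝ) < (1 / 2 - δ) * h
    · rw [ind_of_true hρ, mul_one]
      have h1 : δ * h / 2 ≤ μ - (cnt m ρ c c' : ℝ) := by linarith
      have h2 : 0 ≤ δ * h / 2 := by positivity
      nlinarith
    · rw [ind_of_false hρ, mul_zero]
      positivity
  set P := av (fun ρ : Equiv.Perm (Fin (m + 2)) => ind ((cnt m ρ c c' : ℝ) < (1 / 2 - δ) * h)) with hP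
  have hPn : 0 ≤ P := av_nonneg fun _ => ind_nonneg _
  by_contra hcon
  push Not at hcon
  have h1 : (δ * h / 2) ^ 2 * η < n := by
    refine lt_of_lt_of_le ?_ hcheb
    exact mul_lt_mul_of_pos_left hcon (by positivity)
  have h2 : 3 * h ≤ (δ * h / 2) ^ 2 * η := by
    have : (δ * h / 2) ^ 2 * η = (δ ^ 2 * η * h) * h / 4 := by ring
    rw [this]
    nlinarith
  linarith

end H50R
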