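import Pool.Agent.Lib.H50R.Q2

/-!
# H50R, chunk Q7 (M): asymptotic upper bounds for a pair of half tours

Proof. q_limit and a geometric sum, continuity in θ = 1/2 - δ at δ = 0.
-/

namespace H50R

open Finset

theorem half_upper (η : ℝ) (hη : 0 < η) : ∃ δ : ℝ, 0 < δ ∧ ∃ h0 : ℕ, ∀ h : ℕ, h0 ≤ h → ∀ M : ℕ, M ≤ h →
    (1 / 2 - δ) * (h : ℝ) ≤ (M : ℝ) →
    q h M h ≤ Real.exp (-(1 / 2)) + η ∧
    ∑ s ∈ range h, q h M s ≤ (h : ℝ) * (2 * (1 - Real.exp (-(1 / 2))) + η) := by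
  -- choice of δ
  have hc1 : Filter.Tendsto (fun d : ℝ => Real.exp (-(1 / 2 - d))) (nhds 0) (nhds (Real.exp (-(1 / 2)))) := by
    have : ContinuousAt (fun d : ℝ => Real.exp (-(1 / 2 - d))) 0 := by fun_prop
    have h := this.tendsto
    simpa using h
  have hc2 : Filter.Tendsto (fun d : ℝ => (1 - Real.exp (-(1 / 2 - d))) / (1 / 2 - d)) (nhds 0)
      (nhds (2 * (1 - Real.exp (-(1 / 2))))) := by
    have : ContinuousAt (fun d : ℝ => (1 - Real.exp (-(1 / 2 - d))) / (1 / 2 - d)) 0 := by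
      apply ContinuousAt.div
      · fun_prop
      · fun_prop
      · norm_num
    have h := this.tendsto
    have e : (1 - Real.exp (-(1 / 2 - (0 : ℝ)))) / (1 / 2 - 0) = 2 * (1 - Real.exp (-(1 / 2))) := by
      rw [sub_zero]; ring
    rwa [e] at h
  have hη4 : 0 < η / 4 := by linarith
  have e1 := hc1.eventually (gt_mem_nhds (show Real.exp (-(1 / 2)) < Real.exp (-(1 / 2)) + η / 4 by linarith))
  have e2 := hc2.eventually (gt_mem_nhds (show 2 * (1 - Real.exp (-(1 / 2))) <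
    2 * (1 - Real.exp (-(1 / 2))) + η / 4 by linarith))
  have e3 : ∀ᶠ d : ℝ in nhds 0, d < 1 / 4 := gt_mem_nhds (by norm_num)
  obtain ⟨ε, hε, hball⟩ := Metric.eventually_nhds_iff.1 (e1.and (e2.and e3))
  set δ : ℝ := ε / 2 with hδ
  have hδ0 : 0 < δ := by rw [hδ]; linarith
  obtain ⟨d1, d2, d3⟩ := hball (y := δ) (by
    rw [Real.dist_eq, sub_zero, abs_of_pos hδ0, hδ]; linarith)
  refine ⟨δ, hδ0, ?_⟩
  obtain ⟨h1, hq⟩ := q_limit (η / 4) hη4
  obtain ⟨h2, hh2⟩ := exists_nat_gt (4 / η)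
  refine ⟨max h1 (max h2 1), fun h hh M hM hMδ => ?_⟩
  have hh1 : h1 ≤ h := le_trans (le_max_left _ _) hh
  have hh2' : h2 ≤ h := le_trans (le_trans (le_max_left _ _) (le_max_right _ _)) hh
  have hh3 : 1 ≤ h := le_trans (le_trans (le_max_right _ _) (le_max_right _ _)) hh
  have hpos : (0 : ℝ) < h := by exact_mod_cast hh3
  set θ : ℝ := 1 / 2 - δ with hθ
  have hθ0 : 0 < θ := by rw [hθ]; linarith
  have hθ1 : θ ≤ 1 := by rw [hθ]; linarith
  have key : ∀ s : ℕ, s ≤ h → q h M s ≤ Real.exp (-((s : ℝ) * θ / h)) + η / 4 := by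
    intro s hs
    have h3 := (abs_le.1 (hq h hh1 M hM s hs)).2
    have h4 : Real.exp (-((s : ℝ) * (M : ℝ) / (h : ℝ) ^ 2)) ≤ Real.exp (-((s : ℝ) * θ / h)) := by
      apply Real.exp_le_exp.2
      apply neg_le_neg
      rw [div_le_div_iff₀ hpos (by positivity)]
      have : (0 : ℝ) ≤ s := Nat.cast_nonneg _
      have h5 : (s : ℝ) * h * (θ * h) ≤ (s : ℝ) * h * M := by gcongr
      nlinarith
    linarith
  constructor
  · have h3 := key h le_rfl
    have : (h : ℝ) * θ / h = θ := by field_simp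
    rw [this, hθ] at h3
    linarith
  · have h3 : ∑ s ∈ range h, q h M s ≤ ∑ s ∈ range h, (Real.exp (-((s : ℝ) * θ / h)) + η / 4) :=
      Finset.sum_le_sum fun s hs => key s (Finset.mem_range.1 hs).le
    refine h3.trans ?_
    rw [Finset.sum_add_distrib, Finset.sum_const, Finset.card_range, nsmul_eq_mul]
    set x : ℝ := θ / h with hx
    have hx0 : 0 < x := by positivity
    set r : ℝ := Real.exp (-x) with hr
    have hterm : ∀ s ∈ range h, Real.exp (-((s : ℝ) * θ / h)) = r ^ s := by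
      intro s _
      rw [hr, ← Real.exp_nat_mul]
      congr 1
      rw [hx]; ring
    rw [Finset.sum_congr rfl hterm]
    have hgeom : (∑ s ∈ range h, r ^ s) * (1 - r) = 1 - Real.exp (-θ) := by
      rw [geom_sum_mul_neg]
      congr 1
      rw [hr, ← Real.exp_nat_mul]
      congr 1
      rw [hx]
      field_simp
    -- 1 - r ≥ x / (1 + x)
    have hr2 : x ≤ (1 + x) * (1 - r) := by
      have h4 : (1 + x) * r ≤ 1 := by
        have h5 : 1 + x ≤ Real.exp x := by linarith [Real.add_one_le_exp x]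
        calc (1 + x) * r ≤ Real.exp x * Real.exp (-x) := by
              rw [hr]; gcongr
          _ = 1 := by rw [← Real.exp_add]; simp
      nlinarith
    have hS : 0 ≤ ∑ s ∈ range h, r ^ s := Finset.sum_nonneg fun s _ => by positivity
    have h6 : (∑ s ∈ range h, r ^ s) * x ≤ (1 + x) * (1 - Real.exp (-θ)) := by
      calc (∑ s ∈ range h, r ^ s) * x ≤ (∑ s ∈ range h, r ^ s) * ((1 + x) * (1 - r)) := by gcongr
        _ = (1 + x) * ((∑ s ∈ range h, r ^ s) * (1 - r)) := by ring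
        _ = _ := by rw [hgeom]
    have hE1 : 0 ≤ 1 - Real.exp (-θ) := by
      have : Real.exp (-θ) ≤ 1 := Real.exp_le_one_iff.2 (by linarith)
      linarith
    have hEθ : 1 - Real.exp (-θ) ≤ θ := by linarith [Real.add_one_le_exp (-θ)]
    -- S ≤ h * ((1 - exp(-θ))/θ) + 1
    have h7 : (∑ s ∈ range h, r ^ s) ≤ h * ((1 - Real.exp (-θ)) / θ) + 1 := by
      have h8 : (∑ s ∈ range h, r ^ s) ≤ (1 + x) * (1 - Real.exp (-θ)) / x := by
        rw [le_div_iff₀ hx0]; exact h6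
      refine h8.trans ?_
      have e : (1 + x) * (1 - Real.exp (-θ)) / x = h * ((1 - Real.exp (-θ)) / θ) + (1 - Real.exp (-θ)) := by
        rw [hx]; field_simp
      rw [e]
      linarith
    have h9 : (1 - Real.exp (-θ)) / θ ≤ 2 * (1 - Real.exp (-(1 / 2))) + η / 4 := d2.le
    have h10 : 1 ≤ (h : ℝ) * (η / 4) := by
      have h11 : 4 / η < h := lt_of_lt_of_le hh2 (by exact_mod_cast hh2')
      rw [div_lt_iff₀ hη] at h11
      linarith
    have h12 : (h : ℝ) * ((1 - Real.exp (-θ)) / θ) ≤ h * (2 * (1 - Real.exp (-(1 / 2))) + η / 4) := by gcongr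
    have h13 : 0 ≤ (h : ℝ) * (η / 4) := by positivity
    nlinarith

end H50R
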