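import Pool.Agent.Lib.H50R.Q3
import Pool.Agent.Lib.H50R.Q5

/-!
# H50R, chunk U3 (M): half blocks

h = hh m, m + 1 ≤ 2 h ≤ m + 2. The slot k < m + 1 has label k + 1, in part 0 iff k < h (part m a = 0 iff
a ≤ h); the only other slot k < 2 h is k = m + 1, with label 0 (if m is even there is one).
Q_some_none: the first player tours part c = part (ρ⁻¹ 0), the second stays at label 0. Let a = ρ⁻¹ 0 ≠ 0
(since ρ 0 ≠ 0); a is the label of slot c h + k for one k < h. If π s = k then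
ρ (slot ..) = ρ a = 0 = dl none: a meeting. So the indicator is ≤ ind (for all s < j: π s ≠ k), whose
average is 1 - j/h (perm_miss, av_prod, av_const).
Q_none_some: the same with the roles exchanged: ρ 0 is the label of slot c h + k of the second player.
Q_some_some: let S = {k < h : c h + k < m + 1 and ρ (label of slot c h + k) ≠ 0 is in part c'}; then
S.card = cnt m ρ c c' (k -> label is a bijection of S and the set in cnt). For k in S the label
ρ (slot (c h + k)) is the label of the slot c' h + k' for a unique k' < h; k -> k' is injective on S and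
extends to a permutation Φ of Fin h. If π s ∈ S and Φ (π s) = π' s then there is a meeting on day s, so
the indicator is ≤ the indicator in q_general; average.
Checked by computer for m ≤ 3, all ρ.
-/

namespace H50R

open Finset

lemma slot_part (m : ℕ) (a : Fin (m + 2)) (ha : a ≠ 0) :
    ∃ k : Fin (hh m), slot m ((part m a : ℕ) * hh m + (k : ℕ)) = a := by
  have h1 := le_two_hh m
  have h2 := hh_pos m
  have ha' : (a : ℕ) ≠ 0 := fun h => ha (Fin.ext h)
  have ha2 := a.isLt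
  by_cases hp : (a : ℕ) ≤ hh m
  · refine ⟨⟨(a : ℕ) - 1, by omega⟩, ?_⟩
    have hpart : part m a = 0 := by unfold part; rw [if_pos hp]
    rw [hpart]
    unfold slot
    have h3 : ((0 : Fin 2) : ℕ) * hh m + ((⟨(a : ℕ) - 1, by omega⟩ : Fin (hh m)) : ℕ) = (a : ℕ) - 1 := by
      simp
    rw [dif_pos (by rw [h3]; omega)]
    apply Fin.ext
    simp only [h3]
    omega
  · refine ⟨⟨(a : ℕ) - 1 - hh m, by omega⟩, ?_⟩
    have hpart : part m a = 1 := by unfold part; rw [if_neg hp]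
    rw [hpart]
    unfold slot
    have h3 : ((1 : Fin 2) : ℕ) * hh m + ((⟨(a : ℕ) - 1 - hh m, by omega⟩ : Fin (hh m)) : ℕ) =
        (a : ℕ) - 1 := by
      simp only [Fin.val_one, one_mul]
      omega
    rw [dif_pos (by rw [h3]; omega)]
    apply Fin.ext
    simp only [h3]
    omega

lemma slot_inj (m : ℕ) {i i' : ℕ} (h : slot m i = slot m i') (h0 : slot m i ≠ 0) : i = i' := by
  have h0' : slot m i' ≠ 0 := h ▸ h0
  unfold slot at h h0 h0'
  by_cases h1 : i < m + 1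
  · by_cases h2 : i' < m + 1
    · rw [dif_pos h1, dif_pos h2] at h
      have := congrArg Fin.val h
      simp only at this
      omega
    · rw [dif_neg h2] at h0'
      exact absurd rfl h0'
  · rw [dif_neg h1] at h0
    exact absurd rfl h0

theorem Q_some_none (m : ℕ) (ρ : Equiv.Perm (Fin (m + 2))) (h0 : ρ 0 ≠ 0) (j : ℕ) (hj : j ≤ hh m) :
    Q m ρ (some (part m (ρ⁻¹ 0))) none j ≤ 1 - (j : ℝ) / (hh m : ℝ) := by
  have ha : ρ⁻¹ 0 ≠ 0 := by
    intro h
    apply h0
    rw [← Equiv.Perm.eq_inv_iff_eq, h]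
  obtain ⟨k, hk⟩ := slot_part m (ρ⁻¹ 0) ha
  have h1 := perm_miss k j hj
  rw [← h1]
  unfold Q
  have h2 : av (fun p : Equiv.Perm (Fin (hh m)) × Equiv.Perm (Fin (hh m)) =>
      ind (∀ s : Fin (hh m), (s : ℕ) < j → p.1 s ≠ k)) =
      av (fun π : Equiv.Perm (Fin (hh m)) => ind (∀ s : Fin (hh m), (s : ℕ) < j → π s ≠ k)) := by
    rw [av_prod]
    simp only [av_const]
  rw [← h2]
  refine av_mono fun p => ind_mono fun hp s hs hsk => hp s hs ?_
  show ρ (slot m ((part m (ρ⁻¹ 0) : ℕ) * hh m + (p.1 s : ℕ))) = 0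
  rw [hsk, hk]
  simp

theorem Q_none_some (m : ℕ) (ρ : Equiv.Perm (Fin (m + 2))) (h0 : ρ 0 ≠ 0) (j : ℕ) (hj : j ≤ hh m) :
    Q m ρ none (some (part m (ρ 0))) j ≤ 1 - (j : ℝ) / (hh m : ℝ) := by
  obtain ⟨k, hk⟩ := slot_part m (ρ 0) h0
  have h1 := perm_miss k j hj
  rw [← h1]
  unfold Q
  have h2 : av (fun p : Equiv.Perm (Fin (hh m)) × Equiv.Perm (Fin (hh m)) =>
      ind (∀ s : Fin (hh m), (s : ℕ) < j → p.2 s ≠ k)) =
      av (fun π : Equiv.Perm (Fin (hh m)) => ind (∀ s : Fin (hh m), (s : ℕ) < j → π s ≠ k)) := by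
    rw [av_prod]
    exact av_const (α := Equiv.Perm (Fin (hh m)))
      (av (fun π : Equiv.Perm (Fin (hh m)) => ind (∀ s : Fin (hh m), (s : ℕ) < j → π s ≠ k)))
  rw [← h2]
  refine av_mono fun p => ind_mono fun hp s hs hsk => hp s hs ?_
  show ρ 0 = slot m ((part m (ρ 0) : ℕ) * hh m + (p.2 s : ℕ))
  rw [hsk, hk]

/-- The slots of part c whose label is mapped to a label of part c'. -/
noncomputable def SS3 (m : ℕ) (ρ : Equiv.Perm (Fin (m + 2))) (c c' : Fin 2) : Finset (Fin (hh m)) :=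
  open Classical in univ.filter (fun k => slot m ((c : ℕ) * hh m + (k : ℕ)) ≠ 0 ∧
    ρ (slot m ((c : ℕ) * hh m + (k : ℕ))) ≠ 0 ∧ part m (ρ (slot m ((c : ℕ) * hh m + (k : ℕ)))) = c')

lemma cnt_le_SS3 (m : ℕ) (ρ : Equiv.Perm (Fin (m + 2))) (c c' : Fin 2) :
    cnt m ρ c c' ≤ (SS3 m ρ c c').card := by
  unfold cnt
  refine Finset.card_le_card_of_surjOn (fun k : Fin (hh m) => slot m ((c : ℕ) * hh m + (k : ℕ))) ?_
  intro a ha
  simp only [Finset.coe_filter, Finset.mem_univ, true_and, Set.mem_ofPred_eq] at ha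
  obtain ⟨⟨ha0, hac⟩, hr0, hrc⟩ := ha
  obtain ⟨k, hk⟩ := slot_part m a ha0
  rw [hac] at hk
  refine ⟨k, ?_, hk⟩
  simp only [SS3, Finset.coe_filter, Finset.mem_univ, true_and, Set.mem_ofPred_eq]
  rw [hk]
  exact ⟨ha0, hr0, hrc⟩

lemma SS3_phi (m : ℕ) (ρ : Equiv.Perm (Fin (m + 2))) (c c' : Fin 2) :
    ∃ Φ : Equiv.Perm (Fin (hh m)), ∀ k ∈ SS3 m ρ c c',
      ρ (slot m ((c : ℕ) * hh m + (k : ℕ))) = slot m ((c' : ℕ) * hh m + (Φ k : ℕ)) := by
  classical
  have h1 : ∀ k : Fin (hh m), ∃ k' : Fin (hh m), k ∈ SS3 m ρ c c' →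
      ρ (slot m ((c : ℕ) * hh m + (k : ℕ))) = slot m ((c' : ℕ) * hh m + (k' : ℕ)) := by
    intro k
    by_cases hk : k ∈ SS3 m ρ c c'
    · have hk' := hk
      simp only [SS3, Finset.mem_filter, Finset.mem_univ, true_and] at hk'
      obtain ⟨k', hk''⟩ := slot_part m _ hk'.2.1
      rw [hk'.2.2] at hk''
      exact ⟨k', fun _ => hk''.symm⟩
    · exact ⟨k, fun h => absurd h hk⟩
  choose g hg using h1
  have hinj : Set.InjOn g (SS3 m ρ c c' : Set (Fin (hh m))) := by
    intro k1 hk1 k2 hk2 h12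
    have e1 := hg k1 hk1
    have e2 := hg k2 hk2
    rw [h12, ← e2] at e1
    have e3 := ρ.injective e1
    have hk1' : slot m ((c : ℕ) * hh m + (k1 : ℕ)) ≠ 0 := by
      have : k1 ∈ SS3 m ρ c c' := hk1
      simp only [SS3, Finset.mem_filter, Finset.mem_univ, true_and] at this
      exact this.1
    have := slot_inj m e3 hk1'
    exact Fin.ext (by omega)
  obtain ⟨g', hg'⟩ := Finset.exists_equiv_extend_of_card_eq (α := Fin (hh m))
    (t := (univ : Finset (Fin (hh m)))) (by simp) (Finset.subset_univ ((SS3 m ρ c c').image g)) hinj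
  refine ⟨g'.trans (Equiv.subtypeUnivEquiv (fun x => Finset.mem_univ x)), fun k hk => ?_⟩
  rw [hg k hk]
  have : (g'.trans (Equiv.subtypeUnivEquiv (fun x => Finset.mem_univ x))) k = g k := hg' k hk
  rw [this]

theorem Q_some_some (m : ℕ) (ρ : Equiv.Perm (Fin (m + 2))) (c c' : Fin 2) (j : ℕ) :
    Q m ρ (some c) (some c') j ≤ q (hh m) (cnt m ρ c c') j := by
  refine le_trans ?_ (q_anti (hh m) j (cnt_le_SS3 m ρ c c'))
  obtain ⟨Φ, hΦ⟩ := SS3_phi m ρ c c'
  rw [← q_general (SS3 m ρ c c') Φ j]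
  unfold Q
  refine av_mono fun p => ind_mono fun hp s hs hc => hp s hs ?_
  show ρ (slot m ((c : ℕ) * hh m + (p.1 s : ℕ))) = slot m ((c' : ℕ) * hh m + (p.2 s : ℕ))
  rw [hΦ _ hc.1, hc.2]

theorem cnt_le (m : ℕ) (ρ : Equiv.Perm (Fin (m + 2))) (c c' : Fin 2) : cnt m ρ c c' ≤ hh m := by
  refine (cnt_le_SS3 m ρ c c').trans ?_
  simpa using (SS3 m ρ c c').card_le_univ

end H50R
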