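import Pool.Agent.Lib.H50R.U2
import Pool.Agent.Lib.H50R.U3
import Pool.Agent.Lib.H50R.Q7

/-!
# H50R, chunk U5 (M): two plans and one relative labelling

h = hh m, z = exp(-1/2). ρ is good: ρ 0 ≠ 0 and cnt m ρ c c' ≥ (1/2 - δ) h for all c, c'. A = part of ρ⁻¹ 0,
B = part of ρ 0.
Proof. Step 1: for all plans o, o' : Option (Fin 2): Q m ρ o o' h ≤ cE z A B o o' + η' and
sum_(s<h) Q m ρ o o' s ≤ h (gE z A B o o' + η'), η' > 0 arbitrary, for small δ and large m. Cases: none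
none: Q ≤ 1. some c, none: if c = A then Q j ≤ 1 - j/h, so Q h ≤ 0 and the sum is ≤ (h+1)/2 ≤ h (1/2 + η')
for 1/(2h) ≤ η'; if c ≠ A then Q ≤ 1. none, some c: the same with B. some, some: Q_some_some, half_upper
(choose δ from half_upper; cnt_le).
Step 2: products. 0 ≤ Q ≤ 1 and 0 ≤ cE ≤ 1 (0 ≤ z ≤ 1), so
prod_(i'<i) Q ≤ prod_(i'<i) (cE + η') ≤ prod_(i'<i) cE + 2^6 η' for η' ≤ 1 (or an induction: if Q ≤ c + η',
0 ≤ Q ≤ 1, c ≤ 1, then P Q ≤ P' c + (stuff)). Hence sum_(j<h) (prod_(i'<i) Q) Q_i j ≤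
h (prod cE + 64 η')(gE + η') ≤ h (prod cE * gE + C η'), since gE ≤ 1. Sum over i : Fin 6. For the second
claim: the product of all six Q h.
-/

namespace H50R

lemma U5_prod {ι : Type*} (S : Finset ι) (x c : ι → ℝ) (e : ℝ) (he : 0 ≤ e) (hx0 : ∀ i, 0 ≤ x i)
    (hx1 : ∀ i, x i ≤ 1) (hc0 : ∀ i, 0 ≤ c i) (hc1 : ∀ i, c i ≤ 1) (hxc : ∀ i, x i ≤ c i + e) :
    ∏ i ∈ S, x i ≤ ∏ i ∈ S, c i + (S.card : ℝ) * e := by
  classical
  induction S using Finset.induction_on with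
  | empty => simp
  | insert a S ha ih =>
    rw [Finset.prod_insert ha, Finset.prod_insert ha, Finset.card_insert_of_notMem ha]
    have h1 : 0 ≤ ∏ i ∈ S, c i := Finset.prod_nonneg fun i _ => hc0 i
    have h2 : ∏ i ∈ S, c i ≤ 1 := Finset.prod_le_one (fun i _ => hc0 i) fun i _ => hc1 i
    have h3 : 0 ≤ (S.card : ℝ) * e := by positivity
    have h4 : x a * ∏ i ∈ S, x i ≤ x a * (∏ i ∈ S, c i + (S.card : ℝ) * e) :=
      mul_le_mul_of_nonneg_left ih (hx0 a)
    have h5 : x a * (S.card * e) ≤ (S.card : ℝ) * e := by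
      have := mul_le_mul_of_nonneg_right (hx1 a) h3
      linarith
    have h6 : x a * ∏ i ∈ S, c i ≤ (c a + e) * ∏ i ∈ S, c i := mul_le_mul_of_nonneg_right (hxc a) h1
    have h7 : e * ∏ i ∈ S, c i ≤ e := by
      have := mul_le_mul_of_nonneg_left h2 he
      linarith
    push_cast
    nlinarith

lemma U5_gauss (h : ℕ) (hh : 0 < h) : ∑ s ∈ Finset.range h, (1 - (s : ℝ) / (h : ℝ)) = ((h : ℝ) + 1) / 2 := by
  have h1 : ∀ n : ℕ, ∑ s ∈ Finset.range n, (s : ℝ) = (n : ℝ) * ((n : ℝ) - 1) / 2 := by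
    intro n
    induction n with
    | zero => simp
    | succ n ih =>
      rw [Finset.sum_range_succ, ih]
      push_cast
      ring
  rw [Finset.sum_sub_distrib, ← Finset.sum_div, h1]
  simp only [Finset.sum_const, Finset.card_range, nsmul_eq_mul, mul_one]
  have : (h : ℝ) ≠ 0 := by positivity
  field_simp
  ring

lemma z_bounds : (1 / 2 : ℝ) ≤ Real.exp (-(1 / 2)) ∧ Real.exp (-(1 / 2)) ≤ 1 := by
  constructor
  · have := Real.add_one_le_exp (-(1 / 2 : ℝ))
    linarith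
  · rw [Real.exp_le_one_iff]; norm_num

lemma cE_nonneg (A B : Fin 2) (o o' : Option (Fin 2)) : 0 ≤ cE (Real.exp (-(1 / 2))) A B o o' := by
  have h := z_bounds
  rcases o with _ | c <;> rcases o' with _ | c' <;> unfold cE <;> simp only
  · norm_num
  · split_ifs <;> norm_num
  · split_ifs <;> norm_num
  · linarith [h.1]

lemma cE_le_one (A B : Fin 2) (o o' : Option (Fin 2)) : cE (Real.exp (-(1 / 2))) A B o o' ≤ 1 := by
  have h := z_bounds
  rcases o with _ | c <;> rcases o' with _ | c' <;> unfold cE <;> simp only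
  · norm_num
  · split_ifs <;> norm_num
  · split_ifs <;> norm_num
  · linarith [h.2]

lemma gE_nonneg (A B : Fin 2) (o o' : Option (Fin 2)) : 0 ≤ gE (Real.exp (-(1 / 2))) A B o o' := by
  have h := z_bounds
  rcases o with _ | c <;> rcases o' with _ | c' <;> unfold gE <;> simp only
  · norm_num
  · split_ifs <;> norm_num
  · split_ifs <;> norm_num
  · linarith [h.2]

lemma gE_le_one (A B : Fin 2) (o o' : Option (Fin 2)) : gE (Real.exp (-(1 / 2))) A B o o' ≤ 1 := by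
  have h := z_bounds
  rcases o with _ | c <;> rcases o' with _ | c' <;> unfold gE <;> simp only
  · norm_num
  · split_ifs <;> norm_num
  · split_ifs <;> norm_num
  · linarith [h.1]

lemma U5_one (m : ℕ) (ρ : Equiv.Perm (Fin (m + 2))) (h0 : ρ 0 ≠ 0) (e δ : ℝ) (he : 0 < e)
    (hhalf : ∀ M : ℕ, M ≤ hh m → (1 / 2 - δ) * (hh m : ℝ) ≤ (M : ℝ) →
      q (hh m) M (hh m) ≤ Real.exp (-(1 / 2)) + e ∧
      ∑ s ∈ Finset.range (hh m), q (hh m) M s ≤ (hh m : ℝ) * (2 * (1 - Real.exp (-(1 / 2))) + e))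
    (hbig : 1 ≤ 2 * e * (hh m : ℝ))
    (hcnt : ∀ c c' : Fin 2, (1 / 2 - δ) * (hh m : ℝ) ≤ (cnt m ρ c c' : ℝ)) (o o' : Option (Fin 2)) :
    Q m ρ o o' (hh m) ≤ cE (Real.exp (-(1 / 2))) (part m (ρ⁻¹ 0)) (part m (ρ 0)) o o' + e ∧
    ∑ j ∈ Finset.range (hh m), Q m ρ o o' j ≤
      (hh m : ℝ) * (gE (Real.exp (-(1 / 2))) (part m (ρ⁻¹ 0)) (part m (ρ 0)) o o' + e) := by
  have hpos : 0 < hh m := hh_pos m
  have hposR : (0 : ℝ) < (hh m : ℝ) := by exact_mod_cast hpos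
  have htriv : Q m ρ o o' (hh m) ≤ 1 + e ∧
      ∑ j ∈ Finset.range (hh m), Q m ρ o o' j ≤ (hh m : ℝ) * (1 + e) := by
    refine ⟨(Q_le_one m ρ o o' _).trans (by linarith), ?_⟩
    calc ∑ j ∈ Finset.range (hh m), Q m ρ o o' j ≤ ∑ j ∈ Finset.range (hh m), (1 : ℝ) :=
          Finset.sum_le_sum fun j _ => Q_le_one m ρ o o' j
      _ = (hh m : ℝ) := by simp
      _ ≤ (hh m : ℝ) * (1 + e) := by nlinarith
  have hhalf1 : ∀ f : ℕ → ℝ, (∀ j, j ≤ hh m → f j ≤ 1 - (j : ℝ) / (hh m : ℝ)) →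
      f (hh m) ≤ 0 + e ∧ ∑ j ∈ Finset.range (hh m), f j ≤ (hh m : ℝ) * (1 / 2 + e) := by
    intro f hf
    constructor
    · have h1 := hf (hh m) le_rfl
      rw [div_self hposR.ne'] at h1
      linarith
    · calc ∑ j ∈ Finset.range (hh m), f j ≤
          ∑ j ∈ Finset.range (hh m), (1 - (j : ℝ) / (hh m : ℝ)) :=
            Finset.sum_le_sum fun j hj => hf j (Finset.mem_range.1 hj).le
        _ = ((hh m : ℝ) + 1) / 2 := U5_gauss _ hpos
        _ ≤ (hh m : ℝ) * (1 / 2 + e) := by linarith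
  rcases o with _ | c
  · rcases o' with _ | c'
    · exact htriv
    · unfold cE gE
      simp only
      by_cases hc : c' = part m (ρ 0)
      · rw [if_pos hc, if_pos hc, hc]
        exact hhalf1 _ fun j hj => Q_none_some m ρ h0 j hj
      · rw [if_neg hc, if_neg hc]
        exact htriv
  · rcases o' with _ | c'
    · unfold cE gE
      simp only
      by_cases hc : c = part m (ρ⁻¹ 0)
      · rw [if_pos hc, if_pos hc, hc]
        exact hhalf1 _ fun j hj => Q_some_none m ρ h0 j hj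
      · rw [if_neg hc, if_neg hc]
        exact htriv
    · unfold cE gE
      simp only
      have h1 := hhalf (cnt m ρ c c') (cnt_le m ρ c c') (hcnt c c')
      refine ⟨(Q_some_some m ρ c c' _).trans h1.1, ?_⟩
      exact (Finset.sum_le_sum fun j _ => Q_some_some m ρ c c' j).trans h1.2

theorem pair_bound (η : ℝ) (hη : 0 < η) : ∃ δ : ℝ, 0 < δ ∧ ∃ m0 : ℕ, ∀ m : ℕ, m0 ≤ m →
    ∀ (ρ : Equiv.Perm (Fin (m + 2))), ρ 0 ≠ 0 →
    (∀ c c' : Fin 2, (1 / 2 - δ) * (hh m : ℝ) ≤ (cnt m ρ c c' : ℝ)) → ∀ o o' : Fin 6 → Option (Fin 2),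
    (∑ i : Fin 6, ∑ j ∈ Finset.range (hh m),
      (∏ i' ∈ Finset.univ.filter (fun i' : Fin 6 => i' < i), Q m ρ (o i') (o' i') (hh m)) *
        Q m ρ (o i) (o' i) j ≤
      (hh m : ℝ) * (gsum (Real.exp (-(1 / 2))) (part m (ρ⁻¹ 0)) (part m (ρ 0)) o o' + η)) ∧
    (∏ i : Fin 6, Q m ρ (o i) (o' i) (hh m) ≤
      dprod (Real.exp (-(1 / 2))) (part m (ρ⁻¹ 0)) (part m (ρ 0)) o o' + η) := by
  have he : 0 < η / 42 := by positivity
  obtain ⟨δ, hδ, h0, hhalf⟩ := half_upper (η / 42) he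
  obtain ⟨N1, hN1⟩ := exists_nat_gt (42 / (2 * η))
  refine ⟨δ, hδ, 2 * (h0 + N1), fun m hm ρ hρ hcnt o o' => ?_⟩
  have hh1 : h0 + N1 ≤ hh m := by unfold hh; omega
  have hbig : 1 ≤ 2 * (η / 42) * (hh m : ℝ) := by
    have h1 : (N1 : ℝ) ≤ (hh m : ℝ) := by exact_mod_cast (by omega : N1 ≤ hh m)
    rw [div_lt_iff₀ (by positivity)] at hN1
    nlinarith
  have hposR : (0 : ℝ) < (hh m : ℝ) := by exact_mod_cast hh_pos m
  have key := U5_one m ρ hρ (η / 42) δ he (hhalf (hh m) (by omega)) hbig hcnt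
  set e := η / 42 with he_def
  set A := part m (ρ⁻¹ 0) with hA
  set B := part m (ρ 0) with hB
  have hprod : ∀ S : Finset (Fin 6), ∏ i ∈ S, Q m ρ (o i) (o' i) (hh m) ≤
      ∏ i ∈ S, cE (Real.exp (-(1 / 2))) A B (o i) (o' i) + 6 * e := by
    intro S
    have h1 := U5_prod S (fun i => Q m ρ (o i) (o' i) (hh m))
      (fun i => cE (Real.exp (-(1 / 2))) A B (o i) (o' i)) e he.le
      (fun i => Q_nonneg _ _ _ _ _) (fun i => Q_le_one _ _ _ _ _) (fun i => cE_nonneg _ _ _ _)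
      (fun i => cE_le_one _ _ _ _) (fun i => (key (o i) (o' i)).1)
    have h2 : (S.card : ℝ) ≤ 6 := by
      have : S.card ≤ 6 := by simpa using S.card_le_univ
      exact_mod_cast this
    have h3 : (S.card : ℝ) * e ≤ 6 * e := mul_le_mul_of_nonneg_right h2 he.le
    linarith
  constructor
  · have h1 : ∀ i : Fin 6, ∑ j ∈ Finset.range (hh m),
        (∏ i' ∈ Finset.univ.filter (fun i' : Fin 6 => i' < i), Q m ρ (o i') (o' i') (hh m)) *
        Q m ρ (o i) (o' i) j ≤ (hh m : ℝ) *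
        ((∏ i' ∈ Finset.univ.filter (fun i' : Fin 6 => i' < i),
          cE (Real.exp (-(1 / 2))) A B (o i') (o' i')) *
          gE (Real.exp (-(1 / 2))) A B (o i) (o' i) + 7 * e) := by
      intro i
      rw [← Finset.mul_sum]
      set P := ∏ i' ∈ Finset.univ.filter (fun i' : Fin 6 => i' < i), Q m ρ (o i') (o' i') (hh m) with hP
      set P' := ∏ i' ∈ Finset.univ.filter (fun i' : Fin 6 => i' < i),
          cE (Real.exp (-(1 / 2))) A B (o i') (o' i') with hP'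
      set g := gE (Real.exp (-(1 / 2))) A B (o i) (o' i) with hg
      have hP0 : 0 ≤ P := Finset.prod_nonneg fun _ _ => Q_nonneg _ _ _ _ _
      have hP1 : P ≤ 1 := Finset.prod_le_one (fun _ _ => Q_nonneg _ _ _ _ _) fun _ _ => Q_le_one _ _ _ _ _
      have hPP : P ≤ P' + 6 * e := hprod _
      have hg0 : 0 ≤ g := gE_nonneg _ _ _ _
      have hg1 : g ≤ 1 := gE_le_one _ _ _ _
      have h2 := mul_le_mul_of_nonneg_left (key (o i) (o' i)).2 hP0
      refine h2.trans ?_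
      have h3 : P * (g + e) ≤ P' * g + 7 * e := by
        have h4 : P * e ≤ 1 * e := mul_le_mul_of_nonneg_right hP1 he.le
        have h5 : P * g ≤ (P' + 6 * e) * g := mul_le_mul_of_nonneg_right hPP hg0
        have h6 : 6 * e * g ≤ 6 * e * 1 := mul_le_mul_of_nonneg_left hg1 (by positivity)
        nlinarith
      calc P * ((hh m : ℝ) * (g + e)) = (hh m : ℝ) * (P * (g + e)) := by ring
        _ ≤ (hh m : ℝ) * (P' * g + 7 * e) := mul_le_mul_of_nonneg_left h3 hposR.le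
    refine (Finset.sum_le_sum fun i _ => h1 i).trans (le_of_eq ?_)
    rw [← Finset.mul_sum, Finset.sum_add_distrib, Finset.sum_const, Finset.card_univ, Fintype.card_fin,
      nsmul_eq_mul]
    unfold gsum
    rw [he_def]
    push_cast
    ring
  · have h1 := hprod Finset.univ
    unfold dprod
    have h2 : 6 * e ≤ η := by rw [he_def]; linarith
    linarith

end H50R
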