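import Pool.Agent.Lib.H50R.U1
import Pool.Agent.Lib.H50R.U4
import Pool.Agent.Lib.H50R.U5

/-!
# H50R, chunk U6 (M/L): the survival sums of the strategy

h = hh m, z = exp(-1/2), days: 0, then 6 h days. Proof.
(1) psurv_rho and av_prod / av_comm (Om m = PS × (Fin 6 → Perm), so a pair of seeds is, after reordering
(Equiv.prodProdProdComm), a pair (x, x') of plans and a pair of families of permutations):
psurv (path m) t = av over ρ of av over (x, x') of av over (r, r') of the indicator. For t = 1 + i h + j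
block_prod gives ind (ρ 0 ≠ 0) * S_i,j, 0 ≤ S ≤ 1. For t = 1 + 6 h = 1 + 5 h + h: i = 5, j = h.
(2) sum_(t < 1 + 6h) psurv t = psurv 0 + sum_(i : Fin 6) sum_(j<h) psurv (1 + i h + j), psurv 0 ≤ 1.
(3) Let η' > 0, δ from pair_bound (for η'), G = {ρ good}. For good ρ and all x, x' the double sum is
≤ h (gsum z A B (plan x) (plan x') + η') with A = part (ρ⁻¹ 0), B = part (ρ 0); for bad ρ it is ≤ 6 h. Hence
the average over ρ of the double sum is ≤ h (sum_(A,B) av_ρ (ind (ρ 0 ≠ 0, parts A, B)) gsum z A B + η')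
+ 6 h * av_ρ (ind (bad)) and av_ρ (ind bad) ≤ 4 η' (cnt_small for the four pairs c, c' and large m; bad
means ρ 0 ≠ 0 and some cnt < (1/2 - δ) h). By part_av and gsum ≥ 0 (0 ≤ z ≤ 1), gsum ≤ 6:
sum_(A,B) ... ≤ (m+2)/(4(m+1)) sum_(A,B) gsum ≤ (1/4) sum_(A,B) gsum + 6/(m+1). Average over (x, x'):
total ≤ 1 + h (GG z + 6/(m+1) + η' + 24 η'); choose η' and m0 (1 ≤ h η'). The second claim is the same with
dprod in place of gsum (0 ≤ dprod ≤ 1).
-/

namespace H50R

/-- Probability of no meeting for two plans up to day j of half block i. -/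
noncomputable def TT (m : ℕ) (ρ : Equiv.Perm (Fin (m + 2))) (p : PS × PS) (i : Fin 6) (j : ℕ) : ℝ :=
  (∏ i' ∈ Finset.univ.filter (fun i' : Fin 6 => i' < i),
      Q m ρ (plan p.1 i') (plan p.2 i') (hh m)) * Q m ρ (plan p.1 i) (plan p.2 i) j

lemma TT_nonneg (m : ℕ) (ρ : Equiv.Perm (Fin (m + 2))) (p : PS × PS) (i : Fin 6) (j : ℕ) :
    0 ≤ TT m ρ p i j :=
  mul_nonneg (Finset.prod_nonneg fun _ _ => Q_nonneg _ _ _ _ _) (Q_nonneg _ _ _ _ _)

lemma TT_le_one (m : ℕ) (ρ : Equiv.Perm (Fin (m + 2))) (p : PS × PS) (i : Fin 6) (j : ℕ) :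
    TT m ρ p i j ≤ 1 :=
  mul_le_one₀ (Finset.prod_le_one (fun _ _ => Q_nonneg _ _ _ _ _) fun _ _ => Q_le_one _ _ _ _ _)
    (Q_nonneg _ _ _ _ _) (Q_le_one _ _ _ _ _)

lemma psurv_TT (m : ℕ) (i : Fin 6) (j : ℕ) (hj : j ≤ hh m) :
    psurv (m + 2) (path m) (1 + (i : ℕ) * hh m + j) =
      av (fun ρ : Equiv.Perm (Fin (m + 2)) => ind (ρ 0 ≠ 0) *
        av (fun p : PS × PS => TT m ρ p i j)) := by
  rw [psurv_rho]
  refine av_congr fun ρ => ?_
  rw [← av_equiv (Equiv.prodProdProdComm PS PS (Fin 6 → Equiv.Perm (Fin (hh m)))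
    (Fin 6 → Equiv.Perm (Fin (hh m)))), av_prod, ← av_mul_left]
  refine av_congr fun p => ?_
  exact block_prod m ρ p.1 p.2 i j hj

lemma U6_sum (f : ℕ → ℝ) (h : ℕ) : ∑ t ∈ Finset.range (1 + 6 * h), f t =
    f 0 + ∑ i : Fin 6, ∑ j ∈ Finset.range h, f (1 + (i : ℕ) * h + j) := by
  have h1 : ∀ K : ℕ, ∑ t ∈ Finset.range (1 + K * h), f t =
      f 0 + ∑ i ∈ Finset.range K, ∑ j ∈ Finset.range h, f (1 + i * h + j) := by
    intro K
    induction K with
    | zero => simp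
    | succ K ih =>
      rw [Nat.succ_mul, ← Nat.add_assoc, Finset.sum_range_add, ih, Finset.sum_range_succ]
      ring
  rw [h1 6, Finset.sum_range]

lemma U6_gen (m : ℕ) (H C e δ : ℝ) (hH : 0 ≤ H) (hC : 0 ≤ C) (he : 0 ≤ e)
    (F : Equiv.Perm (Fin (m + 2)) → PS × PS → ℝ) (G : Fin 2 → Fin 2 → PS × PS → ℝ)
    (hG0 : ∀ A B p, 0 ≤ G A B p) (hG1 : ∀ A B p, G A B p ≤ C)
    (hF : ∀ ρ p, F ρ p ≤ H * C)
    (hgood : ∀ ρ : Equiv.Perm (Fin (m + 2)), ρ 0 ≠ 0 →
      (∀ c c' : Fin 2, (1 / 2 - δ) * (hh m : ℝ) ≤ (cnt m ρ c c' : ℝ)) → ∀ p,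
      F ρ p ≤ H * (G (part m (ρ⁻¹ 0)) (part m (ρ 0)) p + e))
    (hcnt : ∀ c c' : Fin 2, av (fun ρ : Equiv.Perm (Fin (m + 2)) =>
      ind ((cnt m ρ c c' : ℝ) < (1 / 2 - δ) * (hh m : ℝ))) ≤ e) :
    av (fun ρ : Equiv.Perm (Fin (m + 2)) => ind (ρ 0 ≠ 0) * av (fun p : PS × PS => F ρ p)) ≤
      H * (av (fun p : PS × PS => (1 / 4) * ∑ A : Fin 2, ∑ B : Fin 2, G A B p) +
        C / ((m : ℝ) + 1) + e + 4 * C * e) := by
  set bad : Equiv.Perm (Fin (m + 2)) → ℝ := fun ρ => ∑ c : Fin 2, ∑ c' : Fin 2,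
    ind ((cnt m ρ c c' : ℝ) < (1 / 2 - δ) * (hh m : ℝ)) with hbad
  set I : Fin 2 → Fin 2 → Equiv.Perm (Fin (m + 2)) → ℝ := fun A B ρ =>
    ind (ρ 0 ≠ 0 ∧ part m (ρ⁻¹ 0) = A ∧ part m (ρ 0) = B) with hI
  have hbad0 : ∀ ρ, 0 ≤ bad ρ := fun ρ =>
    Finset.sum_nonneg fun _ _ => Finset.sum_nonneg fun _ _ => ind_nonneg _
  have hIG : ∀ ρ p, 0 ≤ ∑ A : Fin 2, ∑ B : Fin 2, I A B ρ * G A B p := fun ρ p =>
    Finset.sum_nonneg fun _ _ => Finset.sum_nonneg fun _ _ => mul_nonneg (ind_nonneg _) (hG0 _ _ _)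
  have hpt : ∀ ρ p, ind (ρ 0 ≠ 0) * F ρ p ≤
      H * (∑ A : Fin 2, ∑ B : Fin 2, I A B ρ * G A B p + e + C * bad ρ) := by
    intro ρ p
    by_cases h0 : ρ 0 ≠ 0
    · rw [ind_of_true h0, one_mul]
      by_cases hg : ∀ c c' : Fin 2, (1 / 2 - δ) * (hh m : ℝ) ≤ (cnt m ρ c c' : ℝ)
      · refine (hgood ρ h0 hg p).trans (mul_le_mul_of_nonneg_left ?_ hH)
        have h1 : G (part m (ρ⁻¹ 0)) (part m (ρ 0)) p ≤
            ∑ A : Fin 2, ∑ B : Fin 2, I A B ρ * G A B p := by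
          calc G (part m (ρ⁻¹ 0)) (part m (ρ 0)) p =
              I (part m (ρ⁻¹ 0)) (part m (ρ 0)) ρ * G (part m (ρ⁻¹ 0)) (part m (ρ 0)) p := by
                rw [show I (part m (ρ⁻¹ 0)) (part m (ρ 0)) ρ = 1 from ind_of_true ⟨h0, rfl, rfl⟩,
                  one_mul]
            _ ≤ ∑ B : Fin 2, I (part m (ρ⁻¹ 0)) B ρ * G (part m (ρ⁻¹ 0)) B p :=
                Finset.single_le_sum (f := fun B => I (part m (ρ⁻¹ 0)) B ρ * G (part m (ρ⁻¹ 0)) B p)
                  (fun _ _ => mul_nonneg (ind_nonneg _) (hG0 _ _ _)) (Finset.mem_univ _)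
            _ ≤ ∑ A : Fin 2, ∑ B : Fin 2, I A B ρ * G A B p :=
                Finset.single_le_sum (f := fun A => ∑ B : Fin 2, I A B ρ * G A B p)
                  (fun _ _ => Finset.sum_nonneg fun _ _ => mul_nonneg (ind_nonneg _) (hG0 _ _ _))
                  (Finset.mem_univ _)
        have h2 : 0 ≤ C * bad ρ := mul_nonneg hC (hbad0 ρ)
        linarith
      · refine (hF ρ p).trans (mul_le_mul_of_nonneg_left ?_ hH)
        push Not at hg
        obtain ⟨c, c', hcc⟩ := hg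
        have h1 : 1 ≤ bad ρ := by
          calc (1 : ℝ) = ind ((cnt m ρ c c' : ℝ) < (1 / 2 - δ) * (hh m : ℝ)) := (ind_of_true hcc).symm
            _ ≤ ∑ c' : Fin 2, ind ((cnt m ρ c c' : ℝ) < (1 / 2 - δ) * (hh m : ℝ)) :=
                Finset.single_le_sum (f := fun c' => ind ((cnt m ρ c c' : ℝ) < (1 / 2 - δ) * (hh m : ℝ)))
                  (fun _ _ => ind_nonneg _) (Finset.mem_univ _)
            _ ≤ bad ρ := by
                rw [hbad]
                exact Finset.single_le_sum (f := fun c => ∑ c' : Fin 2,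
                  ind ((cnt m ρ c c' : ℝ) < (1 / 2 - δ) * (hh m : ℝ)))
                  (fun _ _ => Finset.sum_nonneg fun _ _ => ind_nonneg _) (Finset.mem_univ _)
        have h2 : C * 1 ≤ C * bad ρ := mul_le_mul_of_nonneg_left h1 hC
        have h3 := hIG ρ p
        linarith
    · rw [ind_of_false h0, zero_mul]
      refine mul_nonneg hH ?_
      have h2 : 0 ≤ C * bad ρ := mul_nonneg hC (hbad0 ρ)
      have h3 := hIG ρ p
      linarith
  set γ : Fin 2 → Fin 2 → ℝ := fun A B => av (fun p : PS × PS => G A B p) with hγ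
  have hγ0 : ∀ A B, 0 ≤ γ A B := fun A B => av_nonneg fun p => hG0 A B p
  have hγ1 : ∀ A B, γ A B ≤ C := fun A B => av_le_const fun p => hG1 A B p
  have hav1 : ∀ ρ, ind (ρ 0 ≠ 0) * av (fun p : PS × PS => F ρ p) ≤
      H * (∑ A : Fin 2, ∑ B : Fin 2, I A B ρ * γ A B + e + C * bad ρ) := by
    intro ρ
    rw [← av_mul_left]
    refine (av_mono fun p => hpt ρ p).trans (le_of_eq ?_)
    rw [av_mul_left, av_add, av_add, av_const, av_const, av_sum]
    congr 3
    refine Finset.sum_congr rfl fun A _ => ?_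
    rw [av_sum]
    refine Finset.sum_congr rfl fun B _ => ?_
    exact av_mul_left _ _
  refine (av_mono hav1).trans ?_
  rw [av_mul_left]
  refine mul_le_mul_of_nonneg_left ?_ hH
  rw [av_add, av_add, av_const, av_sum, av_mul_left]
  have hm1 : (0 : ℝ) < (m : ℝ) + 1 := by positivity
  have hX : av (fun p : PS × PS => (1 / 4) * ∑ A : Fin 2, ∑ B : Fin 2, G A B p) =
      (1 / 4) * ∑ A : Fin 2, ∑ B : Fin 2, γ A B := by
    rw [av_mul_left, av_sum]
    congr 1
    refine Finset.sum_congr rfl fun A _ => ?_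
    rw [av_sum]
  have h1 : ∑ A : Fin 2, av (fun ρ : Equiv.Perm (Fin (m + 2)) => ∑ B : Fin 2, I A B ρ * γ A B) ≤
      (1 / 4) * ∑ A : Fin 2, ∑ B : Fin 2, γ A B + C / ((m : ℝ) + 1) := by
    have h2 : ∀ A : Fin 2, av (fun ρ : Equiv.Perm (Fin (m + 2)) => ∑ B : Fin 2, I A B ρ * γ A B) ≤
        ∑ B : Fin 2, (1 / 4 * γ A B + C / (4 * ((m : ℝ) + 1))) := by
      intro A
      rw [av_sum]
      refine Finset.sum_le_sum fun B _ => ?_
      rw [av_mul_right]
      have h3 := mul_le_mul_of_nonneg_right (part_av m A B) (hγ0 A B)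
      refine h3.trans ?_
      have h4 : ((m : ℝ) + 2) / (4 * ((m : ℝ) + 1)) * γ A B =
          1 / 4 * γ A B + γ A B / (4 * ((m : ℝ) + 1)) := by
        field_simp
        ring
      rw [h4]
      have h5 : γ A B / (4 * ((m : ℝ) + 1)) ≤ C / (4 * ((m : ℝ) + 1)) := by
        gcongr
        exact hγ1 A B
      linarith
    refine (Finset.sum_le_sum fun A _ => h2 A).trans (le_of_eq ?_)
    simp only [Fin.sum_univ_two]
    field_simp
    ring
  have h3 : av bad ≤ 4 * e := by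
    rw [hbad, av_sum]
    have h4 : ∀ c : Fin 2, av (fun ρ : Equiv.Perm (Fin (m + 2)) => ∑ c' : Fin 2,
        ind ((cnt m ρ c c' : ℝ) < (1 / 2 - δ) * (hh m : ℝ))) ≤ 2 * e := by
      intro c
      rw [av_sum, Fin.sum_univ_two]
      linarith [hcnt c 0, hcnt c 1]
    rw [Fin.sum_univ_two]
    linarith [h4 0, h4 1]
  have h5 : C * av bad ≤ C * (4 * e) := mul_le_mul_of_nonneg_left h3 hC
  rw [hX]
  have h6 : C * av (fun ρ : Equiv.Perm (Fin (m + 2)) => bad ρ) = C * av bad := rfl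
  linarith

lemma gsum_nonneg (A B : Fin 2) (o o' : Fin 6 → Option (Fin 2)) :
    0 ≤ gsum (Real.exp (-(1 / 2))) A B o o' :=
  Finset.sum_nonneg fun _ _ => mul_nonneg (Finset.prod_nonneg fun _ _ => cE_nonneg _ _ _ _)
    (gE_nonneg _ _ _ _)

lemma gsum_le (A B : Fin 2) (o o' : Fin 6 → Option (Fin 2)) :
    gsum (Real.exp (-(1 / 2))) A B o o' ≤ 6 := by
  unfold gsum
  calc _ ≤ ∑ _i : Fin 6, (1 : ℝ) := Finset.sum_le_sum fun i _ => mul_le_one₀
        (Finset.prod_le_one (fun _ _ => cE_nonneg _ _ _ _) fun _ _ => cE_le_one _ _ _ _)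
        (gE_nonneg _ _ _ _) (gE_le_one _ _ _ _)
    _ = 6 := by simp

theorem psurv_sum (η : ℝ) (hη : 0 < η) : ∃ m0 : ℕ, ∀ m : ℕ, m0 ≤ m →
    ∑ t ∈ Finset.range (1 + 6 * hh m), psurv (m + 2) (path m) t ≤
      (hh m : ℝ) * (GG (Real.exp (-(1 / 2))) + η) ∧
    psurv (m + 2) (path m) (1 + 6 * hh m) ≤ DD (Real.exp (-(1 / 2))) + η := by
  set e : ℝ := η / 27 with he_def
  have he : 0 < e := by positivity
  obtain ⟨δ, hδ, m1, hpair⟩ := pair_bound e he
  obtain ⟨m2, hm2⟩ := cnt_small δ e hδ he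
  obtain ⟨N, hN⟩ := exists_nat_gt (6 / e)
  refine ⟨m1 + m2 + 2 * N, fun m hm => ?_⟩
  have hcnt := hm2 m (by omega)
  have hp := hpair m (by omega)
  have hNh : (N : ℝ) ≤ (hh m : ℝ) := by
    have : N ≤ hh m := by unfold hh; omega
    exact_mod_cast this
  have hNm : (N : ℝ) ≤ (m : ℝ) + 1 := by
    have : N ≤ m + 1 := by omega
    exact_mod_cast this
  have hposR : (0 : ℝ) < (hh m : ℝ) := by exact_mod_cast hh_pos m
  have hm1 : (0 : ℝ) < (m : ℝ) + 1 := by positivity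
  rw [div_lt_iff₀ he] at hN
  have hsmall : 6 / ((m : ℝ) + 1) ≤ e := by
    rw [div_le_iff₀ hm1]
    nlinarith
  have hbig : 1 ≤ (hh m : ℝ) * e := by nlinarith
  constructor
  · rw [U6_sum]
    have h0 : psurv (m + 2) (path m) 0 ≤ 1 := by
      rw [psurv_rho]
      exact av_le_const fun _ => av_le_const fun _ => ind_le_one _
    have h1 : ∑ i : Fin 6, ∑ j ∈ Finset.range (hh m),
        psurv (m + 2) (path m) (1 + (i : ℕ) * hh m + j) =
        av (fun ρ : Equiv.Perm (Fin (m + 2)) => ind (ρ 0 ≠ 0) *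
          av (fun p : PS × PS => ∑ i : Fin 6, ∑ j ∈ Finset.range (hh m), TT m ρ p i j)) := by
      have h2 : ∀ i : Fin 6, ∀ j ∈ Finset.range (hh m),
          psurv (m + 2) (path m) (1 + (i : ℕ) * hh m + j) =
          av (fun ρ : Equiv.Perm (Fin (m + 2)) => ind (ρ 0 ≠ 0) *
            av (fun p : PS × PS => TT m ρ p i j)) := fun i j hj =>
        psurv_TT m i j (Finset.mem_range.1 hj).le
      rw [Finset.sum_congr rfl fun i _ => Finset.sum_congr rfl fun j hj => h2 i j hj]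
      simp only [av_sum, Finset.mul_sum]
    rw [h1]
    have h3 := U6_gen m (hh m : ℝ) 6 e δ hposR.le (by norm_num) he.le
      (fun ρ p => ∑ i : Fin 6, ∑ j ∈ Finset.range (hh m), TT m ρ p i j)
      (fun A B p => gsum (Real.exp (-(1 / 2))) A B (plan p.1) (plan p.2))
      (fun A B p => gsum_nonneg _ _ _ _) (fun A B p => gsum_le _ _ _ _)
      (fun ρ p => by
        calc ∑ i : Fin 6, ∑ j ∈ Finset.range (hh m), TT m ρ p i j ≤
            ∑ _i : Fin 6, ∑ _j ∈ Finset.range (hh m), (1 : ℝ) :=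
              Finset.sum_le_sum fun i _ => Finset.sum_le_sum fun j _ => TT_le_one _ _ _ _ _
          _ = (hh m : ℝ) * 6 := by simp; ring)
      (fun ρ h0 hg p => (hp ρ h0 hg (plan p.1) (plan p.2)).1) hcnt
    have h4 : av (fun p : PS × PS => (1 / 4) * ∑ A : Fin 2, ∑ B : Fin 2,
        gsum (Real.exp (-(1 / 2))) A B (plan p.1) (plan p.2)) = GG (Real.exp (-(1 / 2))) := rfl
    rw [h4] at h3
    have h5 : (hh m : ℝ) * (GG (Real.exp (-(1 / 2))) + 6 / ((m : ℝ) + 1) + e + 4 * 6 * e) ≤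
        (hh m : ℝ) * (GG (Real.exp (-(1 / 2))) + 26 * e) := by
      refine mul_le_mul_of_nonneg_left ?_ hposR.le
      linarith
    have h6 : (hh m : ℝ) * (GG (Real.exp (-(1 / 2))) + η) =
        (hh m : ℝ) * (GG (Real.exp (-(1 / 2))) + 26 * e) + (hh m : ℝ) * e := by
      rw [he_def]; ring
    rw [h6]
    linarith
  · have h1 : psurv (m + 2) (path m) (1 + 6 * hh m) =
        av (fun ρ : Equiv.Perm (Fin (m + 2)) => ind (ρ 0 ≠ 0) *
          av (fun p : PS × PS => ∏ i : Fin 6, Q m ρ (plan p.1 i) (plan p.2 i) (hh m))) := by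
      have h2 := psurv_TT m 5 (hh m) le_rfl
      have h3 : 1 + ((5 : Fin 6) : ℕ) * hh m + hh m = 1 + 6 * hh m := by
        have : ((5 : Fin 6) : ℕ) = 5 := rfl
        rw [this]; ring
      rw [h3] at h2
      rw [h2]
      refine av_congr fun ρ => ?_
      refine congrArg (fun x => ind (ρ 0 ≠ 0) * x) (av_congr fun p => ?_)
      unfold TT
      have h4 : Finset.univ.filter (fun i' : Fin 6 => i' < 5) = {0, 1, 2, 3, 4} := by decide
      rw [h4, Fin.prod_univ_six]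
      rw [Finset.prod_insert (by decide), Finset.prod_insert (by decide), Finset.prod_insert (by decide),
        Finset.prod_insert (by decide), Finset.prod_singleton]
      ring
    rw [h1]
    have h3 := U6_gen m 1 1 e δ zero_le_one zero_le_one he.le
      (fun ρ p => ∏ i : Fin 6, Q m ρ (plan p.1 i) (plan p.2 i) (hh m))
      (fun A B p => dprod (Real.exp (-(1 / 2))) A B (plan p.1) (plan p.2))
      (fun A B p => Finset.prod_nonneg fun _ _ => cE_nonneg _ _ _ _)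
      (fun A B p => Finset.prod_le_one (fun _ _ => cE_nonneg _ _ _ _) fun _ _ => cE_le_one _ _ _ _)
      (fun ρ p => by
        rw [mul_one]
        exact Finset.prod_le_one (fun _ _ => Q_nonneg _ _ _ _ _) fun _ _ => Q_le_one _ _ _ _ _)
      (fun ρ h0 hg p => by
        rw [one_mul]
        exact (hp ρ h0 hg (plan p.1) (plan p.2)).2) hcnt
    have h4 : av (fun p : PS × PS => (1 / 4) * ∑ A : Fin 2, ∑ B : Fin 2,
        dprod (Real.exp (-(1 / 2))) A B (plan p.1) (plan p.2)) = DD (Real.exp (-(1 / 2))) := rfl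
    rw [h4, one_mul] at h3
    refine h3.trans ?_
    have h5 : 1 / ((m : ℝ) + 1) ≤ 6 / ((m : ℝ) + 1) := by gcongr; norm_num
    have h6 : η = 27 * e := by rw [he_def]; ring
    rw [h6]
    linarith

end H50R
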