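import Pool.Agent.Lib.H50R.Basic

/-!
# H50R, chunk U7 (M): closed forms of GG and DD
-/

namespace H50R

open Finset

/-- average over functions of a statistic of the values -/
lemma U7_av_stat {α β : Type} [Fintype α] [Nonempty α] [Fintype β] [DecidableEq β] (f : α → β)
    (H : (Fin 3 → β) → ℝ) :
    av (fun d : Fin 3 → α => H (fun b => f (d b))) =
      ∑ e : Fin 3 → β, (∏ b : Fin 3, av (fun a : α => ind (f a = e b))) * H e := by
  have h1 : ∀ d : Fin 3 → α, H (fun b => f (d b)) =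
      ∑ e : Fin 3 → β, (∏ b : Fin 3, ind (f (d b) = e b)) * H e := by
    intro d
    rw [Finset.sum_eq_single (fun b => f (d b))]
    · simp [ind]
    · intro e _ he
      have : ∃ b, f (d b) ≠ e b := by
        by_contra hcon
        push Not at hcon
        exact he (funext fun b => (hcon b).symm)
      obtain ⟨b, hb⟩ := this
      rw [Finset.prod_eq_zero (Finset.mem_univ b) (ind_of_false hb), zero_mul]
    · intro h; exact absurd (Finset.mem_univ _) h
  rw [av_congr h1, av_sum]
  refine Finset.sum_congr rfl fun e _ => ?_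
  rw [av_mul_right]
  congr 1
  exact av_pi (fun b a => ind (f a = e b))

lemma U7_sum_bool (F : (Fin 3 → Bool) → ℝ) :
    ∑ e : Fin 3 → Bool, F e = ∑ a : Bool, ∑ b : Bool, ∑ c : Bool, F ![a, b, c] := by
  have h : ∑ e : Fin 3 → Bool, F e = ∑ p : Bool × Bool × Bool, F ![p.1, p.2.1, p.2.2] := by
    refine (Fintype.sum_bijective (fun p : Bool × Bool × Bool => ![p.1, p.2.1, p.2.2]) ?_ _ _
      (fun p => rfl)).symm
    decide
  rw [h]
  simp only [Fintype.sum_prod_type]

/-- the base plan with Booleans (true: tour) -/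
def U7_pb (e : Fin 3 → Bool) : Fin 6 → Option (Fin 2) :=
  ![if e 0 then some 0 else none,
    if e 0 then some 1 else none,
    if e 1 then some 0 else none,
    if e 1 then some 1 else none,
    if e 2 then (if !e 0 && e 1 then some 1 else some 0) else none,
    if e 2 then (if !e 0 && e 1 then some 0 else some 1) else none]

lemma U7_planBase (d : Fin 3 → Fin 4) : planBase d = U7_pb (fun b => decide (d b ≠ 0)) := by
  unfold planBase U7_pb
  by_cases h0 : d 0 = 0 <;> by_cases h1 : d 1 = 0 <;> by_cases h2 : d 2 = 0 <;> simp [h0, h1, h2]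

lemma U7_w (e : Bool) : av (fun a : Fin 4 => ind (decide (a ≠ 0) = e)) = if e then 3 / 4 else 1 / 4 := by
  cases e <;> simp [av, ind, Fin.sum_univ_succ]

lemma U7_av_base (G : (Fin 6 → Option (Fin 2)) → ℝ) :
    av (fun d : Fin 3 → Fin 4 => G (planBase d)) =
      ∑ a : Bool, ∑ b : Bool, ∑ c : Bool,
        ((if a then 3 / 4 else 1 / 4) * (if b then 3 / 4 else 1 / 4) * (if c then 3 / 4 else 1 / 4)) *
          G (U7_pb ![a, b, c]) := by
  simp only [U7_planBase]
  rw [U7_av_stat (fun a : Fin 4 => decide (a ≠ 0)) (fun e => G (U7_pb e)), U7_sum_bool]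
  refine Finset.sum_congr rfl fun a _ => Finset.sum_congr rfl fun b _ => Finset.sum_congr rfl fun c _ => ?_
  congr 1
  rw [Fin.prod_univ_three]
  simp only [U7_w]
  rfl

lemma U7_av_plan (G : (Fin 6 → Option (Fin 2)) → ℝ) :
    av (fun x : PS => G (plan x)) =
      (1 / 100) * G planDev + (99 / 100) * av (fun d : Fin 3 → Fin 4 => G (planBase d)) := by
  rw [av_prod]
  have h1 : ∀ e : Fin 100, av (fun d : Fin 3 → Fin 4 => G (plan (e, d))) =
      ind (e = 0) * (G planDev - av (fun d : Fin 3 → Fin 4 => G (planBase d))) +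
        av (fun d : Fin 3 → Fin 4 => G (planBase d)) := by
    intro e
    by_cases he : e = 0
    · rw [ind_of_true he]
      have : ∀ d : Fin 3 → Fin 4, plan (e, d) = planDev := by intro d; unfold plan; rw [if_pos he]
      simp only [this, av_const]
      ring
    · rw [ind_of_false he]
      have : ∀ d : Fin 3 → Fin 4, plan (e, d) = planBase d := by intro d; unfold plan; rw [if_neg he]
      simp only [this]
      ring
  rw [av_congr h1, av_add, av_mul_right, av_const]
  have h2 : av (fun e : Fin 100 => ind (e = 0)) = 1 / 100 := by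
    unfold av
    rw [Finset.sum_eq_single 0 (fun b _ hb => ind_of_false hb)
      (fun h => absurd (Finset.mem_univ _) h), ind_of_true rfl, Fintype.card_fin]
    norm_num
  rw [h2]
  ring

lemma U7_gsum (z : ℝ) (A B : Fin 2) (o o' : Fin 6 → Option (Fin 2)) : gsum z A B o o' =
    gE z A B (o 0) (o' 0) + cE z A B (o 0) (o' 0) * (gE z A B (o 1) (o' 1) +
    cE z A B (o 1) (o' 1) * (gE z A B (o 2) (o' 2) + cE z A B (o 2) (o' 2) * (gE z A B (o 3) (o' 3) +
    cE z A B (o 3) (o' 3) * (gE z A B (o 4) (o' 4) + cE z A B (o 4) (o' 4) * gE z A B (o 5) (o' 5))))) := by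
  unfold gsum
  simp only [Finset.prod_filter]
  simp [Fin.sum_univ_succ, Fin.prod_univ_succ]
  ring

lemma U7_dprod (z : ℝ) (A B : Fin 2) (o o' : Fin 6 → Option (Fin 2)) : dprod z A B o o' =
    cE z A B (o 0) (o' 0) * (cE z A B (o 1) (o' 1) * (cE z A B (o 2) (o' 2) * (cE z A B (o 3) (o' 3) *
    (cE z A B (o 4) (o' 4) * cE z A B (o 5) (o' 5))))) := by
  unfold dprod
  simp [Fin.prod_univ_succ]


lemma U7_kernel (K : (Fin 6 → Option (Fin 2)) → (Fin 6 → Option (Fin 2)) → ℝ) :
    av (fun p : PS × PS => K (plan p.1) (plan p.2)) =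
      (1 / 100) ^ 2 * K planDev planDev +
      (1 / 100) * (99 / 100) * (av (fun d => K planDev (planBase d)) + av (fun d => K (planBase d) planDev)) +
      (99 / 100) ^ 2 * av (fun d => av (fun d' => K (planBase d) (planBase d'))) := by
  rw [av_prod]
  have h1 : ∀ x : PS, av (fun x' : PS => K (plan x) (plan x')) =
      (1 / 100) * K (plan x) planDev + (99 / 100) * av (fun d' => K (plan x) (planBase d')) :=
    fun x => U7_av_plan (fun o => K (plan x) o)
  rw [av_congr h1]
  rw [av_add, av_mul_left, av_mul_left, U7_av_plan (fun o => K o planDev),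
    U7_av_plan (fun o => av (fun d' => K o (planBase d')))]
  ring

/-- weighted sum over the base plans -/
noncomputable def U7_W (G : (Fin 6 → Option (Fin 2)) → ℝ) : ℝ :=
  ∑ a : Bool, ∑ b : Bool, ∑ c : Bool,
        ((if a then 3 / 4 else 1 / 4) * (if b then 3 / 4 else 1 / 4) * (if c then 3 / 4 else 1 / 4)) *
          G (U7_pb ![a, b, c])

/-- averaged kernels -/
noncomputable def U7_kg (z : ℝ) (o o' : Fin 6 → Option (Fin 2)) : ℝ :=
  (1 / 4) * ∑ A : Fin 2, ∑ B : Fin 2, gsum z A B o o'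

noncomputable def U7_kd (z : ℝ) (o o' : Fin 6 → Option (Fin 2)) : ℝ :=
  (1 / 4) * ∑ A : Fin 2, ∑ B : Fin 2, dprod z A B o o'

lemma U7_kg22 (z : ℝ) : U7_kg z planDev planDev = 2 + 2 * z + z ^ 2 - 2 * z ^ 3 := by
  simp [U7_kg, U7_gsum, planDev, gE, cE]
  ring

lemma U7_kg12 (z : ℝ) : av (fun d => U7_kg z planDev (planBase d)) = 259 / 128 - 333 / 512 * z := by
  rw [U7_av_base (fun o => U7_kg z planDev o)]
  simp [U7_kg, U7_gsum, planDev, U7_pb, gE, cE]
  ring

lemma U7_kg21 (z : ℝ) : av (fun d => U7_kg z (planBase d) planDev) = 259 / 128 - 333 / 512 * z := by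
  rw [U7_av_base (fun o => U7_kg z o planDev)]
  simp [U7_kg, U7_gsum, planDev, U7_pb, gE, cE]
  ring


lemma U7_kd22 (z : ℝ) : U7_kd z planDev planDev = z ^ 3 := by
  simp [U7_kd, U7_dprod, planDev, cE]
  ring

lemma U7_kd12 (z : ℝ) : av (fun d => U7_kd z planDev (planBase d)) = 3 * z / 256 := by
  rw [U7_av_base (fun o => U7_kd z planDev o)]
  simp [U7_kd, U7_dprod, planDev, U7_pb, cE]
  ring

lemma U7_kd21 (z : ℝ) : av (fun d => U7_kd z (planBase d) planDev) = 3 * z / 256 := by
  rw [U7_av_base (fun o => U7_kd z o planDev)]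
  simp [U7_kd, U7_dprod, planDev, U7_pb, cE]
  ring

lemma U7_kg11 (z : ℝ) : av (fun d => av (fun d' => U7_kg z (planBase d) (planBase d'))) =
    (3549 - 351 * z ^ 2 - 405 * z ^ 4 - 729 * z ^ 6) / 2048 := by
  have hin : ∀ d : Fin 3 → Fin 4, av (fun d' => U7_kg z (planBase d) (planBase d')) =
      U7_W (U7_kg z (planBase d)) := fun d => U7_av_base (U7_kg z (planBase d))
  rw [av_congr hin, U7_av_base (fun o => U7_W (U7_kg z o))]
  unfold U7_W
  simp [U7_kg, U7_gsum, U7_pb, gE, cE]
  ring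

lemma U7_kd11 (z : ℝ) : av (fun d => av (fun d' => U7_kd z (planBase d) (planBase d'))) =
    ((1 + 9 * z ^ 2) / 16) ^ 3 := by
  have hin : ∀ d : Fin 3 → Fin 4, av (fun d' => U7_kd z (planBase d) (planBase d')) =
      U7_W (U7_kd z (planBase d)) := fun d => U7_av_base (U7_kd z (planBase d))
  rw [av_congr hin, U7_av_base (fun o => U7_W (U7_kd z o))]
  unfold U7_W
  simp [U7_kd, U7_dprod, U7_pb, cE]
  ring

theorem GG_eq (z : ℝ) : GG z = (99 / 100) ^ 2 * ((3549 - 351 * z ^ 2 - 405 * z ^ 4 - 729 * z ^ 6) / 2048) +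
    2 * (1 / 100) * (99 / 100) * (259 / 128 - 333 / 512 * z) +
    (1 / 100) ^ 2 * (2 + 2 * z + z ^ 2 - 2 * z ^ 3) := by
  have h : GG z = av (fun p : PS × PS => U7_kg z (plan p.1) (plan p.2)) := rfl
  rw [h, U7_kernel (U7_kg z), U7_kg22, U7_kg12, U7_kg21, U7_kg11]
  ring

theorem DD_eq (z : ℝ) : DD z = (99 / 100) ^ 2 * ((1 + 9 * z ^ 2) / 16) ^ 3 +
    2 * (1 / 100) * (99 / 100) * (3 * z / 256) + (1 / 100) ^ 2 * z ^ 3 := by
  have h : DD z = av (fun p : PS × PS => U7_kd z (plan p.1) (plan p.2)) := rfl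
  rw [h, U7_kernel (U7_kd z), U7_kd22, U7_kd12, U7_kd21, U7_kd11]
  ring

end H50R
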