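import Pool.Agent.Lib.H50R.U0
import Pool.Agent.Lib.H50R.U6
import Pool.Agent.Lib.H50R.U7

/-!
# H50R, chunk U8 (M): numerical upper bound 0.82883

Proof. z = exp(-1/2), z^2 = exp(-1); GG_eq, DD_eq, restart and psurv_sum.
-/

open scoped ENNReal

namespace H50R

open Pool.Agent.RdvTour

lemma U8_z2 : Real.exp (-(1 / 2)) ^ 2 = Real.exp (-1) := by
  rw [← Real.exp_nat_mul]; norm_num

lemma U8_e : 0.3678794411 < Real.exp (-1) ∧ Real.exp (-1) < 0.3678794413 := by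
  have h1 := Real.exp_one_gt_d9
  have h2 := Real.exp_one_lt_d9
  rw [Real.exp_neg]
  constructor
  · rw [lt_inv_comm₀ (by norm_num) (by positivity)]
    refine h2.trans_le ?_
    norm_num
  · rw [inv_lt_comm₀ (by positivity) (by norm_num)]
    refine lt_of_le_of_lt ?_ h1
    norm_num

lemma U8_z : 0.606530659 < Real.exp (-(1 / 2)) ∧ Real.exp (-(1 / 2)) < 0.606530661 := by
  have h := U8_z2
  obtain ⟨h1, h2⟩ := U8_e
  have hpos := Real.exp_pos (-(1 / 2))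
  constructor
  · nlinarith
  · nlinarith

lemma U8_num : GG (Real.exp (-(1 / 2))) ≤ 2 * 0.8288235 * (1 - DD (Real.exp (-(1 / 2)))) ∧
    DD (Real.exp (-(1 / 2))) ≤ 0.02 ∧ 0 ≤ DD (Real.exp (-(1 / 2))) := by
  obtain ⟨z1, z2⟩ := U8_z
  have h := U8_z2
  obtain ⟨e1, e2⟩ := U8_e
  rw [GG_eq, DD_eq]
  set z := Real.exp (-(1 / 2)) with hz
  set e := Real.exp (-1) with he
  have h4 : z ^ 4 = e ^ 2 := by rw [← h]; ring
  have h6 : z ^ 6 = e ^ 3 := by rw [← h]; ring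
  have h3 : z ^ 3 = z * e := by rw [← h]; ring
  have e4l : (0.3678794411 : ℝ) ^ 2 ≤ e ^ 2 := by gcongr
  have e4u : e ^ 2 ≤ (0.3678794413 : ℝ) ^ 2 := by gcongr
  have e6l : (0.3678794411 : ℝ) ^ 3 ≤ e ^ 3 := by gcongr
  have e6u : e ^ 3 ≤ (0.3678794413 : ℝ) ^ 3 := by gcongr
  have zel : (0.606530659 : ℝ) * 0.3678794411 ≤ z * e := by
    apply mul_le_mul z1.le e1.le (by norm_num) (by positivity)
  have zeu : z * e ≤ (0.606530661 : ℝ) * 0.3678794413 := by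
    apply mul_le_mul z2.le e2.le (by positivity) (by norm_num)
  have hd : ((1 + 9 * z ^ 2) / 16) ^ 3 = (1 + 27 * e + 243 * e ^ 2 + 729 * e ^ 3) / 4096 := by
    rw [h]; ring
  rw [hd, h, h4, h6, h3]
  refine ⟨?_, ?_, ?_⟩
  · norm_num at *
    nlinarith
  · norm_num at *
    nlinarith
  · positivity

theorem upper_final : ∃ m0 : ℕ, ∀ m : ℕ, m0 ≤ m →
    value (m + 2) ≤ ENNReal.ofReal (0.82883 * ((m : ℝ) + 2)) := by
  obtain ⟨m0, hm0⟩ := psurv_sum (1 / 10 ^ 7) (by norm_num)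
  refine ⟨m0, fun m hm => ?_⟩
  obtain ⟨h1, h2⟩ := hm0 m hm
  obtain ⟨n1, n2, n3⟩ := U8_num
  have hv := value_lt_top m
  have hr := restart m (path m) (1 + 6 * hh m)
  set V : ℝ := (value (m + 2)).toReal with hV
  have hVv : value (m + 2) = ENNReal.ofReal V := (ENNReal.ofReal_toReal hv.ne).symm
  have hV0 : 0 ≤ V := ENNReal.toReal_nonneg
  have hp0 : ∀ t, 0 ≤ psurv (m + 2) (path m) t := by
    intro t
    unfold psurv
    exact av_nonneg fun σ => av_nonneg fun w => nt_nonneg _ _ _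
  set S : ℝ := ∑ t ∈ Finset.range (1 + 6 * hh m), psurv (m + 2) (path m) t with hS
  set P : ℝ := psurv (m + 2) (path m) (1 + 6 * hh m) with hP
  have hP0 : 0 ≤ P := hp0 _
  have hS0 : 0 ≤ S := Finset.sum_nonneg fun t _ => hp0 t
  rw [hVv, ← ENNReal.ofReal_sum_of_nonneg (fun t _ => hp0 t), ← ENNReal.ofReal_mul hP0, ← hS,
    ← ENNReal.ofReal_add hS0 (mul_nonneg hP0 hV0), ENNReal.ofReal_le_ofReal_iff
      (add_nonneg hS0 (mul_nonneg hP0 hV0))] at hr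
  rw [hVv]
  apply ENNReal.ofReal_le_ofReal
  set G := GG (Real.exp (-(1 / 2)))
  set D := DD (Real.exp (-(1 / 2)))
  have hh2 : (2 : ℝ) * (hh m : ℝ) ≤ (m : ℝ) + 2 := by exact_mod_cast two_hh_le m
  have hh0 : (0 : ℝ) ≤ (hh m : ℝ) := Nat.cast_nonneg _
  -- V (1 - P) ≤ S
  have e1 : V * (1 - P) ≤ S := by linarith
  have e2 : 1 - D - 1 / 10 ^ 7 ≤ 1 - P := by linarith
  have e3 : V * (1 - D - 1 / 10 ^ 7) ≤ (hh m : ℝ) * (G + 1 / 10 ^ 7) := by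
    calc V * (1 - D - 1 / 10 ^ 7) ≤ V * (1 - P) := mul_le_mul_of_nonneg_left e2 hV0
      _ ≤ S := e1
      _ ≤ _ := h1
  have e4 : G + 1 / 10 ^ 7 ≤ 2 * 0.82883 * (1 - D - 1 / 10 ^ 7) := by
    norm_num at *
    linarith
  have hpos : 0 < 1 - D - 1 / 10 ^ 7 := by
    norm_num at *
    linarith
  have e5 : V * (1 - D - 1 / 10 ^ 7) ≤ (0.82883 * ((m : ℝ) + 2)) * (1 - D - 1 / 10 ^ 7) := by
    calc V * (1 - D - 1 / 10 ^ 7) ≤ (hh m : ℝ) * (G + 1 / 10 ^ 7) := e3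
      _ ≤ (hh m : ℝ) * (2 * 0.82883 * (1 - D - 1 / 10 ^ 7)) := mul_le_mul_of_nonneg_left e4 hh0
      _ = 0.82883 * (2 * (hh m : ℝ)) * (1 - D - 1 / 10 ^ 7) := by ring
      _ ≤ 0.82883 * ((m : ℝ) + 2) * (1 - D - 1 / 10 ^ 7) :=
        mul_le_mul_of_nonneg_right (mul_le_mul_of_nonneg_left hh2 (by norm_num)) hpos.le
  exact le_of_mul_le_mul_right e5 hpos

end H50R
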