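import Pool.Agent.Lib.H50R.L9
import Pool.Agent.Lib.H50R.U8

/-! # H50R: final theorem -/

open MeasureTheory
open scoped ENNReal

namespace H50R

open Pool.Agent.RdvTour

theorem main : ∃ m0 : ℕ, ∀ m : ℕ, m0 ≤ m →
    value (m + 2) ≤ ENNReal.ofReal (0.82883 * ((m : ℝ) + 2)) ∧
    ∀ (D : Measure (ℕ → Bool)) [IsProbabilityMeasure D],
      ENNReal.ofReal (0.82888 * ((m : ℝ) + 2)) ≤ expTime (m + 2) (tourLaw m D) := by
  obtain ⟨a, ha⟩ := upper_final
  obtain ⟨b, hb⟩ := lower_final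
  refine ⟨max a b, fun m hm => ⟨ha m (le_trans (le_max_left _ _) hm), ?_⟩⟩
  intro D _
  exact hb m (le_trans (le_max_right _ _) hm) D

end H50R
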