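import Pool.Agent.Lib.H50R.Basic

/-!
# H50R, chunk Q1 (M): inclusion-exclusion formula for q

Proof. The indicator is sum over J of (-1)^|J| times the indicator of coincidences on J; with
π' = π τ the average of the latter is (average of ind (π J below M)) * (average of ind (τ fixes J)).
-/

namespace H50R

open Finset

lemma Q1_swap {h : ℕ} (G : Equiv.Perm (Fin h) → ℝ) (j j' : Fin h) :
    av (fun π : Equiv.Perm (Fin h) => G (π * Equiv.swap j j')) = av G :=
  av_equiv (Equiv.mulRight (Equiv.swap j j')) G

lemma Q1_A {h : ℕ} (T J : Finset (Fin h)) :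
    av (fun π : Equiv.Perm (Fin h) => ind (∀ j ∈ J, π j ∈ T)) =
      (T.card.descFactorial J.card : ℝ) / (h.descFactorial J.card : ℝ) := by
  classical
  induction J using Finset.induction_on with
  | empty =>
    rw [av_congr (g := fun _ => 1), av_const]
    · simp
    · intro π; exact ind_of_true (by simp)
  | insert j0 J hj0 ih =>
    have hcard : J.card < h := by
      simpa using Finset.card_lt_univ_of_notMem hj0
    set F : Equiv.Perm (Fin h) → ℝ := fun π => ind (∀ j ∈ J, π j ∈ T) with hF
    have h1 : ∀ π : Equiv.Perm (Fin h), F π * ∑ j ∈ univ \ J, ind (π j ∈ T) =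
        ((T.card : ℝ) - J.card) * F π := by
      intro π
      by_cases hπ : ∀ j ∈ J, π j ∈ T
      · have hFπ : F π = 1 := ind_of_true hπ
        rw [hFπ, one_mul, mul_one]
        have h2 : ∑ j ∈ univ \ J, ind (π j ∈ T) + ∑ j ∈ J, ind (π j ∈ T) = ∑ j, ind (π j ∈ T) :=
          Finset.sum_sdiff (Finset.subset_univ J)
        have h3 : ∑ j ∈ J, ind (π j ∈ T) = J.card := by
          rw [Finset.sum_congr rfl (fun j hj => ind_of_true (hπ j hj))]
          simp
        have h4 : ∑ j, ind (π j ∈ T) = T.card := by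
          rw [Equiv.sum_comp π (fun x => ind (x ∈ T))]
          have : ∀ x : Fin h, ind (x ∈ T) = if x ∈ T then 1 else 0 := by
            intro x; unfold ind; split_ifs <;> rfl
          rw [Finset.sum_congr rfl (fun x _ => this x)]
          simp
        linarith
      · have hFπ : F π = 0 := ind_of_false hπ
        rw [hFπ]; ring
    have h2 : ∀ j ∈ univ \ J, av (fun π => F π * ind (π j ∈ T)) = av (fun π => F π * ind (π j0 ∈ T)) := by
      intro j hj
      have hjJ : j ∉ J := (Finset.mem_sdiff.1 hj).2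
      rw [← Q1_swap (fun π => F π * ind (π j0 ∈ T)) j j0]
      refine av_congr fun π => ?_
      congr 1
      · refine ind_congr (forall₂_congr fun i hi => ?_)
        have : Equiv.swap j j0 i = i :=
          Equiv.swap_apply_of_ne_of_ne (fun h => hjJ (h ▸ hi)) (fun h => hj0 (h ▸ hi))
        simp [this]
      · simp
    have h3 : ((h : ℝ) - J.card) * av (fun π => F π * ind (π j0 ∈ T)) = ((T.card : ℝ) - J.card) * av F := by
      have h4 : ∑ j ∈ univ \ J, av (fun π => F π * ind (π j ∈ T)) = ((T.card : ℝ) - J.card) * av F := by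
        rw [← av_sum, ← av_mul_left]
        refine av_congr fun π => ?_
        rw [← h1 π, Finset.mul_sum]
      rw [Finset.sum_congr rfl h2, Finset.sum_const, nsmul_eq_mul] at h4
      rw [← h4]
      congr 1
      have : (univ \ J).card = h - J.card := by
        rw [Finset.card_sdiff_of_subset (Finset.subset_univ J), Finset.card_univ, Fintype.card_fin]
      rw [this, Nat.cast_sub hcard.le]
    have h5 : av (fun π : Equiv.Perm (Fin h) => ind (∀ j ∈ insert j0 J, π j ∈ T)) =
        av (fun π => F π * ind (π j0 ∈ T)) := by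
      refine av_congr fun π => ?_
      rw [← ind_and]
      refine ind_congr ?_
      rw [Finset.forall_mem_insert, and_comm]
    rw [h5, Finset.card_insert_of_notMem hj0, Nat.descFactorial_succ, Nat.descFactorial_succ]
    have hpos : (0 : ℝ) < (h : ℝ) - J.card := by
      have : (J.card : ℝ) < h := by exact_mod_cast hcard
      linarith
    have hdf : (0 : ℝ) < (h.descFactorial J.card : ℝ) := by
      exact_mod_cast Nat.descFactorial_pos.2 hcard.le
    push_cast
    rw [Nat.cast_sub hcard.le]
    have h6 : ((T.card - J.card : ℕ) : ℝ) * (T.card.descFactorial J.card : ℝ) =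
        ((T.card : ℝ) - J.card) * (T.card.descFactorial J.card : ℝ) := by
      by_cases hle : J.card ≤ T.card
      · rw [Nat.cast_sub hle]
      · rw [Nat.descFactorial_of_lt (not_le.1 hle)]; simp
    rw [h6, eq_div_iff (by positivity)]
    have h7 : av F * (h.descFactorial J.card : ℝ) = (T.card.descFactorial J.card : ℝ) := by
      rw [ih]; field_simp
    calc av (fun π => F π * ind (π j0 ∈ T)) * (((h : ℝ) - J.card) * (h.descFactorial J.card : ℝ))
        = (((h : ℝ) - J.card) * av (fun π => F π * ind (π j0 ∈ T))) * (h.descFactorial J.card : ℝ) := by ring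
      _ = ((T.card : ℝ) - J.card) * (av F * (h.descFactorial J.card : ℝ)) := by rw [h3]; ring
      _ = _ := by rw [h7]

lemma Q1_B {h : ℕ} (J : Finset (Fin h)) :
    av (fun τ : Equiv.Perm (Fin h) => ind (∀ j ∈ J, τ j = j)) =
      1 / (h.descFactorial J.card : ℝ) := by
  classical
  induction J using Finset.induction_on with
  | empty =>
    rw [av_congr (g := fun _ => 1), av_const]
    · simp
    · intro π; exact ind_of_true (by simp)
  | insert j0 J hj0 ih =>
    have hcard : J.card < h := by
      simpa using Finset.card_lt_univ_of_notMem hj0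
    set F : Equiv.Perm (Fin h) → ℝ := fun π => ind (∀ j ∈ J, π j = j) with hF
    have h1 : ∀ π : Equiv.Perm (Fin h), F π * ∑ j ∈ univ \ J, ind (π j = j0) = F π := by
      intro π
      by_cases hπ : ∀ j ∈ J, π j = j
      · have hFπ : F π = 1 := ind_of_true hπ
        rw [hFπ, one_mul]
        rw [Finset.sum_eq_single (π.symm j0)]
        · exact ind_of_true (by simp)
        · intro b _ hb
          refine ind_of_false fun h => hb ?_
          rw [← h]; simp
        · intro hn
          exfalso
          apply hn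
          rw [Finset.mem_sdiff]
          refine ⟨Finset.mem_univ _, fun hmem => ?_⟩
          have := hπ _ hmem
          rw [Equiv.apply_symm_apply] at this
          exact hj0 (this ▸ hmem)
      · have hFπ : F π = 0 := ind_of_false hπ
        rw [hFπ]; ring
    have h2 : ∀ j ∈ univ \ J, av (fun π => F π * ind (π j = j0)) = av (fun π => F π * ind (π j0 = j0)) := by
      intro j hj
      have hjJ : j ∉ J := (Finset.mem_sdiff.1 hj).2
      rw [← Q1_swap (fun π => F π * ind (π j0 = j0)) j j0]
      refine av_congr fun π => ?_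
      congr 1
      · refine ind_congr (forall₂_congr fun i hi => ?_)
        have : Equiv.swap j j0 i = i :=
          Equiv.swap_apply_of_ne_of_ne (fun h => hjJ (h ▸ hi)) (fun h => hj0 (h ▸ hi))
        simp [this]
      · simp
    have h3 : ((h : ℝ) - J.card) * av (fun π => F π * ind (π j0 = j0)) = av F := by
      have h4 : ∑ j ∈ univ \ J, av (fun π => F π * ind (π j = j0)) = av F := by
        rw [← av_sum]
        refine av_congr fun π => ?_
        rw [← Finset.mul_sum]
        exact h1 π
      rw [Finset.sum_congr rfl h2, Finset.sum_const, nsmul_eq_mul] at h4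
      rw [← h4]
      congr 1
      have : (univ \ J).card = h - J.card := by
        rw [Finset.card_sdiff_of_subset (Finset.subset_univ J), Finset.card_univ, Fintype.card_fin]
      rw [this, Nat.cast_sub hcard.le]
    have h5 : av (fun π : Equiv.Perm (Fin h) => ind (∀ j ∈ insert j0 J, π j = j)) =
        av (fun π => F π * ind (π j0 = j0)) := by
      refine av_congr fun π => ?_
      rw [← ind_and]
      refine ind_congr ?_
      rw [Finset.forall_mem_insert, and_comm]
    rw [h5, Finset.card_insert_of_notMem hj0, Nat.descFactorial_succ]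
    have hpos : (0 : ℝ) < (h : ℝ) - J.card := by
      have : (J.card : ℝ) < h := by exact_mod_cast hcard
      linarith
    have hdf : (0 : ℝ) < (h.descFactorial J.card : ℝ) := by
      exact_mod_cast Nat.descFactorial_pos.2 hcard.le
    push_cast
    rw [Nat.cast_sub hcard.le, eq_div_iff (by positivity)]
    calc av (fun π => F π * ind (π j0 = j0)) * (((h : ℝ) - J.card) * (h.descFactorial J.card : ℝ))
        = (((h : ℝ) - J.card) * av (fun π => F π * ind (π j0 = j0))) * (h.descFactorial J.card : ℝ) := by ring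
      _ = 1 := by rw [h3, ih]; field_simp

lemma Q1_ind_forall {ι : Type*} (s : Finset ι) (p : ι → Prop) :
    ind (∀ i ∈ s, p i) = ∏ i ∈ s, ind (p i) := by
  classical
  induction s using Finset.induction_on with
  | empty => simp [ind_of_true]
  | insert a s ha ih =>
    rw [Finset.prod_insert ha, ← ih, ← ind_and]
    exact ind_congr (by rw [Finset.forall_mem_insert])

lemma Q1_ind_not (p : Prop) : ind (¬ p) = 1 - ind p := by
  by_cases hp : p
  · rw [ind_of_true hp, ind_of_false (not_not.2 hp)]; ring
  · rw [ind_of_false hp, ind_of_true hp]; ring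

lemma Q1_J {h : ℕ} (M : ℕ) (hM : M ≤ h) (J : Finset (Fin h)) :
    av (fun p : Equiv.Perm (Fin h) × Equiv.Perm (Fin h) =>
      ind (∀ j ∈ J, (p.1 j = p.2 j ∧ (p.1 j : ℕ) < M))) =
      (M.descFactorial J.card : ℝ) / ((h.descFactorial J.card : ℝ)) ^ 2 := by
  classical
  set T : Finset (Fin h) := univ.filter (fun x : Fin h => (x : ℕ) < M) with hT
  have hTc : T.card = M := by rw [hT, Fin.card_filter_val_lt, min_eq_right hM]
  have h1 : av (fun p : Equiv.Perm (Fin h) × Equiv.Perm (Fin h) =>
      ind (∀ j ∈ J, (p.1 j = p.2 j ∧ (p.1 j : ℕ) < M))) =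
      av (fun p : Equiv.Perm (Fin h) × Equiv.Perm (Fin h) =>
        ind (∀ j ∈ J, p.1 j ∈ T) * ind (∀ j ∈ J, p.2 j = j)) := by
    rw [av_prod, av_prod]
    refine av_congr fun π => ?_
    refine Eq.trans ?_ (av_equiv (Equiv.mulLeft π⁻¹) (fun τ : Equiv.Perm (Fin h) =>
      ind (∀ j ∈ J, π j ∈ T) * ind (∀ j ∈ J, τ j = j)))
    refine av_congr fun τ => ?_
    rw [← ind_and]
    refine ind_congr ?_
    simp only [Equiv.coe_mulLeft, Equiv.Perm.mul_apply, Equiv.Perm.inv_eq_iff_eq, hT, Finset.mem_filter,
      Finset.mem_univ, true_and]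
    constructor
    · intro hp
      exact ⟨fun j hj => (hp j hj).2, fun j hj => (hp j hj).1.symm⟩
    · rintro ⟨ha, hb⟩ j hj
      exact ⟨(hb j hj).symm, ha j hj⟩
  rw [h1, av_mul_prod (fun π : Equiv.Perm (Fin h) => ind (∀ j ∈ J, π j ∈ T))
    (fun τ : Equiv.Perm (Fin h) => ind (∀ j ∈ J, τ j = j)), Q1_A, Q1_B, hTc]
  ring

theorem q_formula (h M s : ℕ) (hM : M ≤ h) (hs : s ≤ h) :
    q h M s = ∑ k ∈ range (s + 1), (-1 : ℝ) ^ k * (s.choose k : ℝ) *
      ((M.descFactorial k : ℝ) / ((h.descFactorial k : ℝ)) ^ 2) := by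
  classical
  set T : Finset (Fin h) := univ.filter (fun x : Fin h => (x : ℕ) < s) with hT
  have hTc : T.card = s := by rw [hT, Fin.card_filter_val_lt, min_eq_right hs]
  have h1 : ∀ p : Equiv.Perm (Fin h) × Equiv.Perm (Fin h),
      ind (∀ j : Fin h, (j : ℕ) < s → ¬ (p.1 j = p.2 j ∧ (p.1 j : ℕ) < M)) =
      ∑ J ∈ T.powerset, (-1 : ℝ) ^ J.card * ind (∀ j ∈ J, (p.1 j = p.2 j ∧ (p.1 j : ℕ) < M)) := by
    intro p
    have h2 : ind (∀ j : Fin h, (j : ℕ) < s → ¬ (p.1 j = p.2 j ∧ (p.1 j : ℕ) < M)) =
        ∏ j ∈ T, (-ind (p.1 j = p.2 j ∧ (p.1 j : ℕ) < M) + 1) := by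
      rw [ind_congr (p' := ∀ j ∈ T, ¬ (p.1 j = p.2 j ∧ (p.1 j : ℕ) < M)) (by simp [hT]), Q1_ind_forall]
      refine Finset.prod_congr rfl fun j _ => ?_
      rw [Q1_ind_not]; ring
    rw [h2, Finset.prod_add]
    refine Finset.sum_congr rfl fun J _ => ?_
    rw [Finset.prod_const_one, mul_one, Q1_ind_forall, ← Finset.prod_const, ← Finset.prod_mul_distrib]
    refine Finset.prod_congr rfl fun j _ => ?_
    ring
  unfold q
  rw [av_congr h1, av_sum]
  have h3 : ∀ J ∈ T.powerset, av (fun p : Equiv.Perm (Fin h) × Equiv.Perm (Fin h) =>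
      (-1 : ℝ) ^ J.card * ind (∀ j ∈ J, (p.1 j = p.2 j ∧ (p.1 j : ℕ) < M))) =
      (fun k : ℕ => (-1 : ℝ) ^ k * ((M.descFactorial k : ℝ) / ((h.descFactorial k : ℝ)) ^ 2)) J.card := by
    intro J _
    rw [av_mul_left, Q1_J M hM J]
  rw [Finset.sum_congr rfl h3, Finset.sum_powerset_apply_card (fun k : ℕ => (-1 : ℝ) ^ k *
    ((M.descFactorial k : ℝ) / ((h.descFactorial k : ℝ)) ^ 2)), hTc]
  refine Finset.sum_congr rfl fun k _ => ?_
  rw [nsmul_eq_mul]
  ring

end H50R
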