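import Pool.Agent.Lib.H50R.Q1

/-!
# H50R, chunk Q2 (M): the Poisson limit of q, uniformly in M and s

Proof. q_formula, domination of the terms by 1/k!, comparison of the first K terms with the terms of
the exponential series.
-/

namespace H50R

open Finset

/-- quotient of falling factorials against the power -/
lemma Q2_ratio (h x k : ℕ) (hx : x ≤ h) (hk : k < h) :
    |(x.descFactorial k : ℝ) / (h.descFactorial k : ℝ) - ((x : ℝ) / h) ^ k| ≤
      (k : ℝ) ^ 2 / ((h : ℝ) - k) := by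
  induction k with
  | zero => simp
  | succ k ih =>
    have hk' : k < h := by omega
    have ih' := ih hk'
    have hh : (0 : ℝ) < h := by
      have : 0 < h := by omega
      exact_mod_cast this
    have h1 : (0 : ℝ) < (h : ℝ) - k := by
      have : (k : ℝ) < h := by exact_mod_cast hk'
      linarith
    have h2 : (0 : ℝ) < (h : ℝ) - (k + 1 : ℕ) := by
      have : ((k + 1 : ℕ) : ℝ) < h := by exact_mod_cast hk
      linarith
    have hdf : (0 : ℝ) < (h.descFactorial k : ℝ) := by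
      exact_mod_cast Nat.descFactorial_pos.2 hk'.le
    set A : ℝ := (x.descFactorial k : ℝ) / (h.descFactorial k : ℝ) with hA
    set r : ℝ := ((x - k : ℕ) : ℝ) / ((h : ℝ) - k) with hr
    have hA1 : ((x.descFactorial (k + 1) : ℕ) : ℝ) / (h.descFactorial (k + 1) : ℝ) = r * A := by
      rw [Nat.descFactorial_succ, Nat.descFactorial_succ]
      push_cast
      rw [Nat.cast_sub hk'.le, hr, hA]
      field_simp
    have hxh : (x : ℝ) ≤ h := by exact_mod_cast hx
    have hr0 : 0 ≤ r := by positivity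
    have hxk : ((x - k : ℕ) : ℝ) ≤ (h : ℝ) - k := by
      have : x - k ≤ h - k := by omega
      have h3 : ((x - k : ℕ) : ℝ) ≤ ((h - k : ℕ) : ℝ) := by exact_mod_cast this
      rwa [Nat.cast_sub hk'.le] at h3
    have hr1 : r ≤ 1 := by rw [hr, div_le_one h1]; exact hxk
    have hy0 : 0 ≤ (x : ℝ) / h := by positivity
    have hy1 : (x : ℝ) / h ≤ 1 := by rw [div_le_one hh]; exact hxh
    have hrx : |r - (x : ℝ) / h| ≤ k / ((h : ℝ) - k) := by
      by_cases hle : k ≤ x
      · rw [hr, Nat.cast_sub hle]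
        have : ((x : ℝ) - k) / ((h : ℝ) - k) - (x : ℝ) / h = -(k * ((h : ℝ) - x) / h / ((h : ℝ) - k)) := by
          field_simp; ring
        rw [this, abs_neg, abs_of_nonneg (by
          apply div_nonneg _ h1.le
          apply div_nonneg _ hh.le
          apply mul_nonneg (Nat.cast_nonneg _)
          linarith)]
        gcongr
        rw [div_le_iff₀ hh]
        apply mul_le_mul_of_nonneg_left _ (Nat.cast_nonneg _)
        have : (0 : ℝ) ≤ x := Nat.cast_nonneg _
        linarith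
      · have hlt : x < k := not_le.1 hle
        have h0 : x - k = 0 := by omega
        rw [hr, h0]
        simp only [Nat.cast_zero, zero_div, zero_sub, abs_neg]
        rw [abs_of_nonneg hy0]
        have hxk2 : (x : ℝ) ≤ k := by exact_mod_cast hlt.le
        have : (0 : ℝ) ≤ k := Nat.cast_nonneg _
        exact div_le_div₀ this hxk2 h1 (by linarith)
    rw [hA1, pow_succ]
    have hyk : (0:ℝ) ≤ ((x : ℝ) / h) ^ k := by positivity
    have hyk1 : ((x : ℝ) / h) ^ k ≤ 1 := pow_le_one₀ hy0 hy1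
    have e1 : r * A - ((x : ℝ) / h) ^ k * ((x : ℝ) / h) =
        r * (A - ((x : ℝ) / h) ^ k) + ((x : ℝ) / h) ^ k * (r - (x : ℝ) / h) := by ring
    rw [e1]
    calc |r * (A - ((x : ℝ) / h) ^ k) + ((x : ℝ) / h) ^ k * (r - (x : ℝ) / h)|
        ≤ |r * (A - ((x : ℝ) / h) ^ k)| + |((x : ℝ) / h) ^ k * (r - (x : ℝ) / h)| := abs_add_le _ _
      _ = r * |A - ((x : ℝ) / h) ^ k| + ((x : ℝ) / h) ^ k * |r - (x : ℝ) / h| := by
        rw [abs_mul, abs_mul, abs_of_nonneg hr0, abs_of_nonneg hyk]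
      _ ≤ 1 * ((k : ℝ) ^ 2 / ((h : ℝ) - k)) + 1 * (k / ((h : ℝ) - k)) := by
        gcongr
      _ = ((k : ℝ) ^ 2 + k) / ((h : ℝ) - k) := by ring
      _ ≤ ((k + 1 : ℕ) : ℝ) ^ 2 / ((h : ℝ) - (k + 1 : ℕ)) := by
        have hk0 : (0 : ℝ) ≤ k := Nat.cast_nonneg _
        apply div_le_div₀ (by positivity) _ h2
        · push_cast; linarith
        · push_cast; nlinarith

lemma Q2_tail : ∀ η : ℝ, 0 < η → ∃ K : ℕ, 0 < K ∧ ((K.succ : ℝ) / (K.factorial * K : ℝ)) ≤ η := by
  intro η hη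
  have h1 : Filter.Tendsto (fun K : ℕ => (2 : ℝ) / (K : ℝ)) Filter.atTop (nhds 0) :=
    tendsto_const_div_atTop_nhds_zero_nat 2
  have h2 := (h1.eventually (gt_mem_nhds hη)).and (Filter.eventually_ge_atTop 1)
  obtain ⟨K, hK1, hK2⟩ := h2.exists
  refine ⟨K, hK2, ?_⟩
  have hKpos : (0 : ℝ) < K := by exact_mod_cast hK2
  refine le_trans ?_ hK1.le
  have hf : (K : ℝ) ≤ (K.factorial : ℝ) := by exact_mod_cast Nat.self_le_factorial K
  rw [div_le_div_iff₀ (by positivity) hKpos]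
  have hK1' : (1 : ℝ) ≤ K := by exact_mod_cast hK2
  push_cast
  nlinarith [mul_nonneg (sub_nonneg.2 hf) hKpos.le]

theorem q_limit (η : ℝ) (hη : 0 < η) : ∃ h0 : ℕ, ∀ h : ℕ, h0 ≤ h → ∀ M : ℕ, M ≤ h → ∀ s : ℕ, s ≤ h →
    |q h M s - Real.exp (-((s : ℝ) * (M : ℝ) / (h : ℝ) ^ 2))| ≤ η := by
  obtain ⟨K, hK, hKη⟩ := Q2_tail (η / 4) (by linarith)
  obtain ⟨n1, hn1⟩ := exists_nat_gt ((K : ℝ) + 4 * (K : ℝ) ^ 3 / η)
  refine ⟨max n1 (K + 1), fun h hh M hM s hs => ?_⟩
  have hKh : K < h := lt_of_lt_of_le (Nat.lt_succ_self K) (le_trans (le_max_right _ _) hh)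
  have hh' : (K : ℝ) + 4 * (K : ℝ) ^ 3 / η < h := by
    refine lt_of_lt_of_le hn1 ?_
    exact_mod_cast le_trans (le_max_left _ _) hh
  have hhpos : (0 : ℝ) < h := by
    have : 0 < h := by omega
    exact_mod_cast this
  have hKpos : (0 : ℝ) < K := by exact_mod_cast hK
  have hhK : (0 : ℝ) < (h : ℝ) - K := by
    have : (0 : ℝ) ≤ 4 * (K : ℝ) ^ 3 / η := by positivity
    linarith
  set x : ℝ := (s : ℝ) * (M : ℝ) / (h : ℝ) ^ 2 with hx
  have hsh : (s : ℝ) ≤ h := by exact_mod_cast hs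
  have hMh : (M : ℝ) ≤ h := by exact_mod_cast hM
  have hx0 : 0 ≤ x := by positivity
  have hx1 : x ≤ 1 := by
    rw [hx, div_le_one (by positivity), pow_two]
    exact mul_le_mul hsh hMh (Nat.cast_nonneg _) hhpos.le
  -- the terms
  set a : ℕ → ℝ := fun k => (s.choose k : ℝ) * ((M.descFactorial k : ℝ) / ((h.descFactorial k : ℝ)) ^ 2)
    with ha
  have hq : q h M s = ∑ k ∈ range (max (s + 1) K), (-1 : ℝ) ^ k * a k := by
    rw [q_formula h M s hM hs]
    have : ∑ k ∈ range (s + 1), (-1 : ℝ) ^ k * a k = ∑ k ∈ range (max (s + 1) K), (-1 : ℝ) ^ k * a k := by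
      apply Finset.sum_subset
      · intro k hk
        rw [Finset.mem_range] at hk ⊢
        exact lt_of_lt_of_le hk (le_max_left _ _)
      · intro k _ hk
        rw [Finset.mem_range, not_lt] at hk
        rw [ha]
        simp only
        rw [Nat.choose_eq_zero_of_lt (by omega)]
        simp
    rw [← this]
    refine Finset.sum_congr rfl fun k _ => ?_
    rw [ha]; ring
  have ha0 : ∀ k, 0 ≤ a k := fun k => by rw [ha]; positivity
  have haf : ∀ k, a k = (1 / (k.factorial : ℝ)) * (((s.descFactorial k : ℝ) / (h.descFactorial k : ℝ)) *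
      ((M.descFactorial k : ℝ) / (h.descFactorial k : ℝ))) := by
    intro k
    have : (s.descFactorial k : ℝ) = (k.factorial : ℝ) * (s.choose k : ℝ) := by
      exact_mod_cast Nat.descFactorial_eq_factorial_mul_choose s k
    rw [ha, this]
    have hf : (k.factorial : ℝ) ≠ 0 := by exact_mod_cast k.factorial_ne_zero
    simp only
    field_simp
  have hratio : ∀ y k : ℕ, y ≤ h → (y.descFactorial k : ℝ) / (h.descFactorial k : ℝ) ≤ 1 := by
    intro y k hy
    apply div_le_one_of_le₀ _ (Nat.cast_nonneg _)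
    exact_mod_cast Nat.descFactorial_le k hy
  have hratio0 : ∀ y k : ℕ, 0 ≤ (y.descFactorial k : ℝ) / (h.descFactorial k : ℝ) := fun y k => by positivity
  have ha1 : ∀ k, a k ≤ 1 / (k.factorial : ℝ) := by
    intro k
    rw [haf]
    have h1 : (s.descFactorial k : ℝ) / (h.descFactorial k : ℝ) *
      ((M.descFactorial k : ℝ) / (h.descFactorial k : ℝ)) ≤ 1 :=
      mul_le_one₀ (hratio s k hs) (hratio0 M k) (hratio M k hM)
    have h2 : (0:ℝ) ≤ 1 / (k.factorial : ℝ) := by positivity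
    calc _ ≤ (1 / (k.factorial : ℝ)) * 1 := by gcongr
      _ = _ := mul_one _
  -- tail of q
  have hsplit : ∑ k ∈ range (max (s + 1) K), (-1 : ℝ) ^ k * a k =
      ∑ k ∈ range K, (-1 : ℝ) ^ k * a k +
        ∑ k ∈ (range (max (s + 1) K)).filter (fun k => K ≤ k), (-1 : ℝ) ^ k * a k := by
    rw [← Finset.sum_filter_add_sum_filter_not (range (max (s + 1) K)) (fun k => K ≤ k), add_comm]
    congr 1
    refine Finset.sum_congr ?_ fun _ _ => rfl
    ext k
    simp only [Finset.mem_filter, Finset.mem_range, not_le]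
    constructor
    · exact fun h => h.2
    · exact fun h => ⟨lt_of_lt_of_le h (le_max_right _ _), h⟩
  have htail : |∑ k ∈ (range (max (s + 1) K)).filter (fun k => K ≤ k), (-1 : ℝ) ^ k * a k| ≤ η / 4 := by
    refine (Finset.abs_sum_le_sum_abs _ _).trans ?_
    refine (Finset.sum_le_sum (g := fun k : ℕ => (1 : ℝ) / (k.factorial : ℝ)) fun k _ => ?_).trans ?_
    · rw [abs_mul, abs_pow, abs_neg, abs_one, one_pow, one_mul, abs_of_nonneg (ha0 k)]
      exact ha1 k
    · exact (Complex.sum_div_factorial_le K (max (s + 1) K) hK).trans hKη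
  -- the exponential
  have hexp : |Real.exp (-x) - ∑ k ∈ range K, (-x) ^ k / (k.factorial : ℝ)| ≤ η / 4 := by
    have h1 := Real.exp_bound (x := -x) (by rw [abs_neg, abs_of_nonneg hx0]; exact hx1) hK
    refine h1.trans ?_
    rw [abs_neg, abs_of_nonneg hx0]
    have h2 : x ^ K ≤ 1 := pow_le_one₀ hx0 hx1
    calc x ^ K * ((K.succ : ℝ) / (K.factorial * K : ℝ)) ≤ 1 * ((K.succ : ℝ) / (K.factorial * K : ℝ)) := by
          gcongr
      _ ≤ η / 4 := by rw [one_mul]; exact hKη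
  -- the first K terms
  have hfirst : ∀ k ∈ range K, |(-1 : ℝ) ^ k * a k - (-x) ^ k / (k.factorial : ℝ)| ≤
      2 * (K : ℝ) ^ 2 / ((h : ℝ) - K) := by
    intro k hk
    rw [Finset.mem_range] at hk
    have hkh : k < h := hk.trans hKh
    have hkK : (k : ℝ) ≤ K := by exact_mod_cast hk.le
    have e1 : (-x) ^ k = (-1) ^ k * (((s : ℝ) / h) ^ k * ((M : ℝ) / h) ^ k) := by
      have hx' : x = ((s : ℝ) / h) * ((M : ℝ) / h) := by rw [hx]; field_simp
      rw [neg_pow, hx', mul_pow]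
    have e2 : (-1 : ℝ) ^ k * a k - (-x) ^ k / (k.factorial : ℝ) =
        (-1 : ℝ) ^ k * (1 / (k.factorial : ℝ)) * (((s.descFactorial k : ℝ) / (h.descFactorial k : ℝ)) *
      ((M.descFactorial k : ℝ) / (h.descFactorial k : ℝ)) - ((s : ℝ) / h) ^ k * ((M : ℝ) / h) ^ k) := by
      rw [e1, haf]; ring
    rw [e2, abs_mul, abs_mul, abs_pow, abs_neg, abs_one, one_pow, one_mul]
    have hf : |(1 : ℝ) / (k.factorial : ℝ)| ≤ 1 := by
      rw [abs_of_nonneg (by positivity)]
      apply div_le_one_of_le₀ _ (Nat.cast_nonneg _)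
      exact_mod_cast Nat.factorial_pos k
    have hb : (k : ℝ) ^ 2 / ((h : ℝ) - k) ≤ (K : ℝ) ^ 2 / ((h : ℝ) - K) := by
      apply div_le_div₀ (by positivity) _ hhK (by linarith)
      gcongr
    have r1 := (Q2_ratio h s k hs hkh).trans hb
    have r2 := (Q2_ratio h M k hM hkh).trans hb
    set A := (s.descFactorial k : ℝ) / (h.descFactorial k : ℝ)
    set B := (M.descFactorial k : ℝ) / (h.descFactorial k : ℝ)
    set u := ((s : ℝ) / h) ^ k
    set v := ((M : ℝ) / h) ^ k
    have hA1 : |A| ≤ 1 := by rw [abs_of_nonneg (hratio0 s k)]; exact hratio s k hs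
    have hv1 : |v| ≤ 1 := by
      rw [abs_of_nonneg (by positivity)]
      exact pow_le_one₀ (by positivity) (by rw [div_le_one hhpos]; exact hMh)
    have e3 : A * B - u * v = A * (B - v) + (A - u) * v := by ring
    have h3 : |A * B - u * v| ≤ 2 * (K : ℝ) ^ 2 / ((h : ℝ) - K) := by
      rw [e3]
      calc |A * (B - v) + (A - u) * v| ≤ |A * (B - v)| + |(A - u) * v| := abs_add_le _ _
        _ = |A| * |B - v| + |A - u| * |v| := by rw [abs_mul, abs_mul]
        _ ≤ 1 * ((K : ℝ) ^ 2 / ((h : ℝ) - K)) + (K : ℝ) ^ 2 / ((h : ℝ) - K) * 1 := by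
          gcongr
        _ = _ := by ring
    calc |(1 : ℝ) / (k.factorial : ℝ)| * |A * B - u * v| ≤ 1 * (2 * (K : ℝ) ^ 2 / ((h : ℝ) - K)) := by
          gcongr
      _ = _ := one_mul _
  have hmid : |∑ k ∈ range K, (-1 : ℝ) ^ k * a k - ∑ k ∈ range K, (-x) ^ k / (k.factorial : ℝ)| ≤ η / 2 := by
    rw [← Finset.sum_sub_distrib]
    refine (Finset.abs_sum_le_sum_abs _ _).trans ?_
    refine (Finset.sum_le_sum hfirst).trans ?_
    rw [Finset.sum_const, Finset.card_range, nsmul_eq_mul]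
    have h4 : 4 * (K : ℝ) ^ 3 / η < (h : ℝ) - K := by linarith
    rw [div_lt_iff₀ hη] at h4
    rw [← mul_div_assoc, div_le_iff₀ hhK]
    nlinarith
  rw [hq, hsplit]
  have e : ∑ k ∈ range K, (-1 : ℝ) ^ k * a k +
        ∑ k ∈ (range (max (s + 1) K)).filter (fun k => K ≤ k), (-1 : ℝ) ^ k * a k - Real.exp (-x) =
      (∑ k ∈ range K, (-1 : ℝ) ^ k * a k - ∑ k ∈ range K, (-x) ^ k / (k.factorial : ℝ)) +
      ∑ k ∈ (range (max (s + 1) K)).filter (fun k => K ≤ k), (-1 : ℝ) ^ k * a k -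
      (Real.exp (-x) - ∑ k ∈ range K, (-x) ^ k / (k.factorial : ℝ)) := by ring
  rw [e]
  have t1 := abs_le.1 hmid
  have t2 := abs_le.1 htail
  have t3 := abs_le.1 hexp
  rw [abs_le]
  constructor <;> linarith [t1.1, t1.2, t2.1, t2.2, t3.1, t3.2]

end H50R
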