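import Pool.Agent.Lib.H50R.Basic

/-!
# H50R, chunk Q3 (S/M): general coincidences

Proof. Let e be a permutation of Fin h with (e x : ℕ) < S.card iff x ∈ S. Substitute
(π, π') -> (e ∘ π, e ∘ Φ⁻¹ ∘ π').
-/

namespace H50R

open Finset

lemma Q3_exists {h : ℕ} (S : Finset (Fin h)) :
    ∃ e : Equiv.Perm (Fin h), ∀ x, ((e x : Fin h) : ℕ) < S.card ↔ x ∈ S := by
  classical
  have hc : Fintype.card {x // x ∈ S} = Fintype.card {x : Fin h // (x : ℕ) < S.card} := by
    rw [Fintype.card_coe, Fintype.card_subtype, Fin.card_filter_val_lt]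
    have : S.card ≤ h := by simpa using S.card_le_univ
    omega
  let e0 : {x // x ∈ S} ≃ {x : Fin h // (x : ℕ) < S.card} := Fintype.equivOfCardEq hc
  refine ⟨e0.extendSubtype, fun x => ⟨fun hx => ?_, fun hx => ?_⟩⟩
  · by_contra hn
    exact e0.extendSubtype_not_mem x hn hx
  · exact e0.extendSubtype_mem x hx

theorem q_general {h : ℕ} (S : Finset (Fin h)) (Φ : Equiv.Perm (Fin h)) (s : ℕ) :
    av (fun p : Equiv.Perm (Fin h) × Equiv.Perm (Fin h) =>
      ind (∀ j : Fin h, (j : ℕ) < s → ¬ (p.1 j ∈ S ∧ Φ (p.1 j) = p.2 j))) = q h S.card s := by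
  obtain ⟨e, he⟩ := Q3_exists S
  unfold q
  refine Eq.trans ?_ (av_equiv (Equiv.prodCongr (Equiv.mulLeft e) (Equiv.mulLeft (e * Φ⁻¹)))
    (fun p : Equiv.Perm (Fin h) × Equiv.Perm (Fin h) =>
    ind (∀ j : Fin h, (j : ℕ) < s → ¬ (p.1 j = p.2 j ∧ (p.1 j : ℕ) < S.card))))
  refine av_congr fun p => ind_congr ?_
  refine forall_congr' fun j => forall_congr' fun _ => not_congr ?_
  simp only [Equiv.prodCongr_apply, Prod.map_fst, Prod.map_snd, Equiv.coe_mulLeft, Equiv.Perm.mul_apply, he,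
    EmbeddingLike.apply_eq_iff_eq, Equiv.Perm.eq_inv_iff_eq]
  exact and_comm

/-- q is antitone in M (fewer coincidences count). -/
theorem q_anti (h s : ℕ) {M M' : ℕ} (hM : M ≤ M') : q h M' s ≤ q h M s := by
  unfold q
  refine av_mono fun p => ind_mono fun hp j hj hc => hp j hj ⟨hc.1, lt_of_lt_of_le hc.2 hM⟩

end H50R
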