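import Pool.Agent.Lib.H50R.L6

/-!
# H50R, chunk U0 (M/L): restarting a strategy

Ω is a finite type of seeds, path a strategy with uniform seed, used for l days; then the player
relabels all places by a fresh uniform random permutation τ and plays an arbitrary strategy μ.
Proof. Let μ be a probability law on ℕ → Fin n, n = m + 2. Put on Ω the σ-algebra ⊤ and let ν be the image
of uniform Ω × (uniform (Perm (Fin n)) × μ) under
  (ω, τ, w) -> (d ↦ if d < l then path ω d else τ (w (d - l))).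
expTime_eq_tsum: expTime n ν = sum over σ₁, σ₂ of (n!)^{-2} times sum_t of the double integral of
ofReal (nt t ...). For t ≤ l only the prefix matters (nt_congr): the average over σ is
ofReal (psurv n path t). For t = l + t':
  nt (l + t') = nt l (prefixes) * nt t' (σ₁ τ w, σ₂ τ' w')
(for all d < l + t' splits into d < l and d = l + d'). Integrate (Tonelli, lintegral_map,
lintegral_uniform): for fixed σ₁, σ₂ and seeds ω, ω' the average over τ, τ' of the second factor equals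
the average over all pairs of permutations (substitute σ₁ τ, σ₂ τ'), which after integration over w, w'
is the quantity s_μ(t') = survival n μ t' (survival_eq) and does not depend on σ₁, σ₂. So
  expTime n ν = sum_(t<l) ofReal (psurv n path t) + ofReal (psurv n path l) * sum_t' s_μ(t')
and sum_t' s_μ(t') = expTime n μ. Hence value n ≤ A + B * expTime n μ for every μ (value_le; ν is a
probability measure). Take the infimum: B is finite and value n < ⊤ (value_lt_top), so for every ε > 0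
there is μ with expTime n μ ≤ value n + ε (or use ENNReal.mul_iInf_of_ne, ENNReal.add_iInf).
-/

open MeasureTheory
open scoped ENNReal

namespace H50R

open Pool.Agent.RdvTour

section

variable {m : ℕ} {Ω : Type} [Fintype Ω] [Nonempty Ω] [MeasurableSpace Ω] [DiscreteMeasurableSpace Ω]

/-- The new strategy as a function of its seeds. -/
def Psi (path : Ω → ℕ → Fin (m + 2)) (l : ℕ)
    (z : Ω × Equiv.Perm (Fin (m + 2)) × (ℕ → Fin (m + 2))) : ℕ → Fin (m + 2) :=
  fun d => if d < l then path z.1 d else z.2.1 (z.2.2 (d - l))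

lemma meas_Psi (path : Ω → ℕ → Fin (m + 2)) (l : ℕ) : Measurable (Psi path l) := by
  refine measurable_pi_iff.2 fun d => ?_
  unfold Psi
  by_cases hd : d < l
  · simp only [if_pos hd]
    have h1 : Measurable (fun ω : Ω => path ω d) := Measurable.of_discrete
    exact h1.comp measurable_fst
  · simp only [if_neg hd]
    have h1 : Measurable (fun y : Equiv.Perm (Fin (m + 2)) × Fin (m + 2) => y.1 y.2) :=
      Measurable.of_discrete
    have h2 : Measurable (fun z : Ω × Equiv.Perm (Fin (m + 2)) × (ℕ → Fin (m + 2)) =>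
        (z.2.1, z.2.2 (d - l))) :=
      (measurable_fst.comp measurable_snd).prodMk
        ((measurable_pi_apply (d - l)).comp (measurable_snd.comp measurable_snd))
    exact h1.comp h2

/-- The law of the new strategy. -/
noncomputable def nuR (path : Ω → ℕ → Fin (m + 2)) (l : ℕ) (μ : Measure (ℕ → Fin (m + 2))) :
    Measure (ℕ → Fin (m + 2)) :=
  ((uniform Ω).prod ((uniform (Equiv.Perm (Fin (m + 2)))).prod μ)).map (Psi path l)

instance (path : Ω → ℕ → Fin (m + 2)) (l : ℕ) (μ : Measure (ℕ → Fin (m + 2)))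
    [IsProbabilityMeasure μ] : IsProbabilityMeasure (nuR path l μ) :=
  Measure.isProbabilityMeasure_map (meas_Psi path l).aemeasurable

lemma U0_int (path : Ω → ℕ → Fin (m + 2)) (l : ℕ) (μ : Measure (ℕ → Fin (m + 2)))
    [IsProbabilityMeasure μ] (σ₁ σ₂ : Equiv.Perm (Fin (m + 2))) (t : ℕ) :
    ∫⁻ w₁, ∫⁻ w₂, ENNReal.ofReal (nt t (fun d => σ₁ (w₁ d)) (fun d => σ₂ (w₂ d)))
      ∂(nuR path l μ) ∂(nuR path l μ) =
    ∫⁻ ω, ∫⁻ ω', ∫⁻ τ, ∫⁻ τ', ∫⁻ w, ∫⁻ w',
      ENNReal.ofReal (nt t (fun d => σ₁ (Psi path l (ω, τ, w) d))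
        (fun d => σ₂ (Psi path l (ω', τ', w') d))) ∂μ ∂μ
      ∂(uniform (Equiv.Perm (Fin (m + 2)))) ∂(uniform (Equiv.Perm (Fin (m + 2))))
      ∂(uniform Ω) ∂(uniform Ω) := by
  have hmeas := measurable_ofReal_nt (m + 2) t σ₁ σ₂
  have h1 : ∫⁻ w₁, ∫⁻ w₂, ENNReal.ofReal (nt t (fun d => σ₁ (w₁ d)) (fun d => σ₂ (w₂ d)))
      ∂(nuR path l μ) ∂(nuR path l μ) =
      ∫⁻ z, ∫⁻ z', ENNReal.ofReal (nt t (fun d => σ₁ (Psi path l z d)) (fun d => σ₂ (Psi path l z' d)))
      ∂((uniform Ω).prod ((uniform (Equiv.Perm (Fin (m + 2)))).prod μ))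
      ∂((uniform Ω).prod ((uniform (Equiv.Perm (Fin (m + 2)))).prod μ)) := by
    have e1 : Measurable (fun w₁ : ℕ → Fin (m + 2) =>
        ∫⁻ w₂, ENNReal.ofReal (nt t (fun d => σ₁ (w₁ d)) (fun d => σ₂ (w₂ d))) ∂(nuR path l μ)) :=
      Measurable.lintegral_prod_right' hmeas
    have e2 : ∀ f : (ℕ → Fin (m + 2)) → ℝ≥0∞, Measurable f → ∫⁻ w, f w ∂(nuR path l μ) =
        ∫⁻ z, f (Psi path l z) ∂((uniform Ω).prod ((uniform (Equiv.Perm (Fin (m + 2)))).prod μ)) :=
      fun f hf => lintegral_map hf (meas_Psi path l)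
    rw [e2 _ e1]
    refine lintegral_congr fun z => ?_
    exact e2 _ (hmeas.comp measurable_prodMk_left)
  rw [h1]
  have hm : Measurable (fun p : (Ω × Equiv.Perm (Fin (m + 2)) × (ℕ → Fin (m + 2))) ×
      (Ω × Equiv.Perm (Fin (m + 2)) × (ℕ → Fin (m + 2))) =>
      ENNReal.ofReal (nt t (fun d => σ₁ (Psi path l p.1 d)) (fun d => σ₂ (Psi path l p.2 d)))) :=
    hmeas.comp (((meas_Psi path l).comp measurable_fst).prodMk ((meas_Psi path l).comp measurable_snd))
  exact L6_fubini (uniform Ω) (uniform (Equiv.Perm (Fin (m + 2)))) μ (fun z z' =>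
    ENNReal.ofReal (nt t (fun d => σ₁ (Psi path l z d)) (fun d => σ₂ (Psi path l z' d)))) hm

omit [Nonempty Ω] [MeasurableSpace Ω] [DiscreteMeasurableSpace Ω] in
lemma U0_sum (F : Equiv.Perm (Fin (m + 2)) → Equiv.Perm (Fin (m + 2)) → ℝ≥0∞) :
    ∑ σ₁ : Equiv.Perm (Fin (m + 2)), ∑ σ₂ : Equiv.Perm (Fin (m + 2)),
      (((m + 2).factorial : ℝ≥0∞)⁻¹ * ((m + 2).factorial : ℝ≥0∞)⁻¹) * F σ₁ σ₂ =
    ∫⁻ σ₁, ∫⁻ σ₂, F σ₁ σ₂ ∂(uniform (Equiv.Perm (Fin (m + 2))))
      ∂(uniform (Equiv.Perm (Fin (m + 2)))) := by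
  simp only [lintegral_uniform, Fintype.card_perm, Fintype.card_fin]
  rw [Finset.mul_sum]
  refine Finset.sum_congr rfl fun σ₁ _ => ?_
  rw [Finset.mul_sum, Finset.mul_sum]
  refine Finset.sum_congr rfl fun σ₂ _ => ?_
  rw [mul_assoc]

lemma U0_short (path : Ω → ℕ → Fin (m + 2)) (l : ℕ) (μ : Measure (ℕ → Fin (m + 2)))
    [IsProbabilityMeasure μ] (t : ℕ) (ht : t ≤ l) :
    survival (m + 2) (nuR path l μ) t = ENNReal.ofReal (psurv (m + 2) path t) := by
  rw [survival_eq, U0_sum]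
  have h1 : ∀ σ₁ σ₂ : Equiv.Perm (Fin (m + 2)), ∫⁻ w₁, ∫⁻ w₂, ENNReal.ofReal
      (nt t (fun d => σ₁ (w₁ d)) (fun d => σ₂ (w₂ d))) ∂(nuR path l μ) ∂(nuR path l μ) =
      ENNReal.ofReal (av (fun w : Ω × Ω =>
        nt t (fun d => σ₁ (path w.1 d)) (fun d => σ₂ (path w.2 d)))) := by
    intro σ₁ σ₂
    rw [U0_int]
    have e1 : ∀ (ω ω' : Ω) (τ τ' : Equiv.Perm (Fin (m + 2))) (w w' : ℕ → Fin (m + 2)),
        nt t (fun d => σ₁ (Psi path l (ω, τ, w) d)) (fun d => σ₂ (Psi path l (ω', τ', w') d)) =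
        nt t (fun d => σ₁ (path ω d)) (fun d => σ₂ (path ω' d)) := by
      intro ω ω' τ τ' w w'
      refine nt_congr (fun d hd => ?_) (fun d hd => ?_)
      · unfold Psi; simp only; rw [if_pos (lt_of_lt_of_le hd ht)]
      · unfold Psi; simp only; rw [if_pos (lt_of_lt_of_le hd ht)]
    simp only [e1, lintegral_const, measure_univ, mul_one]
    have e2 : ∀ ω : Ω, ∫⁻ ω', ENNReal.ofReal
        (nt t (fun d => σ₁ (path ω d)) (fun d => σ₂ (path ω' d))) ∂(uniform Ω) =
        ENNReal.ofReal (av (fun ω' : Ω =>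
          nt t (fun d => σ₁ (path ω d)) (fun d => σ₂ (path ω' d)))) := fun ω =>
      lintegral_uniform_ofReal _ fun ω' => nt_nonneg _ _ _
    rw [lintegral_congr e2, lintegral_uniform_ofReal _ fun ω => av_nonneg fun ω' => nt_nonneg _ _ _,
      av_prod]
  simp only [h1]
  have h2 : ∀ σ₁ : Equiv.Perm (Fin (m + 2)), ∫⁻ σ₂, ENNReal.ofReal (av (fun w : Ω × Ω =>
        nt t (fun d => σ₁ (path w.1 d)) (fun d => σ₂ (path w.2 d))))
        ∂(uniform (Equiv.Perm (Fin (m + 2)))) =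
      ENNReal.ofReal (av (fun σ₂ : Equiv.Perm (Fin (m + 2)) => av (fun w : Ω × Ω =>
        nt t (fun d => σ₁ (path w.1 d)) (fun d => σ₂ (path w.2 d))))) := fun σ₁ =>
    lintegral_uniform_ofReal _ fun σ₂ => av_nonneg fun w => nt_nonneg _ _ _
  rw [lintegral_congr h2, lintegral_uniform_ofReal _ fun σ₁ => av_nonneg fun σ₂ =>
    av_nonneg fun w => nt_nonneg _ _ _]
  unfold psurv
  rw [av_prod]

lemma U0_long (path : Ω → ℕ → Fin (m + 2)) (l : ℕ) (μ : Measure (ℕ → Fin (m + 2)))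
    [IsProbabilityMeasure μ] (t : ℕ) :
    survival (m + 2) (nuR path l μ) (t + l) =
      ENNReal.ofReal (psurv (m + 2) path l) * survival (m + 2) μ t := by
  set s : ℝ≥0∞ := survival (m + 2) μ t with hs
  have hs' : s = ∫⁻ τ, ∫⁻ τ', ∫⁻ w, ∫⁻ w', ENNReal.ofReal
      (nt t (fun d => τ (w d)) (fun d => τ' (w' d))) ∂μ ∂μ
      ∂(uniform (Equiv.Perm (Fin (m + 2)))) ∂(uniform (Equiv.Perm (Fin (m + 2)))) := by
    rw [hs, survival_eq, U0_sum]
  have hinv : ∀ σ₁ σ₂ : Equiv.Perm (Fin (m + 2)), ∫⁻ τ, ∫⁻ τ', ∫⁻ w, ∫⁻ w', ENNReal.ofReal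
      (nt t (fun d => σ₁ (τ (w d))) (fun d => σ₂ (τ' (w' d)))) ∂μ ∂μ
      ∂(uniform (Equiv.Perm (Fin (m + 2)))) ∂(uniform (Equiv.Perm (Fin (m + 2)))) = s := by
    intro σ₁ σ₂
    rw [hs']
    simp only [lintegral_uniform]
    congr 1
    refine Eq.trans ?_ (Equiv.sum_comp (Equiv.mulLeft σ₁) (fun τ : Equiv.Perm (Fin (m + 2)) =>
      (Fintype.card (Equiv.Perm (Fin (m + 2))) : ℝ≥0∞)⁻¹ * ∑ τ' : Equiv.Perm (Fin (m + 2)),
        ∫⁻ w, ∫⁻ w', ENNReal.ofReal (nt t (fun d => τ (w d)) (fun d => τ' (w' d))) ∂μ ∂μ))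
    refine Finset.sum_congr rfl fun τ _ => ?_
    congr 1
    exact Equiv.sum_comp (Equiv.mulLeft σ₂) (fun τ' : Equiv.Perm (Fin (m + 2)) =>
        ∫⁻ w, ∫⁻ w', ENNReal.ofReal (nt t (fun d => σ₁ (τ (w d))) (fun d => τ' (w' d))) ∂μ ∂μ)
  rw [survival_eq, U0_sum]
  have h1 : ∀ σ₁ σ₂ : Equiv.Perm (Fin (m + 2)), ∫⁻ w₁, ∫⁻ w₂, ENNReal.ofReal
      (nt (t + l) (fun d => σ₁ (w₁ d)) (fun d => σ₂ (w₂ d))) ∂(nuR path l μ) ∂(nuR path l μ) =
      ENNReal.ofReal (av (fun w : Ω × Ω =>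
        nt l (fun d => σ₁ (path w.1 d)) (fun d => σ₂ (path w.2 d)))) * s := by
    intro σ₁ σ₂
    rw [U0_int]
    have e1 : ∀ (ω ω' : Ω) (τ τ' : Equiv.Perm (Fin (m + 2))) (w w' : ℕ → Fin (m + 2)),
        ENNReal.ofReal (nt (t + l) (fun d => σ₁ (Psi path l (ω, τ, w) d))
          (fun d => σ₂ (Psi path l (ω', τ', w') d))) =
        ENNReal.ofReal (nt l (fun d => σ₁ (path ω d)) (fun d => σ₂ (path ω' d))) *
        ENNReal.ofReal (nt t (fun d => σ₁ (τ (w d))) (fun d => σ₂ (τ' (w' d)))) := by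
      intro ω ω' τ τ' w w'
      rw [← ENNReal.ofReal_mul (nt_nonneg _ _ _)]
      congr 1
      rw [nt_eq_ind, nt_eq_ind, nt_eq_ind, ← ind_and]
      refine ind_congr ?_
      unfold Psi
      simp only
      constructor
      · intro h
        refine ⟨fun d hd => ?_, fun d hd => ?_⟩
        · have := h d (by omega)
          rwa [if_pos hd, if_pos hd] at this
        · have := h (d + l) (by omega)
          rwa [if_neg (by omega), if_neg (by omega), Nat.add_sub_cancel] at this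
      · rintro ⟨h1, h2⟩ d hd
        by_cases hdl : d < l
        · rw [if_pos hdl, if_pos hdl]
          exact h1 d hdl
        · rw [if_neg hdl, if_neg hdl]
          exact h2 (d - l) (by omega)
    simp only [e1]
    have e2 : ∀ ω ω' : Ω, ∫⁻ τ, ∫⁻ τ', ∫⁻ w, ∫⁻ w',
        ENNReal.ofReal (nt l (fun d => σ₁ (path ω d)) (fun d => σ₂ (path ω' d))) *
        ENNReal.ofReal (nt t (fun d => σ₁ (τ (w d))) (fun d => σ₂ (τ' (w' d)))) ∂μ ∂μ
        ∂(uniform (Equiv.Perm (Fin (m + 2)))) ∂(uniform (Equiv.Perm (Fin (m + 2)))) =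
        ENNReal.ofReal (nt l (fun d => σ₁ (path ω d)) (fun d => σ₂ (path ω' d))) * s := by
      intro ω ω'
      rw [← hinv σ₁ σ₂]
      simp only [lintegral_const_mul' _ _ ENNReal.ofReal_ne_top]
    simp only [e2]
    have e3 : ∀ ω : Ω, ∫⁻ ω', ENNReal.ofReal
        (nt l (fun d => σ₁ (path ω d)) (fun d => σ₂ (path ω' d))) * s ∂(uniform Ω) =
        ENNReal.ofReal (av (fun ω' : Ω =>
          nt l (fun d => σ₁ (path ω d)) (fun d => σ₂ (path ω' d)))) * s := by
      intro ω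
      rw [lintegral_mul_const _ Measurable.of_discrete,
        lintegral_uniform_ofReal _ fun ω' => nt_nonneg _ _ _]
    rw [lintegral_congr e3, lintegral_mul_const _ Measurable.of_discrete,
      lintegral_uniform_ofReal _ fun ω => av_nonneg fun ω' => nt_nonneg _ _ _, av_prod]
  simp only [h1]
  have h2 : ∀ σ₁ : Equiv.Perm (Fin (m + 2)), ∫⁻ σ₂, ENNReal.ofReal (av (fun w : Ω × Ω =>
        nt l (fun d => σ₁ (path w.1 d)) (fun d => σ₂ (path w.2 d)))) * s
        ∂(uniform (Equiv.Perm (Fin (m + 2)))) =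
      ENNReal.ofReal (av (fun σ₂ : Equiv.Perm (Fin (m + 2)) => av (fun w : Ω × Ω =>
        nt l (fun d => σ₁ (path w.1 d)) (fun d => σ₂ (path w.2 d))))) * s := by
    intro σ₁
    rw [lintegral_mul_const _ Measurable.of_discrete,
      lintegral_uniform_ofReal _ fun σ₂ => av_nonneg fun w => nt_nonneg _ _ _]
  rw [lintegral_congr h2, lintegral_mul_const _ Measurable.of_discrete,
    lintegral_uniform_ofReal _ fun σ₁ => av_nonneg fun σ₂ => av_nonneg fun w => nt_nonneg _ _ _]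
  unfold psurv
  rw [av_prod]

end

lemma expTime_eq_survival (n : ℕ) (ν : Measure (ℕ → Fin n)) [SFinite ν] :
    expTime n ν = ∑' t : ℕ, survival n ν t := by
  rw [expTime_eq_tsum]
  simp only [survival_eq]
  rw [Summable.tsum_finsetSum fun _ _ => ENNReal.summable]
  refine Finset.sum_congr rfl fun σ₁ _ => ?_
  rw [Summable.tsum_finsetSum fun _ _ => ENNReal.summable]
  refine Finset.sum_congr rfl fun σ₂ _ => ?_
  rw [ENNReal.tsum_mul_left]

lemma psurv_le_one {Ω : Type} [Fintype Ω] [Nonempty Ω] {n : ℕ} (path : Ω → ℕ → Fin n) (t : ℕ) :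
    psurv n path t ≤ 1 :=
  av_le_const fun _ => av_le_const fun _ => nt_le_one _ _ _

theorem restart (m : ℕ) {Ω : Type} [Fintype Ω] [Nonempty Ω] (path : Ω → ℕ → Fin (m + 2)) (l : ℕ) :
    value (m + 2) ≤ ∑ t ∈ Finset.range l, ENNReal.ofReal (psurv (m + 2) path t) +
      ENNReal.ofReal (psurv (m + 2) path l) * value (m + 2) := by
  letI : MeasurableSpace Ω := ⊤
  haveI : DiscreteMeasurableSpace Ω := ⟨fun _ => trivial⟩
  have key : ∀ (μ : Measure (ℕ → Fin (m + 2))) [IsProbabilityMeasure μ],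
      value (m + 2) ≤ ∑ t ∈ Finset.range l, ENNReal.ofReal (psurv (m + 2) path t) +
      ENNReal.ofReal (psurv (m + 2) path l) * expTime (m + 2) μ := by
    intro μ _
    refine (value_le (m + 2) (nuR path l μ)).trans (le_of_eq ?_)
    rw [expTime_eq_survival, expTime_eq_survival,
      ← Summable.sum_add_tsum_nat_add' (k := l) ENNReal.summable]
    congr 1
    · refine Finset.sum_congr rfl fun t ht => ?_
      exact U0_short path l μ t (Finset.mem_range.1 ht).le
    · simp only [U0_long]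
      rw [ENNReal.tsum_mul_left]
  refine ENNReal.le_of_forall_pos_le_add fun ε hε _ => ?_
  have hlt : value (m + 2) < value (m + 2) + ε :=
    ENNReal.lt_add_right (value_lt_top m).ne (by exact_mod_cast hε.ne')
  have hex : ∃ (μ : Measure (ℕ → Fin (m + 2))) (_ : IsProbabilityMeasure μ),
      expTime (m + 2) μ < value (m + 2) + ε := by
    conv at hlt => lhs; unfold value
    rw [iInf_lt_iff] at hlt
    obtain ⟨μ, hμ⟩ := hlt
    rw [iInf_lt_iff] at hμ
    obtain ⟨h1, h2⟩ := hμ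
    exact ⟨μ, h1, h2⟩
  obtain ⟨μ, hμ, hμe⟩ := hex
  have hB : ENNReal.ofReal (psurv (m + 2) path l) ≤ 1 := by
    rw [← ENNReal.ofReal_one]
    exact ENNReal.ofReal_le_ofReal (psurv_le_one path l)
  calc value (m + 2) ≤ ∑ t ∈ Finset.range l, ENNReal.ofReal (psurv (m + 2) path t) +
      ENNReal.ofReal (psurv (m + 2) path l) * expTime (m + 2) μ := key μ
    _ ≤ ∑ t ∈ Finset.range l, ENNReal.ofReal (psurv (m + 2) path t) +
      ENNReal.ofReal (psurv (m + 2) path l) * (value (m + 2) + ε) := by gcongr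
    _ = ∑ t ∈ Finset.range l, ENNReal.ofReal (psurv (m + 2) path t) +
      ENNReal.ofReal (psurv (m + 2) path l) * value (m + 2) +
      ENNReal.ofReal (psurv (m + 2) path l) * ε := by rw [mul_add, add_assoc]
    _ ≤ ∑ t ∈ Finset.range l, ENNReal.ofReal (psurv (m + 2) path t) +
      ENNReal.ofReal (psurv (m + 2) path l) * value (m + 2) + ε := by
        gcongr
        calc ENNReal.ofReal (psurv (m + 2) path l) * (ε : ℝ≥0∞) ≤ 1 * (ε : ℝ≥0∞) := by gcongr
          _ = ε := one_mul _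

end H50R
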