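import Pool.Agent.Lib.H50R.Basic

/-!
# H50R, chunk U1 (S): only the relative labelling matters

Proof. σ.1 a = σ.2 b iff (σ.2⁻¹ * σ.1) a = b. Substitute (σ₁, σ₂) -> (σ₂⁻¹ σ₁, σ₂) (a bijection of the pairs;
av_equiv), then av_prod and av_const (the function does not depend on σ₂ any more).
-/

namespace H50R

open Pool.Agent.RdvTour

theorem psurv_rho {Ω : Type} [Fintype Ω] (n : ℕ) (path : Ω → ℕ → Fin n) (t : ℕ) :
    psurv n path t = av (fun ρ : Equiv.Perm (Fin n) =>
      av (fun w : Ω × Ω => ind (∀ d < t, ρ (path w.1 d) ≠ path w.2 d))) := by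
  unfold psurv
  rw [av_prod, av_comm]
  have h : ∀ σ₂ : Equiv.Perm (Fin n), av (fun σ₁ : Equiv.Perm (Fin n) =>
      av (fun w : Ω × Ω => nt t (fun d => σ₁ (path w.1 d)) (fun d => σ₂ (path w.2 d)))) =
      av (fun ρ : Equiv.Perm (Fin n) =>
        av (fun w : Ω × Ω => ind (∀ d < t, ρ (path w.1 d) ≠ path w.2 d))) := by
    intro σ₂
    refine Eq.trans ?_ (av_equiv (Equiv.mulLeft σ₂⁻¹) (fun ρ : Equiv.Perm (Fin n) =>
      av (fun w : Ω × Ω => ind (∀ d < t, ρ (path w.1 d) ≠ path w.2 d))))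
    refine av_congr fun σ₁ => av_congr fun w => ?_
    rw [nt_eq_ind]
    refine ind_congr ?_
    refine forall_congr' fun d => forall_congr' fun _ => not_congr ?_
    simp only [Equiv.coe_mulLeft, Equiv.Perm.mul_apply]
    rw [Equiv.Perm.inv_eq_iff_eq]
  rw [av_congr h, av_const]

end H50R
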