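import Pool.Agent.Lib.H50R.Basic

/-!
# H50R, chunk U2 (M): factorisation over the half blocks

Proof. The indicator is ind (ρ 0 ≠ 0) times the product over the six half blocks; av_pi.
-/

namespace H50R

lemma U2_ind_forall {ι : Type*} [Fintype ι] (p : ι → Prop) :
    ind (∀ i, p i) = ∏ i, ind (p i) := by
  classical
  by_cases h : ∀ i, p i
  · rw [ind_of_true h, Finset.prod_congr rfl (fun i _ => ind_of_true (h i))]
    simp
  · rw [ind_of_false h]
    push Not at h
    obtain ⟨i, hi⟩ := h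
    exact (Finset.prod_eq_zero (Finset.mem_univ i) (ind_of_false hi)).symm

lemma U2_path_zero (m : ℕ) (ω : Om m) : path m ω 0 = 0 := by
  unfold path
  rw [dif_neg (by simp)]

lemma U2_path_succ (m : ℕ) (ω : Om m) (i : Fin 6) (s : Fin (hh m)) :
    path m ω (1 + (i : ℕ) * hh m + (s : ℕ)) = dl m (plan ω.1 i) (ω.2 i) s := by
  have hpos := hh_pos m
  have e1 : (1 + (i : ℕ) * hh m + (s : ℕ) - 1) = (s : ℕ) + hh m * (i : ℕ) := by
    rw [mul_comm (hh m)]; omega
  have e2 : (1 + (i : ℕ) * hh m + (s : ℕ) - 1) / hh m = (i : ℕ) := by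
    rw [e1, Nat.add_mul_div_left _ _ hpos, Nat.div_eq_of_lt s.2, zero_add]
  have e3 : (1 + (i : ℕ) * hh m + (s : ℕ) - 1) % hh m = (s : ℕ) := by
    rw [e1, Nat.add_mul_mod_self_left, Nat.mod_eq_of_lt s.2]
  have hc : 0 < 1 + (i : ℕ) * hh m + (s : ℕ) ∧ (1 + (i : ℕ) * hh m + (s : ℕ) - 1) / hh m < 6 ∧ 0 < hh m :=
    ⟨by omega, by rw [e2]; exact i.2, hpos⟩
  unfold path
  rw [dif_pos hc]
  have e4 : (⟨(1 + (i : ℕ) * hh m + (s : ℕ) - 1) / hh m, hc.2.1⟩ : Fin 6) = i := Fin.ext e2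
  have e5 : (⟨(1 + (i : ℕ) * hh m + (s : ℕ) - 1) % hh m, Nat.mod_lt _ hc.2.2⟩ : Fin (hh m)) = s := Fin.ext e3
  rw [e4, e5]

/-- condition of one half block -/
def U2_E (m : ℕ) (ρ : Equiv.Perm (Fin (m + 2))) (x x' : PS) (i : Fin 6) (j : ℕ) (i' : Fin 6)
    (p : Equiv.Perm (Fin (hh m)) × Equiv.Perm (Fin (hh m))) : Prop :=
  ∀ s : Fin (hh m), (i' < i ∨ (i' = i ∧ (s : ℕ) < j)) →
    ρ (dl m (plan x i') p.1 s) ≠ dl m (plan x' i') p.2 s

lemma U2_iff (m : ℕ) (ρ : Equiv.Perm (Fin (m + 2))) (x x' : PS) (i : Fin 6) (j : ℕ) (hj : j ≤ hh m)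
    (r r' : Fin 6 → Equiv.Perm (Fin (hh m))) :
    (∀ d < 1 + (i : ℕ) * hh m + j, ρ (path m (x, r) d) ≠ path m (x', r') d) ↔
      (ρ 0 ≠ 0 ∧ ∀ i' : Fin 6, U2_E m ρ x x' i j i' (r i', r' i')) := by
  have hpos := hh_pos m
  constructor
  · intro h
    refine ⟨?_, fun i' s hs => ?_⟩
    · have := h 0 (by omega)
      rwa [U2_path_zero, U2_path_zero] at this
    · have h1 := h (1 + (i' : ℕ) * hh m + (s : ℕ)) ?_
      · rwa [U2_path_succ, U2_path_succ] at h1
      · rcases hs with hs | ⟨hs, hs'⟩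
        · have h2 : (i' : ℕ) + 1 ≤ i := hs
          have h3 : ((i' : ℕ) + 1) * hh m ≤ (i : ℕ) * hh m := Nat.mul_le_mul_right _ h2
          have h4 := s.2
          rw [add_mul, one_mul] at h3
          omega
        · rw [hs]; omega
  · rintro ⟨h0, h⟩ d hd
    rcases Nat.eq_zero_or_pos d with rfl | hd0
    · rwa [U2_path_zero, U2_path_zero]
    · obtain ⟨u, rfl⟩ : ∃ u, d = 1 + u := ⟨d - 1, by omega⟩
      have hu : u < (i : ℕ) * hh m + j := by omega
      have hdm := Nat.div_add_mod u (hh m)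
      set a := u / hh m with ha
      set b := u % hh m with hb
      have hbl : b < hh m := Nat.mod_lt _ hpos
      have hai : a ≤ i := by
        by_contra hcon
        have h1 : (i : ℕ) + 1 ≤ a := by omega
        have h2 : ((i : ℕ) + 1) * hh m ≤ a * hh m := Nat.mul_le_mul_right _ h1
        rw [add_mul, one_mul, mul_comm a] at h2
        omega
      have ha6 : a < 6 := lt_of_le_of_lt hai i.2
      have hud : 1 + u = 1 + ((⟨a, ha6⟩ : Fin 6) : ℕ) * hh m + ((⟨b, hbl⟩ : Fin (hh m)) : ℕ) := by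
        show 1 + u = 1 + a * hh m + b
        rw [mul_comm a]; omega
      rw [hud, U2_path_succ, U2_path_succ]
      refine h ⟨a, ha6⟩ ⟨b, hbl⟩ ?_
      rcases Nat.lt_or_ge a i with hlt | hge
      · exact Or.inl hlt
      · have hae : a = i := le_antisymm hai hge
        refine Or.inr ⟨Fin.ext hae, ?_⟩
        show b < j
        rw [hae, mul_comm] at hdm
        omega

theorem block_prod (m : ℕ) (ρ : Equiv.Perm (Fin (m + 2))) (x x' : PS) (i : Fin 6) (j : ℕ)
    (hj : j ≤ hh m) :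
    av (fun r : (Fin 6 → Equiv.Perm (Fin (hh m))) × (Fin 6 → Equiv.Perm (Fin (hh m))) =>
      ind (∀ d < 1 + (i : ℕ) * hh m + j, ρ (path m (x, r.1) d) ≠ path m (x', r.2) d)) =
    ind (ρ 0 ≠ 0) * ((∏ i' ∈ Finset.univ.filter (fun i' : Fin 6 => i' < i),
      Q m ρ (plan x i') (plan x' i') (hh m)) * Q m ρ (plan x i) (plan x' i) j) := by
  classical
  have h1 : ∀ r : (Fin 6 → Equiv.Perm (Fin (hh m))) × (Fin 6 → Equiv.Perm (Fin (hh m))),
      ind (∀ d < 1 + (i : ℕ) * hh m + j, ρ (path m (x, r.1) d) ≠ path m (x', r.2) d) =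
      ind (ρ 0 ≠ 0) * ∏ i' : Fin 6, ind (U2_E m ρ x x' i j i' (r.1 i', r.2 i')) := by
    intro r
    rw [ind_congr (U2_iff m ρ x x' i j hj r.1 r.2), ind_and, U2_ind_forall]
  rw [av_congr h1, av_mul_left]
  congr 1
  rw [← av_equiv (Equiv.arrowProdEquivProdArrow (Fin 6) (fun _ => Equiv.Perm (Fin (hh m)))
    (fun _ => Equiv.Perm (Fin (hh m))))]
  have h2 := av_pi (ι := Fin 6) (α := Equiv.Perm (Fin (hh m)) × Equiv.Perm (Fin (hh m)))
    (fun i' p => ind (U2_E m ρ x x' i j i' p))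
  refine Eq.trans ?_ (h2.trans ?_)
  · rfl
  · rw [← Finset.prod_filter_mul_prod_filter_not Finset.univ (fun i' : Fin 6 => i' < i)]
    congr 1
    · refine Finset.prod_congr rfl fun i' hi' => ?_
      have hlt := (Finset.mem_filter.1 hi').2
      unfold Q
      refine av_congr fun p => ind_congr ?_
      unfold U2_E
      refine forall_congr' fun s => ?_
      simp only [hlt, true_or, forall_true_left, s.2]
    · rw [Finset.prod_eq_single i]
      · unfold Q
        refine av_congr fun p => ind_congr ?_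
        unfold U2_E
        refine forall_congr' fun s => ?_
        simp
      · intro b hb hbi
        have hnot := (Finset.mem_filter.1 hb).2
        rw [av_congr (g := fun _ => 1), av_const]
        intro p
        refine ind_of_true fun s hs => ?_
        rcases hs with hs | ⟨hs, _⟩
        · exact absurd hs hnot
        · exact absurd hs hbi
      · intro hn
        exact (hn (by simp)).elim

end H50R
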